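import Mathlib
import Pool.Agent.Lib.Sieve.PairSieve
import Pool.Agent.Lib.MP_5d7b92_nt.Assembly
import Pool.Agent.Lib.MP_5d7b92_nt.Count

/-!
# A Romanoff type theorem for sums of a small prime from a given set and a large prime
-/

open Finset Filter

namespace Pool.Agent.Lib.MP_7b7e48_nt

open Pool.Agent.Lib.MP_5d7b92_nt (paley_zygmund rep sum_rep pairCount sum_rep_sq
  primeCounting_ge primeCounting_le)

/-- Primes in `(X / 400, X]`. -/
noncomputable def bigPrimes (X : ℕ) : Finset ℕ := (Finset.Ioc (X / 400) X).filter Nat.Prime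

theorem card_bigPrimes_le (X : ℕ) : (bigPrimes X).card ≤ Nat.primeCounting X := by
  rw [← Nat.primesLE_card_eq_primeCounting X]
  apply Finset.card_le_card
  intro p hp
  have := Finset.mem_filter.mp hp
  rw [Nat.mem_primesLE]
  exact ⟨(Finset.mem_Ioc.mp this.1).2, this.2⟩

theorem primeCounting_le_card_bigPrimes (X : ℕ) :
    Nat.primeCounting X ≤ (bigPrimes X).card + Nat.primeCounting (X / 400) := by
  rw [← Nat.primesLE_card_eq_primeCounting X, ← Nat.primesLE_card_eq_primeCounting (X / 400)]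
  refine (Finset.card_le_card ?_).trans (Finset.card_union_le _ _)
  intro p hp
  rw [Nat.mem_primesLE] at hp
  rw [Finset.mem_union]
  rcases le_or_gt p (X / 400) with h | h
  · right; rw [Nat.mem_primesLE]; exact ⟨h, hp.2⟩
  · left
    exact Finset.mem_filter.mpr ⟨Finset.mem_Ioc.mpr ⟨h, hp.1⟩, hp.2⟩

theorem card_bigPrimes_ge : ∃ X0 : ℕ, ∀ X : ℕ, X0 ≤ X →
    (1 / 20 : ℝ) * X / Real.log X ≤ ((bigPrimes X).card : ℝ) := by
  refine ⟨200000, fun X hX => ?_⟩
  have hXr : (200000 : ℝ) ≤ X := by exact_mod_cast hX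
  have h1 := primeCounting_ge X (by omega)
  have h2 := primeCounting_le (X / 400) (by omega)
  have h3 : (Nat.primeCounting X : ℝ) ≤ ((bigPrimes X).card : ℝ) +
      (Nat.primeCounting (X / 400) : ℝ) := by exact_mod_cast primeCounting_le_card_bigPrimes X
  have hL : 0 < Real.log X := Real.log_pos (by linarith)
  have hdiv : ((X / 400 : ℕ) : ℝ) ≤ X / 400 := Nat.cast_div_le
  have hdiv2 : (X : ℝ) / 400 - 1 ≤ ((X / 400 : ℕ) : ℝ) := by
    have : (X : ℝ) < 400 * (((X / 400 : ℕ) : ℝ) + 1) := by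
      exact_mod_cast Nat.lt_mul_div_succ X (by norm_num : 0 < 400)
    linarith
  -- log (X/400) ≥ log X / 2
  have hlog : Real.log X / 2 ≤ Real.log ((X / 400 : ℕ) : ℝ) := by
    have h4 : √(X : ℝ) ≤ ((X / 400 : ℕ) : ℝ) := by
      by_contra hcon
      push Not at hcon
      have h9 : (X / 400) ^ 2 < X := by
        have h8 : (((X / 400 : ℕ) : ℝ)) ^ 2 < (X : ℝ) := by
          have h7 : (√(X : ℝ)) ^ 2 = X := Real.sq_sqrt (by linarith)
          have h6 : (0 : ℝ) ≤ ((X / 400 : ℕ) : ℝ) := Nat.cast_nonneg _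
          nlinarith
        exact_mod_cast h8
      have h10 : X < 400 * (X / 400 + 1) := Nat.lt_mul_div_succ X (by norm_num)
      have h11 : 500 ≤ X / 400 := by omega
      nlinarith
    have h5 : Real.log (√(X : ℝ)) ≤ Real.log ((X / 400 : ℕ) : ℝ) :=
      Real.log_le_log (Real.sqrt_pos.mpr (by linarith)) h4
    rwa [Real.log_sqrt (by linarith)] at h5
  have hlogpos : 0 < Real.log ((X / 400 : ℕ) : ℝ) := by linarith
  have h4 : (5 : ℝ) * ((X / 400 : ℕ) : ℝ) / Real.log ((X / 400 : ℕ) : ℝ) ≤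
      (1 / 40 : ℝ) * X / Real.log X := by
    rw [div_le_div_iff₀ hlogpos hL]
    nlinarith
  have h5 : (1 / 10 : ℝ) * X / Real.log X = (1 / 20 : ℝ) * X / Real.log X
      + 2 * ((1 / 40 : ℝ) * X / Real.log X) := by ring
  have h6 : 0 ≤ (1 / 40 : ℝ) * X / Real.log X := by positivity
  linarith

/-- The sum of the singular series factor `d / φ(d)` over the differences of `Q`. -/
noncomputable def diffSum (Q : Finset ℕ) : ℝ :=
  ∑ q ∈ Q, ∑ q' ∈ Q.filter (fun q' => q < q'), ((q' - q : ℕ) : ℝ) / (Nat.totient (q' - q) : ℝ)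

/-- **Romanoff type theorem.** -/
theorem romanoff : ∃ c : ℝ, 0 < c ∧ ∃ X0 : ℕ, ∀ X : ℕ, X0 ≤ X → ∀ Q : Finset ℕ,
    (∀ q ∈ Q, q.Prime ∧ q ≠ 2 ∧ q ≤ X / 400) → Real.log X ≤ (Q.card : ℝ) →
    ∀ K : ℝ, 1 ≤ K → diffSum Q ≤ K * (Q.card : ℝ) ^ 2 →
    c * X / K ≤ (((Finset.Icc 1 X).filter (fun n => c * (Q.card : ℝ) / Real.log X ≤
      ((Q.filter (fun q => q < n ∧ (2 * n - q).Prime)).card : ℝ))).card : ℝ) := by
  obtain ⟨CA, hCA, hA⟩ := Pool.Agent.Lib.Sieve.pair_sieve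
  obtain ⟨X1, hX1⟩ := card_bigPrimes_ge
  set D : ℝ := 5 + 2 * CA with hD
  have hD0 : 0 < D := by positivity
  set c : ℝ := min (1 / (4 * 20 ^ 2 * D)) (1 / 40) with hc
  have hc0 : 0 < c := by positivity
  refine ⟨c, hc0, max X1 800, fun X hX Q hQ hQL K hK hdiff => ?_⟩
  have hXX1 : X1 ≤ X := (le_max_left _ _).trans hX
  have hX800 : 800 ≤ X := (le_max_right _ _).trans hX
  set L := Real.log (X : ℝ) with hL
  have hXr : (800 : ℝ) ≤ X := by exact_mod_cast hX800
  have hX0 : (0 : ℝ) < X := by linarith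
  have hL0 : 0 < L := Real.log_pos (by linarith)
  have hQ0 : (0 : ℝ) < Q.card := by linarith
  set P := bigPrimes X with hP
  have hPlow : (1 / 20 : ℝ) * X / L ≤ (P.card : ℝ) := hX1 X hXX1
  have hPup : (P.card : ℝ) ≤ 5 * X / L := by
    have h1 := primeCounting_le X (by omega)
    have h2 : (P.card : ℝ) ≤ (Nat.primeCounting X : ℝ) := by
      exact_mod_cast card_bigPrimes_le X
    linarith
  have hPmem : ∀ p ∈ P, X / 400 < p ∧ p ≤ X ∧ p.Prime := by
    intro p hp
    have := Finset.mem_filter.mp hp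
    have h2 := Finset.mem_Ioc.mp this.1
    exact ⟨h2.1, h2.2, this.2⟩
  have hodd : ∀ p : ℕ, p.Prime → p ≠ 2 → p % 2 = 1 := fun p hp h2 =>
    (hp.eq_two_or_odd).resolve_left h2
  have hQP : ∀ q ∈ Q, ∀ p ∈ P, ∃ n, n ∈ Finset.Icc 1 X ∧ q + p = 2 * n := by
    intro q hq p hp
    obtain ⟨h1, h2, h3⟩ := hQ q hq
    obtain ⟨h4, h5, h6⟩ := hPmem p hp
    have h7 := hodd q h1 h2
    have h8 := hodd p h6 (by omega)
    have := h1.two_le
    refine ⟨(q + p) / 2, ?_, by omega⟩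
    rw [Finset.mem_Icc]
    omega
  -- first moment
  have hS1 : ∑ n ∈ Finset.Icc 1 X, (rep Q P n : ℝ) = (Q.card : ℝ) * P.card := by
    exact_mod_cast sum_rep Q P X hQP
  -- second moment
  have hpair : ∀ d : ℕ, 1 ≤ d → (pairCount P d : ℝ)
      ≤ CA * ((d : ℝ) / (Nat.totient d : ℝ)) * (X : ℝ) / L ^ 2 := by
    intro d hd
    refine le_trans ?_ (hA X d (by omega) hd)
    have : pairCount P d ≤ ((Finset.Icc 1 X).filter (fun p => p.Prime ∧ (p + d).Prime)).card := by
      unfold pairCount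
      apply Finset.card_le_card
      intro p hp
      have hp := Finset.mem_filter.mp hp
      have hp1 := hPmem p hp.1
      have hp2 := hPmem _ hp.2
      simp only [Finset.mem_filter, Finset.mem_Icc]
      exact ⟨⟨hp1.2.2.one_lt.le, hp1.2.1⟩, hp1.2.2, hp2.2.2⟩
    exact_mod_cast this
  have hS2 : ∑ n ∈ Finset.Icc 1 X, (rep Q P n : ℝ) ^ 2
      ≤ D * K * (Q.card : ℝ) ^ 2 * X / L ^ 2 := by
    have h1 : ∑ n ∈ Finset.Icc 1 X, (rep Q P n : ℝ) ^ 2 ≤ (Q.card : ℝ) * P.card +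
      2 * ∑ q ∈ Q, ∑ q' ∈ Q.filter (fun q' => q < q'), (pairCount P (q' - q) : ℝ) := by
      exact_mod_cast sum_rep_sq Q P X hQP
    have h2 : ∑ q ∈ Q, ∑ q' ∈ Q.filter (fun q' => q < q'), (pairCount P (q' - q) : ℝ)
        ≤ CA * X / L ^ 2 * diffSum Q := by
      unfold diffSum
      rw [Finset.mul_sum]
      refine Finset.sum_le_sum fun q _ => ?_
      rw [Finset.mul_sum]
      refine Finset.sum_le_sum fun q' hq' => ?_
      have := (Finset.mem_filter.mp hq').2
      have h3 := hpair (q' - q) (by omega)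
      calc (pairCount P (q' - q) : ℝ) ≤ _ := h3
        _ = _ := by ring
    have h4 : (Q.card : ℝ) * P.card ≤ 5 * K * (Q.card : ℝ) ^ 2 * X / L ^ 2 := by
      calc (Q.card : ℝ) * P.card ≤ (Q.card : ℝ) * (5 * X / L) := by gcongr
        _ = 5 * L * (Q.card : ℝ) * X / L ^ 2 := by field_simp
        _ ≤ 5 * (K * (Q.card : ℝ)) * (Q.card : ℝ) * X / L ^ 2 := by
            gcongr
            nlinarith
        _ = 5 * K * (Q.card : ℝ) ^ 2 * X / L ^ 2 := by ring
    calc ∑ n ∈ Finset.Icc 1 X, (rep Q P n : ℝ) ^ 2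
        ≤ 5 * K * (Q.card : ℝ) ^ 2 * X / L ^ 2
          + 2 * (CA * X / L ^ 2 * (K * (Q.card : ℝ) ^ 2)) := by
          refine h1.trans (add_le_add h4 ?_)
          refine mul_le_mul_of_nonneg_left (h2.trans ?_) (by norm_num)
          refine mul_le_mul_of_nonneg_left hdiff (by positivity)
      _ = D * K * (Q.card : ℝ) ^ 2 * X / L ^ 2 := by rw [hD]; ring
  -- Paley-Zygmund
  set θ : ℝ := c * (Q.card : ℝ) / L with hθ
  have hθ2 : 2 * (θ * ((Finset.Icc 1 X).card : ℝ)) ≤ ∑ n ∈ Finset.Icc 1 X, (rep Q P n : ℝ) := by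
    rw [hS1, Nat.card_Icc]
    have hX' : ((X + 1 - 1 : ℕ) : ℝ) = X := by simp
    rw [hX', hθ]
    have hc4 : c ≤ 1 / 40 := min_le_right _ _
    calc 2 * (c * (Q.card : ℝ) / L * X)
        = (2 * c) * (Q.card : ℝ) * (X / L) := by field_simp
      _ ≤ (1 / 20) * (Q.card : ℝ) * (X / L) := by
          gcongr
          linarith
      _ = (Q.card : ℝ) * ((1 / 20 : ℝ) * X / L) := by ring
      _ ≤ (Q.card : ℝ) * P.card := by gcongr
  have hPZ := paley_zygmund (Finset.Icc 1 X) (fun n => (rep Q P n : ℝ))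
    (fun n _ => Nat.cast_nonneg _) θ hθ2
  rw [hS1] at hPZ
  have hrep : ∀ n, rep Q P n ≤ (Q.filter (fun q => q < n ∧ (2 * n - q).Prime)).card := by
    intro n
    unfold rep
    refine Finset.card_le_card_of_injOn (fun x => x.1) ?_ ?_
    · intro x hx
      have hx := Finset.mem_filter.mp (Finset.mem_coe.mp hx)
      have h1 := (Finset.mem_product.mp hx.1).1
      have h2 := hPmem _ (Finset.mem_product.mp hx.1).2
      have h3 := hQ _ h1
      have h4 := hx.2
      have h5 : x.1 < n := by omega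
      rw [Finset.mem_coe, Finset.mem_filter]
      refine ⟨h1, h5, ?_⟩
      have : 2 * n - x.1 = x.2 := by omega
      rw [this]
      exact h2.2.2
    · intro x hx y hy hxy
      have hx := (Finset.mem_filter.mp (Finset.mem_coe.mp hx)).2
      have hy := (Finset.mem_filter.mp (Finset.mem_coe.mp hy)).2
      have hxy : x.1 = y.1 := hxy
      ext
      · exact hxy
      · omega
  have hmono : (((Finset.Icc 1 X).filter (fun n => θ ≤ (rep Q P n : ℝ))).card : ℝ)
      ≤ (((Finset.Icc 1 X).filter (fun n => θ ≤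
        ((Q.filter (fun q => q < n ∧ (2 * n - q).Prime)).card : ℝ))).card : ℝ) := by
    have : ((Finset.Icc 1 X).filter (fun n => θ ≤ (rep Q P n : ℝ))).card
        ≤ ((Finset.Icc 1 X).filter (fun n => θ ≤
          ((Q.filter (fun q => q < n ∧ (2 * n - q).Prime)).card : ℝ))).card := by
      apply Finset.card_le_card
      intro n hn
      have hn := Finset.mem_filter.mp hn
      refine Finset.mem_filter.mpr ⟨hn.1, hn.2.trans ?_⟩
      exact_mod_cast hrep n
    exact_mod_cast this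
  refine le_trans ?_ hmono
  set N := (((Finset.Icc 1 X).filter (fun n => θ ≤ (rep Q P n : ℝ))).card : ℝ) with hN
  have hN0 : 0 ≤ N := Nat.cast_nonneg _
  -- combine
  have h5 : ((Q.card : ℝ) * ((1 / 20 : ℝ) * X / L)) ^ 2
      ≤ 4 * N * (D * K * (Q.card : ℝ) ^ 2 * X / L ^ 2) := by
    calc ((Q.card : ℝ) * ((1 / 20 : ℝ) * X / L)) ^ 2 ≤ ((Q.card : ℝ) * P.card) ^ 2 := by gcongr
      _ ≤ _ := hPZ
      _ ≤ _ := by gcongr
  have h6 : (X : ℝ) ≤ 4 * 20 ^ 2 * D * (N * K) := by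
    have e1 : ((Q.card : ℝ) * ((1 / 20 : ℝ) * X / L)) ^ 2
        = ((Q.card : ℝ) ^ 2 * X / L ^ 2) * ((1 / 20 ^ 2) * X) := by field_simp
    have e2 : 4 * N * (D * K * (Q.card : ℝ) ^ 2 * X / L ^ 2)
        = ((Q.card : ℝ) ^ 2 * X / L ^ 2) * (4 * D * (N * K)) := by ring
    rw [e1, e2] at h5
    have hpos : 0 < (Q.card : ℝ) ^ 2 * X / L ^ 2 := by positivity
    have := le_of_mul_le_mul_left h5 hpos
    linarith
  have hK0 : 0 < K := by linarith
  rw [div_le_iff₀ hK0]
  have hc4 : c ≤ 1 / (4 * 20 ^ 2 * D) := min_le_left _ _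
  calc c * X ≤ 1 / (4 * 20 ^ 2 * D) * X := by gcongr
    _ ≤ 1 / (4 * 20 ^ 2 * D) * (4 * 20 ^ 2 * D * (N * K)) := by gcongr
    _ = N * K := by field_simp

end Pool.Agent.Lib.MP_7b7e48_nt
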