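import Mathlib
import Pool.Agent.Lib.Sieve.SingularAverage
import Pool.Agent.Lib.MP_7b7e48_nt.Romanoff

/-!
# The mean square of `h / φ(h)` and the average of the singular series over prime differences
-/

open Finset Filter

namespace Pool.Agent.Lib.MP_7b7e48_nt

open Pool.Agent.Lib.MP_5d7b92_nt (primeCounting_ge primeCounting_le)

theorem sum_inv_sq_le (S : Finset ℕ) (hS : ∀ n ∈ S, 2 ≤ n) :
    ∑ n ∈ S, (1 : ℝ) / (n : ℝ) ^ 2 ≤ 1 := by
  -- compare with the telescoping sum
  have h1 : ∀ N : ℕ, ∑ n ∈ Finset.Icc 2 (N + 1), (1 : ℝ) / (n : ℝ) ^ 2 ≤ 1 - 1 / ((N : ℝ) + 1) := by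
    intro N
    induction N with
    | zero => simp
    | succ N ih =>
      rw [Finset.sum_Icc_succ_top (by omega)]
      have h2 : (1 : ℝ) / (((N + 1 + 1 : ℕ)) : ℝ) ^ 2 ≤ 1 / ((N : ℝ) + 1) - 1 / ((N : ℝ) + 1 + 1) := by
        push_cast
        have : (0 : ℝ) < (N : ℝ) + 1 := by positivity
        rw [div_sub_div _ _ (by positivity) (by positivity), div_le_div_iff₀ (by positivity) (by positivity)]
        nlinarith
      push_cast at h2 ⊢
      linarith
  obtain ⟨N, hN⟩ : ∃ N, S ⊆ Finset.Icc 2 (N + 1) := by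
    refine ⟨S.sup id, fun n hn => ?_⟩
    have := Finset.le_sup (f := id) hn
    have h2 := hS n hn
    simp only [id] at this
    rw [Finset.mem_Icc]
    omega
  calc ∑ n ∈ S, (1 : ℝ) / (n : ℝ) ^ 2 ≤ ∑ n ∈ Finset.Icc 2 (N + 1), (1 : ℝ) / (n : ℝ) ^ 2 :=
        Finset.sum_le_sum_of_subset_of_nonneg hN (fun _ _ _ => by positivity)
    _ ≤ 1 - 1 / ((N : ℝ) + 1) := h1 N
    _ ≤ 1 := by
      have : (0 : ℝ) ≤ 1 / ((N : ℝ) + 1) := by positivity
      linarith

theorem sq_fac_le {p : ℕ} (hp : p.Prime) : ((1 - (1 : ℝ) / p)⁻¹) ^ 2 ≤ 1 + 6 / p := by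
  have h2 : (2 : ℝ) ≤ p := by exact_mod_cast hp.two_le
  have h3 : (1 - (1 : ℝ) / p) = (p - 1) / p := by field_simp
  rw [h3, inv_div, div_pow, div_le_iff₀ (by nlinarith)]
  have h4 : (1 + 6 / (p : ℝ)) * (p - 1) ^ 2 = ((p + 6) * (p - 1) ^ 2) / p := by field_simp
  rw [h4, le_div_iff₀ (by linarith)]
  nlinarith [mul_nonneg (sub_nonneg.mpr h2) (sub_nonneg.mpr h2), sq_nonneg ((p : ℝ) - 2),
    mul_nonneg (mul_nonneg (sub_nonneg.mpr h2) (sub_nonneg.mpr h2)) (by linarith : (0 : ℝ) ≤ p)]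

theorem sq_div_totient_le (h : ℕ) (hh : h ≠ 0) : ((h : ℝ) / (Nat.totient h : ℝ)) ^ 2 ≤
    ∑ S ∈ h.primeFactors.powerset, ∏ p ∈ S, (6 : ℝ) / p := by
  rw [Pool.Agent.Lib.Sieve.div_totient_eq_prod_inv h hh, ← Finset.prod_pow]
  calc ∏ p ∈ h.primeFactors, ((1 - (1 : ℝ) / p)⁻¹) ^ 2 ≤ ∏ p ∈ h.primeFactors, (1 + (6 : ℝ) / p) := by
        refine Finset.prod_le_prod (fun _ _ => by positivity) (fun p hp => ?_)
        exact sq_fac_le (Nat.prime_of_mem_primeFactors hp)
    _ = ∑ S ∈ h.primeFactors.powerset, ∏ p ∈ S, (6 : ℝ) / p := by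
        rw [Finset.prod_one_add]

theorem sum_sq_div_totient_le (H : ℕ) :
    ∑ h ∈ Finset.Icc 1 H, ((h : ℝ) / (Nat.totient h : ℝ)) ^ 2 ≤ Real.exp 6 * H := by
  classical
  set P : Finset ℕ := (Finset.Icc 1 H).filter Nat.Prime with hP
  set w : Finset ℕ → ℝ := fun S => ∏ p ∈ S, (6 : ℝ) / p with hw
  have hw0 : ∀ S, 0 ≤ w S := fun S => Finset.prod_nonneg fun _ _ => by positivity
  have h1 : ∀ h ∈ Finset.Icc 1 H, ((h : ℝ) / (Nat.totient h : ℝ)) ^ 2 ≤
      ∑ S ∈ P.powerset, if (∏ p ∈ S, p) ∣ h then w S else 0 := by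
    intro h hh
    have hh' := Finset.mem_Icc.mp hh
    refine (sq_div_totient_le h (by omega)).trans ?_
    rw [← Finset.sum_filter]
    refine Finset.sum_le_sum_of_subset_of_nonneg ?_ (fun S _ _ => hw0 S)
    intro S hS
    have hS' := Finset.mem_powerset.mp hS
    rw [Finset.mem_filter, Finset.mem_powerset]
    refine ⟨?_, ?_⟩
    · intro p hp
      have h3 := hS' hp
      have h4 := Nat.prime_of_mem_primeFactors h3
      have h5 := Nat.le_of_dvd (by omega) (Nat.dvd_of_mem_primeFactors h3)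
      exact Finset.mem_filter.mpr ⟨Finset.mem_Icc.mpr ⟨h4.one_lt.le, by omega⟩, h4⟩
    · exact (Finset.prod_dvd_prod_of_subset _ _ _ hS').trans (Nat.prod_primeFactors_dvd h)
  calc ∑ h ∈ Finset.Icc 1 H, ((h : ℝ) / (Nat.totient h : ℝ)) ^ 2
      ≤ ∑ h ∈ Finset.Icc 1 H, ∑ S ∈ P.powerset, if (∏ p ∈ S, p) ∣ h then w S else 0 :=
        Finset.sum_le_sum h1
    _ = ∑ S ∈ P.powerset, ∑ h ∈ Finset.Icc 1 H, if (∏ p ∈ S, p) ∣ h then w S else 0 :=
        Finset.sum_comm
    _ ≤ ∑ S ∈ P.powerset, H * ∏ p ∈ S, (6 : ℝ) / p ^ 2 := by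
        refine Finset.sum_le_sum fun S hS => ?_
        rw [← Finset.sum_filter, Finset.sum_const, nsmul_eq_mul]
        have hcard : ((Finset.Icc 1 H).filter (fun h => (∏ p ∈ S, p) ∣ h)).card = H / (∏ p ∈ S, p) := by
          have := Nat.card_multiples H (∏ p ∈ S, p)
          rw [← this]
          have himg : (Finset.Icc 1 H).filter (fun h => (∏ p ∈ S, p) ∣ h)
            = ((Finset.range H).filter (fun e => (∏ p ∈ S, p) ∣ e + 1)).image (fun e => e + 1) := by
            ext x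
            simp only [Finset.mem_filter, Finset.mem_Icc, Finset.mem_image, Finset.mem_range]
            constructor
            · rintro ⟨⟨hx1, hx2⟩, hx3⟩
              exact ⟨x - 1, ⟨by omega, by rwa [Nat.sub_add_cancel hx1]⟩, by omega⟩
            · rintro ⟨e, ⟨he1, he2⟩, rfl⟩
              exact ⟨⟨by omega, by omega⟩, he2⟩
          rw [himg, Finset.card_image_of_injective _ (add_left_injective 1)]
        rw [hcard]
        have hd : ((H / (∏ p ∈ S, p) : ℕ) : ℝ) ≤ (H : ℝ) / ((∏ p ∈ S, p : ℕ) : ℝ) := Nat.cast_div_le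
        calc ((H / (∏ p ∈ S, p) : ℕ) : ℝ) * w S ≤ (H : ℝ) / ((∏ p ∈ S, p : ℕ) : ℝ) * w S :=
              mul_le_mul_of_nonneg_right hd (hw0 S)
          _ = H * ∏ p ∈ S, (6 : ℝ) / p ^ 2 := by
              rw [hw]
              push_cast
              rw [div_mul_eq_mul_div, mul_div_assoc, ← Finset.prod_div_distrib]
              congr 1
              refine Finset.prod_congr rfl fun p _ => ?_
              rw [div_div, sq]
    _ = H * ∏ p ∈ P, (1 + (6 : ℝ) / p ^ 2) := by
        rw [← Finset.mul_sum, Finset.prod_one_add]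
    _ ≤ H * Real.exp 6 := by
        refine mul_le_mul_of_nonneg_left ?_ (Nat.cast_nonneg _)
        calc ∏ p ∈ P, (1 + (6 : ℝ) / p ^ 2) ≤ ∏ p ∈ P, Real.exp ((6 : ℝ) / p ^ 2) := by
              refine Finset.prod_le_prod (fun _ _ => by positivity) (fun p _ => ?_)
              rw [add_comm]
              exact Real.add_one_le_exp _
          _ = Real.exp (∑ p ∈ P, (6 : ℝ) / p ^ 2) := (Real.exp_sum _ _).symm
          _ ≤ Real.exp 6 := by
              apply Real.exp_le_exp.mpr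
              have := sum_inv_sq_le P (fun p hp => (Finset.mem_filter.mp hp).2.two_le)
              calc ∑ p ∈ P, (6 : ℝ) / p ^ 2 = 6 * ∑ p ∈ P, (1 : ℝ) / p ^ 2 := by
                    rw [Finset.mul_sum]
                    refine Finset.sum_congr rfl fun p _ => by ring
                _ ≤ 6 * 1 := by gcongr
                _ = 6 := by norm_num
    _ = Real.exp 6 * H := by ring

/-- Odd primes up to `Y`. -/
noncomputable def oddPrimes (Y : ℕ) : Finset ℕ := (Finset.Icc 3 Y).filter Nat.Prime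

theorem card_oddPrimes_add_one (X : ℕ) :
    Nat.primeCounting X ≤ (oddPrimes X).card + 1 := by
  rw [← Nat.primesLE_card_eq_primeCounting X]
  have : Nat.primesLE X ⊆ insert 2 (oddPrimes X) := by
    intro p hp
    rw [Nat.mem_primesLE] at hp
    unfold oddPrimes
    simp only [Finset.mem_insert, Finset.mem_filter, Finset.mem_Icc]
    have := hp.2.two_le
    rcases this.lt_or_eq with h | h
    · exact Or.inr ⟨⟨h, hp.1⟩, hp.2⟩
    · exact Or.inl h.symm
  exact (Finset.card_le_card this).trans (Finset.card_insert_le _ _)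

theorem card_oddPrimes_ge (Y : ℕ) (hY : 3 ≤ Y) :
    (1 / 20 : ℝ) * Y / Real.log Y ≤ ((oddPrimes Y).card : ℝ) := by
  have h1 := primeCounting_ge Y (by omega)
  have h2 : (Nat.primeCounting Y : ℝ) ≤ ((oddPrimes Y).card : ℝ) + 1 := by
    exact_mod_cast card_oddPrimes_add_one Y
  have h3 : (2 : ℝ) ≤ Nat.primeCounting Y := by
    have : 2 ≤ Nat.primeCounting Y := by
      calc 2 = Nat.primeCounting 3 := by decide
        _ ≤ Nat.primeCounting Y := Nat.monotone_primeCounting hY
    exact_mod_cast this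
  have h4 : (1 / 20 : ℝ) * Y / Real.log Y = ((1 / 10 : ℝ) * Y / Real.log Y) / 2 := by ring
  rw [h4]
  linarith

/-- The singular series is bounded on average over the differences of the odd primes up to `Y`. -/
theorem diffSum_oddPrimes_le : ∃ K : ℝ, 1 ≤ K ∧ ∀ Y : ℕ, 3 ≤ Y →
    diffSum (oddPrimes Y) ≤ K * ((oddPrimes Y).card : ℝ) ^ 2 := by
  classical
  obtain ⟨CA, hCA, hA⟩ := Pool.Agent.Lib.Sieve.pair_sieve
  refine ⟨max 1 (400 * (CA * Real.exp 6)), le_max_left _ _, fun Y hY => ?_⟩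
  set Q := oddPrimes Y with hQ
  have hY3 : (3 : ℝ) ≤ Y := by exact_mod_cast hY
  have hlog : 0 < Real.log Y := Real.log_pos (by linarith)
  set f : ℕ → ℝ := fun h => (h : ℝ) / (Nat.totient h : ℝ) with hf
  have hf0 : ∀ h, 0 ≤ f h := fun h => by positivity
  have hQmem : ∀ q ∈ Q, 3 ≤ q ∧ q ≤ Y ∧ q.Prime := by
    intro q hq
    have h1 := Finset.mem_filter.mp hq
    have h2 := Finset.mem_Icc.mp h1.1
    exact ⟨h2.1, h2.2, h1.2⟩
  -- reorganise by the difference
  have h1 : diffSum Q = ∑ h ∈ Finset.Icc 1 Y, f h * ((Q.filter (fun q => q + h ∈ Q)).card : ℝ) := by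
    have e1 : diffSum Q = ∑ q ∈ Q, ∑ h ∈ Finset.Icc 1 Y, if q + h ∈ Q then f h else 0 := by
      unfold diffSum
      refine Finset.sum_congr rfl fun q hq => ?_
      rw [← Finset.sum_filter]
      refine Finset.sum_bij' (fun q' _ => q' - q) (fun h _ => q + h) ?_ ?_ ?_ ?_ ?_
      · intro q' hq'
        have h2 := Finset.mem_filter.mp hq'
        have h3 := hQmem q' h2.1
        have h4 := hQmem q hq
        rw [Finset.mem_filter, Finset.mem_Icc]
        refine ⟨by omega, ?_⟩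
        have : q + (q' - q) = q' := by omega
        rw [this]; exact h2.1
      · intro h hh
        have h2 := Finset.mem_filter.mp hh
        have h3 := Finset.mem_Icc.mp h2.1
        rw [Finset.mem_filter]
        exact ⟨h2.2, by omega⟩
      · intro q' hq'
        have h2 := Finset.mem_filter.mp hq'
        show q + (q' - q) = q'
        omega
      · intro h _
        show q + h - q = h
        omega
      · intro q' hq'
        rfl
    rw [e1, Finset.sum_comm]
    refine Finset.sum_congr rfl fun h _ => ?_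
    rw [← Finset.sum_filter, Finset.sum_const, nsmul_eq_mul, mul_comm]
  have h2 : ∀ h ∈ Finset.Icc 1 Y, f h * ((Q.filter (fun q => q + h ∈ Q)).card : ℝ) ≤
      (CA * Y / (Real.log Y) ^ 2) * (f h) ^ 2 := by
    intro h hh
    have hh' := Finset.mem_Icc.mp hh
    have h3 := hA Y h (by omega) hh'.1
    have h4 : ((Q.filter (fun q => q + h ∈ Q)).card : ℝ) ≤
        (((Finset.Icc 1 Y).filter (fun p => p.Prime ∧ (p + h).Prime)).card : ℝ) := by
      have : (Q.filter (fun q => q + h ∈ Q)).card ≤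
          ((Finset.Icc 1 Y).filter (fun p => p.Prime ∧ (p + h).Prime)).card := by
        apply Finset.card_le_card
        intro q hq
        have h5 := Finset.mem_filter.mp hq
        have h6 := hQmem q h5.1
        have h7 := hQmem _ h5.2
        rw [Finset.mem_filter, Finset.mem_Icc]
        exact ⟨by omega, h6.2.2, h7.2.2⟩
      exact_mod_cast this
    calc f h * ((Q.filter (fun q => q + h ∈ Q)).card : ℝ)
        ≤ f h * (CA * (f h) * (Y : ℝ) / (Real.log Y) ^ 2) :=
          mul_le_mul_of_nonneg_left (h4.trans h3) (hf0 h)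
      _ = (CA * Y / (Real.log Y) ^ 2) * (f h) ^ 2 := by ring
  have h3 : diffSum Q ≤ (CA * Y / (Real.log Y) ^ 2) * (Real.exp 6 * Y) := by
    rw [h1]
    refine (Finset.sum_le_sum h2).trans ?_
    rw [← Finset.mul_sum]
    exact mul_le_mul_of_nonneg_left (sum_sq_div_totient_le Y) (by positivity)
  have h4 := card_oddPrimes_ge Y hY
  have h5 : ((1 / 20 : ℝ) * Y / Real.log Y) ^ 2 ≤ ((oddPrimes Y).card : ℝ) ^ 2 :=
    pow_le_pow_left₀ (by positivity) h4 2
  calc diffSum Q ≤ (CA * Y / (Real.log Y) ^ 2) * (Real.exp 6 * Y) := h3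
    _ = (400 * (CA * Real.exp 6)) * ((1 / 20 : ℝ) * Y / Real.log Y) ^ 2 := by
        field_simp
        ring
    _ ≤ (400 * (CA * Real.exp 6)) * ((oddPrimes Y).card : ℝ) ^ 2 :=
        mul_le_mul_of_nonneg_left h5 (by positivity)
    _ ≤ max 1 (400 * (CA * Real.exp 6)) * ((oddPrimes Y).card : ℝ) ^ 2 :=
        mul_le_mul_of_nonneg_right (le_max_right _ _) (by positivity)

end Pool.Agent.Lib.MP_7b7e48_nt
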