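import Mathlib
import Pool.Agent.Lib.Sieve.PairSieve
import Pool.Agent.Lib.MP_5d7b92_nt.Assembly
import Pool.Agent.Lib.MP_5d7b92_nt.Count
import Pool.Agent.Lib.MP_7b7e48_nt.SquareMean

/-!
# Primes symmetric about an integer, close to it: moments and assembly
-/

open Finset

namespace Pool.Agent.Lib.MP_7b7e48_nt

open Pool.Agent.Lib.MP_5d7b92_nt (paley_zygmund primeCounting_ge primeCounting_le)

/-- The number of `k ≤ K` with `n - k` and `n + k` prime. -/
noncomputable def balRep (K n : ℕ) : ℕ :=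
  ((Finset.Icc 1 K).filter (fun k => (n - k).Prime ∧ (n + k).Prime)).card

/-- The number of `n ≤ X` with `n - k`, `n + k`, `n - k'`, `n + k'` all prime. -/
noncomputable def quadCount (X k k' : ℕ) : ℕ :=
  ((Finset.Icc 1 X).filter (fun n => ((n - k).Prime ∧ (n + k).Prime) ∧
    ((n - k').Prime ∧ (n + k').Prime))).card

/-- Pairs `p < q ≤ p + 2K` of odd primes up to `X`. -/
noncomputable def closePairs (X K : ℕ) : Finset (ℕ × ℕ) :=
  ((oddPrimes X) ×ˢ (oddPrimes X)).filter (fun x => x.1 < x.2 ∧ x.2 ≤ x.1 + 2 * K)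

theorem card_sq_eq (s : Finset ℕ) :
    s.card ^ 2 = s.card + 2 * ((s ×ˢ s).filter (fun x => x.1 < x.2)).card := by
  classical
  have h1 : (s ×ˢ s) = (s ×ˢ s).filter (fun x => x.1 = x.2) ∪
      ((s ×ˢ s).filter (fun x => x.1 < x.2) ∪ (s ×ˢ s).filter (fun x => x.2 < x.1)) := by
    ext x
    simp only [mem_union, mem_filter]
    have := lt_trichotomy x.1 x.2
    tauto
  have h2 : ((s ×ˢ s).filter (fun x => x.1 = x.2)).card = s.card := by
    symm
    refine Finset.card_bij (fun a _ => (a, a)) ?_ ?_ ?_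
    · intro a ha; simp [ha]
    · intro a _ b _ h; exact (Prod.mk.inj h).1
    · rintro ⟨a, b⟩ h
      simp only [mem_filter, mem_product] at h
      obtain ⟨⟨h3, _⟩, h4⟩ := h
      subst h4
      exact ⟨a, h3, rfl⟩
  have h3 : ((s ×ˢ s).filter (fun x => x.2 < x.1)).card =
      ((s ×ˢ s).filter (fun x => x.1 < x.2)).card := by
    refine Finset.card_bij (fun a _ => (a.2, a.1)) ?_ ?_ ?_
    · rintro ⟨a, b⟩ h; simp only [mem_filter, mem_product] at h ⊢; tauto
    · rintro ⟨a, b⟩ _ ⟨c, d⟩ _ h; simp only [Prod.mk.injEq] at h ⊢; tauto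
    · rintro ⟨a, b⟩ h
      simp only [mem_filter, mem_product] at h
      exact ⟨(b, a), by simp only [mem_filter, mem_product]; tauto, rfl⟩
  have h4 : Disjoint ((s ×ˢ s).filter (fun x => x.1 < x.2))
      ((s ×ˢ s).filter (fun x => x.2 < x.1)) := by
    rw [Finset.disjoint_left]
    intro x hx hy
    simp only [mem_filter] at hx hy
    omega
  have h5 : Disjoint ((s ×ˢ s).filter (fun x => x.1 = x.2))
      ((s ×ˢ s).filter (fun x => x.1 < x.2) ∪ (s ×ˢ s).filter (fun x => x.2 < x.1)) := by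
    rw [Finset.disjoint_left]
    intro x hx hy
    simp only [mem_filter, mem_union] at hx hy
    omega
  have h6 : (s ×ˢ s).card = s.card + 2 * ((s ×ˢ s).filter (fun x => x.1 < x.2)).card := by
    rw [h1, Finset.card_union_of_disjoint h5, Finset.card_union_of_disjoint h4, h2, h3]
    rw [← h1]
    ring
  rw [Finset.card_product] at h6
  rw [sq, h6]

theorem blocks (X K : ℕ) (hK : 1 ≤ K) :
    (oddPrimes X).card ^ 2 ≤ (X / (2 * K) + 1) * ((oddPrimes X).card +
      2 * (closePairs X K).card) := by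
  classical
  set S := oddPrimes X with hS
  have hmap : ∀ p ∈ S, p / (2 * K) ∈ range (X / (2 * K) + 1) := by
    intro p hp
    rw [mem_range]
    have : p ≤ X := by
      simp only [hS, oddPrimes, mem_filter] at hp
      exact (mem_Icc.mp hp.1).2
    exact Nat.lt_succ_of_le (Nat.div_le_div_right this)
  have h1 := Finset.card_eq_sum_card_fiberwise (f := fun p => p / (2 * K)) (s := S)
    (t := range (X / (2 * K) + 1)) (fun p hp => by simpa using hmap p hp)
  have h2 : S.card ^ 2 ≤ (X / (2 * K) + 1) *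
      ∑ j ∈ range (X / (2 * K) + 1), (S.filter (fun p => p / (2 * K) = j)).card ^ 2 := by
    rw [h1]
    have := sq_sum_le_card_mul_sum_sq (s := range (X / (2 * K) + 1))
      (f := fun j => (S.filter (fun p => p / (2 * K) = j)).card)
    simpa using this
  refine h2.trans (Nat.mul_le_mul_left _ ?_)
  have h3 : ∀ j, (S.filter (fun p => p / (2 * K) = j)).card ^ 2 =
      (S.filter (fun p => p / (2 * K) = j)).card +
      2 * (((S.filter (fun p => p / (2 * K) = j)) ×ˢ (S.filter (fun p => p / (2 * K) = j))).filter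
        (fun x => x.1 < x.2)).card := fun j => card_sq_eq _
  rw [Finset.sum_congr rfl (fun j _ => h3 j), Finset.sum_add_distrib, ← h1, ← Finset.mul_sum]
  refine Nat.add_le_add_left (Nat.mul_le_mul_left _ ?_) _
  rw [← Finset.card_biUnion]
  · apply Finset.card_le_card
    intro x hx
    simp only [mem_biUnion, mem_filter, mem_product] at hx
    obtain ⟨j, _, ⟨⟨h4, h5⟩, h6, h7⟩, h8⟩ := hx
    simp only [closePairs, mem_filter, mem_product]
    refine ⟨⟨h4, h6⟩, h8, ?_⟩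
    have h9 := Nat.lt_mul_div_succ x.2 (show 0 < 2 * K by omega)
    have h10 := Nat.mul_div_le x.1 (2 * K)
    rw [h7] at h9
    rw [h5] at h10
    have h11 : 2 * K * (j + 1) = 2 * K * j + 2 * K := by ring
    omega
  · intro i _ j _ hij
    rw [Function.onFun, Finset.disjoint_left]
    intro x hx hy
    simp only [mem_filter, mem_product] at hx hy
    exact hij (hx.1.1.2.symm.trans hy.1.1.2)

theorem sum_balRep_eq (X K : ℕ) : ∑ n ∈ Icc 1 X, balRep K n =
    ((Icc 1 X ×ˢ Icc 1 K).filter (fun x => (x.1 - x.2).Prime ∧ (x.1 + x.2).Prime)).card := by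
  classical
  have h1 : ((Icc 1 X ×ˢ Icc 1 K).filter (fun x => (x.1 - x.2).Prime ∧ (x.1 + x.2).Prime)).card
      = ∑ n ∈ Icc 1 X, (((Icc 1 X ×ˢ Icc 1 K).filter
        (fun x => (x.1 - x.2).Prime ∧ (x.1 + x.2).Prime)).filter (fun x => x.1 = n)).card := by
    refine Finset.card_eq_sum_card_fiberwise ?_
    intro x hx
    simp only [coe_filter, mem_product, Set.mem_ofPred_eq] at hx
    exact_mod_cast hx.1.1
  rw [h1]
  refine Finset.sum_congr rfl fun n hn => ?_
  unfold balRep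
  refine Finset.card_bij (fun k _ => (n, k)) ?_ ?_ ?_
  · intro k hk
    simp only [mem_filter, mem_product] at hk ⊢
    exact ⟨⟨⟨hn, hk.1⟩, hk.2⟩, by trivial⟩
  · intro a _ b _ h; exact (Prod.mk.inj h).2
  · rintro ⟨a, b⟩ h
    simp only [mem_filter, mem_product] at h
    obtain ⟨⟨⟨h2, h3⟩, h4⟩, h5⟩ := h
    subst h5
    exact ⟨b, by simp only [mem_filter]; exact ⟨h3, h4⟩, rfl⟩

theorem closePairs_le (X K : ℕ) : (closePairs X K).card ≤ ∑ n ∈ Icc 1 X, balRep K n := by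
  classical
  rw [sum_balRep_eq]
  have hmem : ∀ p ∈ oddPrimes X, p.Prime ∧ p % 2 = 1 ∧ p ≤ X := by
    intro p hp
    simp only [oddPrimes, mem_filter, mem_Icc] at hp
    have h1 : p.Prime := hp.2
    have h2 : p ≠ 2 := by omega
    have h3 : p ≤ X := hp.1.2
    exact ⟨h1, h1.eq_two_or_odd.resolve_left h2, h3⟩
  refine Finset.card_le_card_of_injOn (fun x => ((x.1 + x.2) / 2, (x.2 - x.1) / 2)) ?_ ?_
  · intro x hx
    simp only [closePairs, coe_filter, mem_product, Set.mem_ofPred_eq] at hx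
    obtain ⟨⟨h1, h2⟩, h3, h4⟩ := hx
    obtain ⟨h5, h6, h7⟩ := hmem _ h1
    obtain ⟨h8, h9, h10⟩ := hmem _ h2
    simp only [coe_filter, mem_product, Set.mem_ofPred_eq, mem_Icc]
    have h11 : (x.1 + x.2) / 2 - (x.2 - x.1) / 2 = x.1 := by omega
    have h12 : (x.1 + x.2) / 2 + (x.2 - x.1) / 2 = x.2 := by omega
    rw [h11, h12]
    refine ⟨⟨⟨by omega, by omega⟩, by omega, by omega⟩, h5, h8⟩
  · intro x hx y hy hxy
    simp only [closePairs, coe_filter, mem_product, Set.mem_ofPred_eq] at hx hy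
    obtain ⟨⟨h1, h2⟩, h3, h4⟩ := hx
    obtain ⟨⟨h1', h2'⟩, h3', h4'⟩ := hy
    obtain ⟨h5, h6, h7⟩ := hmem _ h1
    obtain ⟨h8, h9, h10⟩ := hmem _ h2
    obtain ⟨h5', h6', h7'⟩ := hmem _ h1'
    obtain ⟨h8', h9', h10'⟩ := hmem _ h2'
    simp only [Prod.mk.injEq] at hxy
    ext <;> omega

theorem sum_balRep_le (X K : ℕ) : ∑ n ∈ Icc 1 X, balRep K n ≤
    ∑ k ∈ Icc 1 K, ((Icc 1 X).filter (fun p => p.Prime ∧ (p + 2 * k).Prime)).card := by
  classical
  unfold balRep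
  simp only [Finset.card_filter]
  rw [Finset.sum_comm]
  refine Finset.sum_le_sum fun k _ => ?_
  rw [← Finset.card_filter, ← Finset.card_filter]
  refine Finset.card_le_card_of_injOn (fun n => n - k) ?_ ?_
  · intro n hn
    simp only [coe_filter, mem_Icc, Set.mem_ofPred_eq] at hn ⊢
    have := hn.2.1.pos
    refine ⟨⟨by omega, by omega⟩, hn.2.1, ?_⟩
    rw [show n - k + 2 * k = n + k by omega]
    exact hn.2.2
  · intro n hn m hm h
    simp only [coe_filter, mem_Icc, Set.mem_ofPred_eq] at hn hm h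
    have := hn.2.1.pos
    have := hm.2.1.pos
    omega

theorem sum_balRep_sq (X K : ℕ) : ∑ n ∈ Icc 1 X, (balRep K n) ^ 2 =
    ∑ n ∈ Icc 1 X, balRep K n +
      2 * ∑ k ∈ Icc 1 K, ∑ k' ∈ (Icc 1 K).filter (fun k' => k < k'), quadCount X k k' := by
  classical
  have h1 : ∀ n, (balRep K n) ^ 2 = balRep K n + 2 *
      ∑ k ∈ Icc 1 K, ∑ k' ∈ (Icc 1 K).filter (fun k' => k < k'),
        if (((n - k).Prime ∧ (n + k).Prime) ∧ ((n - k').Prime ∧ (n + k').Prime)) then 1 else 0 := by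
    intro n
    unfold balRep
    rw [card_sq_eq]
    congr 2
    have h2 : ∀ k, ∑ k' ∈ (Icc 1 K).filter (fun k' => k < k'),
        (if (((n - k).Prime ∧ (n + k).Prime) ∧ ((n - k').Prime ∧ (n + k').Prime)) then 1 else 0)
        = ∑ k' ∈ Icc 1 K, if (k < k' ∧ (((n - k).Prime ∧ (n + k).Prime) ∧
          ((n - k').Prime ∧ (n + k').Prime))) then 1 else 0 := by
      intro k
      rw [Finset.sum_filter]
      refine Finset.sum_congr rfl fun k' _ => ?_
      by_cases h : k < k' <;> simp [h]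
    rw [Finset.sum_congr rfl (fun k _ => h2 k), ← Finset.sum_product', ← Finset.card_filter]
    congr 1
    ext x
    simp only [mem_filter, mem_product]
    tauto
  rw [Finset.sum_congr rfl (fun n _ => h1 n), Finset.sum_add_distrib, ← Finset.mul_sum]
  congr 2
  rw [Finset.sum_comm]
  refine Finset.sum_congr rfl fun k _ => ?_
  rw [Finset.sum_comm]
  refine Finset.sum_congr rfl fun k' _ => ?_
  unfold quadCount
  rw [Finset.card_filter]

/-- The upper bound for quadruples which the second moment needs: on average over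
`k < k' ≤ K` there are at most `C X / log⁴ X` integers `n ≤ X` with `n ± k`, `n ± k'` all prime. -/
def QuadBound : Prop := ∃ C : ℝ, 0 < C ∧ ∃ X0 : ℕ, ∀ X : ℕ, X0 ≤ X → ∀ K : ℕ, 1 ≤ K → K ≤ X →
  ((∑ k ∈ Icc 1 K, ∑ k' ∈ (Icc 1 K).filter (fun k' => k < k'), quadCount X k k' : ℕ) : ℝ) ≤
    C * X * (K : ℝ) ^ 2 / (Real.log X) ^ 4

/-- The first moment, lower bound. -/
theorem first_moment_lower : ∃ c : ℝ, 0 < c ∧ ∃ C : ℝ, 0 < C ∧ ∃ X0 : ℕ, ∀ X : ℕ, X0 ≤ X →
    ∀ K : ℕ, C * Real.log X ≤ K → K ≤ X →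
    c * X * K / (Real.log X) ^ 2 ≤ ((∑ n ∈ Icc 1 X, balRep K n : ℕ) : ℝ) := by
  refine ⟨1 / 4800, by norm_num, 600, by norm_num, 3, fun X hX K hK1 hK2 => ?_⟩
  have hXr : (3 : ℝ) ≤ X := by exact_mod_cast hX
  have hL : 0 < Real.log X := Real.log_pos (by linarith)
  have hK0 : (0 : ℝ) < K := lt_of_lt_of_le (by positivity) hK1
  have hKN : 1 ≤ K := by exact_mod_cast hK0
  have h1 := blocks X K hKN
  have h2 := closePairs_le X K
  have h3 := card_oddPrimes_ge X hX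
  set s : ℝ := ((oddPrimes X).card : ℝ) with hs
  set T : ℝ := ((∑ n ∈ Icc 1 X, balRep K n : ℕ) : ℝ) with hT
  have h4 : s ^ 2 ≤ ((X / (2 * K) : ℕ) + 1 : ℝ) * (s + 2 * T) := by
    have h5 : (((oddPrimes X).card ^ 2 : ℕ) : ℝ) ≤ (((X / (2 * K) + 1) * ((oddPrimes X).card +
      2 * (closePairs X K).card) : ℕ) : ℝ) := by exact_mod_cast h1
    push_cast at h5
    have h6 : ((closePairs X K).card : ℝ) ≤ T := by rw [hT]; exact Nat.cast_le.mpr h2
    calc s ^ 2 ≤ _ := h5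
      _ ≤ _ := by gcongr
  have h5 : ((X / (2 * K) : ℕ) : ℝ) ≤ X / (2 * K) := by
    have := @Nat.cast_div_le ℝ _ _ _ X (2 * K)
    push_cast at this
    exact this
  have h6 : ((X / (2 * K) : ℕ) + 1 : ℝ) ≤ 3 / 2 * (X / K) := by
    have : (1 : ℝ) ≤ X / K := by
      rw [one_le_div hK0]; exact_mod_cast hK2
    have h7 : (X : ℝ) / (2 * K) = 1 / 2 * (X / K) := by field_simp
    linarith
  have hs0 : 0 < s := lt_of_lt_of_le (by positivity) h3
  have hT0 : 0 ≤ T := by positivity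
  have h7 : s ^ 2 ≤ 3 / 2 * (X / K) * (s + 2 * T) := by
    refine h4.trans ?_
    gcongr
  -- s² K / X ≥ ...
  have h8 : s ^ 2 * K / X ≤ 3 / 2 * (s + 2 * T) := by
    rw [div_le_iff₀ (by linarith)]
    have h9 : s ^ 2 * K ≤ 3 / 2 * (X / K) * (s + 2 * T) * K := by gcongr
    have h10 : 3 / 2 * ((X : ℝ) / K) * (s + 2 * T) * K = 3 / 2 * (s + 2 * T) * X := by
      field_simp
    linarith
  -- s K / X ≥ 30
  have h9 : 3 * s ≤ s ^ 2 * K / X := by
    have h10 : (3 : ℝ) ≤ s * K / X := by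
      rw [le_div_iff₀ (by linarith)]
      have h11 : (1 / 20 * (X : ℝ) / Real.log X) * (600 * Real.log X) ≤ s * K := by gcongr
      have h12 : (1 / 20 * (X : ℝ) / Real.log X) * (600 * Real.log X) = 30 * X := by
        field_simp; norm_num
      linarith
    calc 3 * s ≤ (s * K / X) * s := by gcongr
      _ = s ^ 2 * K / X := by ring
  have h10 : s ^ 2 * K / X ≤ 6 * T := by linarith
  have h11 : (1 / 20 * (X : ℝ) / Real.log X) ^ 2 * K / X ≤ s ^ 2 * K / X := by gcongr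
  have h12 : (1 / 20 * (X : ℝ) / Real.log X) ^ 2 * K / X = 6 * (1 / 2400 * X * K / (Real.log X) ^ 2) := by
    field_simp; norm_num
  have h13 : 1 / 4800 * (X : ℝ) * K / (Real.log X) ^ 2 ≤ 1 / 2400 * X * K / (Real.log X) ^ 2 := by
    gcongr; norm_num
  linarith

/-- The first moment, upper bound. -/
theorem first_moment_upper : ∃ C : ℝ, 0 < C ∧ ∀ X : ℕ, 2 ≤ X → ∀ K : ℕ,
    ((∑ n ∈ Icc 1 X, balRep K n : ℕ) : ℝ) ≤ C * X * K / (Real.log X) ^ 2 := by
  obtain ⟨CA, hCA, hA⟩ := Pool.Agent.Lib.Sieve.pair_sieve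
  refine ⟨2 * CA * Real.exp 6, by positivity, fun X hX K => ?_⟩
  have hXr : (2 : ℝ) ≤ X := by exact_mod_cast hX
  have hL : 0 < Real.log X := Real.log_pos (by linarith)
  have h1 : ((∑ n ∈ Icc 1 X, balRep K n : ℕ) : ℝ) ≤ ∑ k ∈ Icc 1 K,
      CA * (((2 * k : ℕ) : ℝ) / (Nat.totient (2 * k) : ℝ)) * (X : ℝ) / (Real.log X) ^ 2 := by
    refine (Nat.cast_le.mpr (sum_balRep_le X K)).trans ?_
    push_cast
    refine Finset.sum_le_sum fun k hk => ?_
    have := hA X (2 * k) hX (by have := (mem_Icc.mp hk).1; omega)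
    push_cast at this
    exact this
  refine h1.trans ?_
  have h2 : ∑ k ∈ Icc 1 K, ((2 * k : ℕ) : ℝ) / (Nat.totient (2 * k) : ℝ) ≤
      ∑ h ∈ Icc 1 (2 * K), (h : ℝ) / (Nat.totient h : ℝ) := by
    rw [← Finset.sum_image (f := fun h : ℕ => (h : ℝ) / (Nat.totient h : ℝ))
      (g := fun k => 2 * k) (s := Icc 1 K) (fun a _ b _ h => by simpa using h)]
    refine Finset.sum_le_sum_of_subset_of_nonneg ?_ (fun _ _ _ => by positivity)
    intro h hh
    simp only [mem_image, mem_Icc] at hh ⊢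
    omega
  have h3 : ∑ h ∈ Icc 1 (2 * K), (h : ℝ) / (Nat.totient h : ℝ) ≤
      ∑ h ∈ Icc 1 (2 * K), ((h : ℝ) / (Nat.totient h : ℝ)) ^ 2 := by
    refine Finset.sum_le_sum fun h hh => ?_
    have := Pool.Agent.Lib.Sieve.one_le_div_totient h (mem_Icc.mp hh).1
    nlinarith
  have h4 := sum_sq_div_totient_le (2 * K)
  have h5 : ∑ k ∈ Icc 1 K, CA * (((2 * k : ℕ) : ℝ) / (Nat.totient (2 * k) : ℝ)) * (X : ℝ) /
      (Real.log X) ^ 2 = (∑ k ∈ Icc 1 K, ((2 * k : ℕ) : ℝ) / (Nat.totient (2 * k) : ℝ)) *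
        (CA * X / (Real.log X) ^ 2) := by
    rw [Finset.sum_mul]
    refine Finset.sum_congr rfl fun k _ => ?_
    ring
  rw [h5]
  calc _ ≤ (Real.exp 6 * ((2 * K : ℕ) : ℝ)) * (CA * X / (Real.log X) ^ 2) := by
        gcongr
        exact (h2.trans h3).trans h4
    _ = _ := by push_cast; ring

/-- **Primes symmetric about an integer and close to it.** Conditional on the quadruple bound. -/
theorem balanced_of_quadBound (hquad : QuadBound) :
    ∃ c : ℝ, 0 < c ∧ ∃ C : ℝ, 0 < C ∧ ∃ X0 : ℕ, ∀ X : ℕ, X0 ≤ X →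
    ∀ K : ℕ, C * Real.log X ≤ K → K ≤ X →
    c * X * min 1 (K / (Real.log X) ^ 2) ≤ (((Icc 1 X).filter (fun n =>
      c * max 1 (K / (Real.log X) ^ 2) ≤
        (((Icc 1 K).filter (fun k => (n - k).Prime ∧ (n + k).Prime)).card : ℝ))).card : ℝ) := by
  obtain ⟨c1, hc1, C1, hC1, X1, hlow⟩ := first_moment_lower
  obtain ⟨C2, hC2, hup⟩ := first_moment_upper
  obtain ⟨C3, hC3, X3, hq⟩ := hquad
  set D : ℝ := C2 + 2 * C3 with hD
  have hD0 : 0 < D := by positivity
  set c : ℝ := min 1 (min (c1 / 2) (c1 ^ 2 / (4 * D))) with hc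
  have hc0 : 0 < c := by positivity
  have hcle1 : c ≤ 1 := min_le_left _ _
  have hcle2 : c ≤ c1 / 2 := (min_le_right _ _).trans (min_le_left _ _)
  have hcle3 : c ≤ c1 ^ 2 / (4 * D) := (min_le_right _ _).trans (min_le_right _ _)
  refine ⟨c, hc0, C1, hC1, max X1 (max X3 3), fun X hX K hK1 hK2 => ?_⟩
  have hXX1 : X1 ≤ X := (le_max_left _ _).trans hX
  have hXX3 : X3 ≤ X := ((le_max_left _ _).trans (le_max_right _ _)).trans hX
  have hX3 : 3 ≤ X := ((le_max_right _ _).trans (le_max_right _ _)).trans hX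
  have hXr : (3 : ℝ) ≤ X := by exact_mod_cast hX3
  have hX0 : (0 : ℝ) < X := by linarith
  set L := Real.log (X : ℝ) with hLdef
  have hL : 0 < L := Real.log_pos (by linarith)
  have hK0 : (0 : ℝ) < K := lt_of_lt_of_le (by positivity) hK1
  have hKN : 1 ≤ K := by exact_mod_cast hK0
  have hS1 := hlow X hXX1 K hK1 hK2
  have hS1' := hup X (by omega) K
  have hS2 := hq X hXX3 K hKN hK2
  set S : ℝ := ((∑ n ∈ Icc 1 X, balRep K n : ℕ) : ℝ) with hS
  have hsq : ∑ n ∈ Icc 1 X, ((balRep K n : ℕ) : ℝ) ^ 2 ≤ C2 * X * K / L ^ 2 +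
      2 * (C3 * X * (K : ℝ) ^ 2 / L ^ 4) := by
    have h1 : ∑ n ∈ Icc 1 X, ((balRep K n : ℕ) : ℝ) ^ 2 =
        S + 2 * ((∑ k ∈ Icc 1 K, ∑ k' ∈ (Icc 1 K).filter (fun k' => k < k'),
          quadCount X k k' : ℕ) : ℝ) := by
      have := congrArg (fun t : ℕ => (t : ℝ)) (sum_balRep_sq X K)
      push_cast at this ⊢
      rw [this, hS]
      push_cast
      ring
    rw [h1]
    linarith
  have hSpos : 0 < S := lt_of_lt_of_le (by positivity) hS1
  have hSsum : ∑ n ∈ Icc 1 X, ((balRep K n : ℕ) : ℝ) = S := by rw [hS]; push_cast; rfl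
  -- the two regimes
  have key : ∀ θ : ℝ, 2 * (θ * X) ≤ S → S ^ 2 ≤ 4 * (((Icc 1 X).filter (fun n =>
      θ ≤ ((balRep K n : ℕ) : ℝ))).card : ℝ) * (C2 * X * K / L ^ 2 +
      2 * (C3 * X * (K : ℝ) ^ 2 / L ^ 4)) := by
    intro θ hθ
    have h1 := paley_zygmund (Icc 1 X) (fun n => ((balRep K n : ℕ) : ℝ))
      (fun _ _ => by positivity) θ (by rw [hSsum]; simpa using hθ)
    rw [hSsum] at h1
    refine h1.trans ?_
    gcongr
  have hcast : ∀ n, (((Icc 1 K).filter (fun k => (n - k).Prime ∧ (n + k).Prime)).card : ℝ) =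
      ((balRep K n : ℕ) : ℝ) := fun n => rfl
  simp only [hcast]
  rcases le_total ((K : ℝ)) (L ^ 2) with hcase | hcase
  · -- K ≤ L²
    have hr : (K : ℝ) / L ^ 2 ≤ 1 := by rw [div_le_one (by positivity)]; exact hcase
    rw [min_eq_right hr, max_eq_left hr]
    have hsub : ((Icc 1 X).filter (fun n => c * ((K : ℝ) / L ^ 2) ≤ ((balRep K n : ℕ) : ℝ))).card ≤
        ((Icc 1 X).filter (fun n => c * 1 ≤ ((balRep K n : ℕ) : ℝ))).card := by
      apply Finset.card_le_card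
      intro n hn
      rw [mem_filter] at hn ⊢
      refine ⟨hn.1, ?_⟩
      have h1 : (0 : ℝ) < ((balRep K n : ℕ) : ℝ) := lt_of_lt_of_le (by positivity) hn.2
      have h2 : (1 : ℝ) ≤ ((balRep K n : ℕ) : ℝ) := by
        have : 1 ≤ balRep K n := by exact_mod_cast h1
        exact_mod_cast this
      linarith
    have hθ : 2 * (c * ((K : ℝ) / L ^ 2) * X) ≤ S := by
      refine le_trans ?_ hS1
      calc 2 * (c * ((K : ℝ) / L ^ 2) * X) ≤ 2 * (c1 / 2 * ((K : ℝ) / L ^ 2) * X) := by gcongr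
        _ = c1 * X * K / L ^ 2 := by ring
    have h1 := key _ hθ
    have h2 : C2 * X * K / L ^ 2 + 2 * (C3 * X * (K : ℝ) ^ 2 / L ^ 4) ≤ D * X * K / L ^ 2 := by
      have h3 : C3 * X * (K : ℝ) ^ 2 / L ^ 4 ≤ C3 * X * K / L ^ 2 := by
        have : C3 * X * (K : ℝ) ^ 2 / L ^ 4 = (C3 * X * K / L ^ 2) * (K / L ^ 2) := by
          field_simp
        rw [this]
        exact mul_le_of_le_one_right (by positivity) hr
      calc _ ≤ C2 * X * K / L ^ 2 + 2 * (C3 * X * K / L ^ 2) := by gcongr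
        _ = _ := by rw [hD]; ring
    have h3 : (c1 * X * K / L ^ 2) ^ 2 ≤ 4 * (((Icc 1 X).filter (fun n =>
      c * 1 ≤ ((balRep K n : ℕ) : ℝ))).card : ℝ) * (D * X * K / L ^ 2) := by
      calc (c1 * X * K / L ^ 2) ^ 2 ≤ S ^ 2 := by gcongr
        _ ≤ _ := h1
        _ ≤ _ := by
          gcongr
    have h4 : c1 ^ 2 / (4 * D) * X * (K / L ^ 2) ≤ (((Icc 1 X).filter (fun n =>
      c * 1 ≤ ((balRep K n : ℕ) : ℝ))).card : ℝ) := by
      have hpos : 0 < 4 * (D * X * K / L ^ 2) := by positivity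
      have h5 : (c1 ^ 2 / (4 * D) * X * (K / L ^ 2)) * (4 * (D * X * K / L ^ 2)) =
          (c1 * X * K / L ^ 2) ^ 2 := by field_simp
      have h6 : (c1 ^ 2 / (4 * D) * X * (K / L ^ 2)) * (4 * (D * X * K / L ^ 2)) ≤
          (((Icc 1 X).filter (fun n => c * 1 ≤ ((balRep K n : ℕ) : ℝ))).card : ℝ) *
            (4 * (D * X * K / L ^ 2)) := by
        rw [h5]; linarith
      exact le_of_mul_le_mul_right h6 hpos
    refine le_trans ?_ h4
    gcongr
  · -- K ≥ L²
    have hr : 1 ≤ (K : ℝ) / L ^ 2 := by rw [one_le_div (by positivity)]; exact hcase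
    rw [min_eq_left hr, max_eq_right hr, mul_one]
    have hθ : 2 * (c * ((K : ℝ) / L ^ 2) * X) ≤ S := by
      refine le_trans ?_ hS1
      calc 2 * (c * ((K : ℝ) / L ^ 2) * X) ≤ 2 * (c1 / 2 * ((K : ℝ) / L ^ 2) * X) := by gcongr
        _ = c1 * X * K / L ^ 2 := by ring
    have h1 := key _ hθ
    have h2 : C2 * X * K / L ^ 2 + 2 * (C3 * X * (K : ℝ) ^ 2 / L ^ 4) ≤
        D * X * (K : ℝ) ^ 2 / L ^ 4 := by
      have h3 : C2 * X * K / L ^ 2 ≤ C2 * X * (K : ℝ) ^ 2 / L ^ 4 := by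
        have : C2 * X * (K : ℝ) ^ 2 / L ^ 4 = (C2 * X * K / L ^ 2) * (K / L ^ 2) := by
          field_simp
        rw [this]
        exact le_mul_of_one_le_right (by positivity) hr
      calc _ ≤ C2 * X * (K : ℝ) ^ 2 / L ^ 4 + 2 * (C3 * X * (K : ℝ) ^ 2 / L ^ 4) := by gcongr
        _ = _ := by rw [hD]; ring
    have h3 : (c1 * X * K / L ^ 2) ^ 2 ≤ 4 * (((Icc 1 X).filter (fun n =>
      c * ((K : ℝ) / L ^ 2) ≤ ((balRep K n : ℕ) : ℝ))).card : ℝ) *
        (D * X * (K : ℝ) ^ 2 / L ^ 4) := by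
      calc (c1 * X * K / L ^ 2) ^ 2 ≤ S ^ 2 := by gcongr
        _ ≤ _ := h1
        _ ≤ _ := by gcongr
    have h4 : c1 ^ 2 / (4 * D) * X ≤ (((Icc 1 X).filter (fun n =>
      c * ((K : ℝ) / L ^ 2) ≤ ((balRep K n : ℕ) : ℝ))).card : ℝ) := by
      have hpos : 0 < 4 * (D * X * (K : ℝ) ^ 2 / L ^ 4) := by positivity
      have h5 : (c1 ^ 2 / (4 * D) * X) * (4 * (D * X * (K : ℝ) ^ 2 / L ^ 4)) =
          (c1 * X * K / L ^ 2) ^ 2 := by field_simp
      have h6 : (c1 ^ 2 / (4 * D) * X) * (4 * (D * X * (K : ℝ) ^ 2 / L ^ 4)) ≤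
          (((Icc 1 X).filter (fun n => c * ((K : ℝ) / L ^ 2) ≤ ((balRep K n : ℕ) : ℝ))).card : ℝ) *
            (4 * (D * X * (K : ℝ) ^ 2 / L ^ 4)) := by
        rw [h5]; linarith
      exact le_of_mul_le_mul_right h6 hpos
    refine le_trans ?_ h4
    gcongr

end Pool.Agent.Lib.MP_7b7e48_nt
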