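import Mathlib
import Pool.Agent.Lib.MP_7b7e48_nt.Balanced
import Pool.Agent.Lib.MP_092512_nt.PairSums

/-!
# The average over pairs `k < k' ≤ K` of the number of quadruples of primes `n ± k`, `n ± k'`

`quadBound_of_tuple` deduces `QuadBound` from an upper bound sieve estimate for prime
`4`-tuples with the singular series bounded by `(M / φ(M))⁴`.
-/

open Finset

namespace Pool.Agent.Lib.MP_7b7e48_nt

/-- An upper bound sieve estimate for prime `k`-tuples. -/
def TupleBound (k : ℕ) : Prop := ∃ C : ℝ, 0 < C ∧ ∀ (N : ℕ) (h : Fin k → ℕ), 2 ≤ N →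
  Function.Injective h → ∀ M : ℕ, M ≠ 0 → (∀ p : ℕ, p.Prime → p ≤ k → p ∣ M) →
  (∀ i j, i ≠ j → ∀ p : ℕ, p.Prime → (p : ℤ) ∣ (h i : ℤ) - h j → p ∣ M) →
  (((Finset.Icc 1 N).filter (fun n => ∀ i, (n + h i).Prime)).card : ℝ) ≤
    C * ((M : ℝ) / (Nat.totient M : ℝ)) ^ k * N / (Real.log N) ^ k

/-- `n / φ(n)`. -/
noncomputable def nf (n : ℕ) : ℝ := (n : ℝ) / (Nat.totient n : ℝ)

theorem nf_nonneg (n : ℕ) : 0 ≤ nf n := by unfold nf; positivity

theorem nf_mul_le {a b : ℕ} (ha : 0 < a) (hb : 0 < b) : nf (a * b) ≤ nf a * nf b := by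
  unfold nf
  rw [div_mul_div_comm, Nat.cast_mul]
  have h := Nat.totient_super_multiplicative a b
  have h1 : (0 : ℝ) < Nat.totient a := by exact_mod_cast Nat.totient_pos.mpr ha
  have h2 : (0 : ℝ) < Nat.totient b := by exact_mod_cast Nat.totient_pos.mpr hb
  apply div_le_div_of_nonneg_left (by positivity) (by positivity)
  exact_mod_cast h

theorem nf_six : nf 6 = 3 := by
  unfold nf
  have : Nat.totient 6 = 2 := by decide
  rw [this]; norm_num

theorem nf_eq_prod (n : ℕ) (hn : n ≠ 0) :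
    nf n = ∏ p ∈ n.primeFactors with 0 < p, Pool.Agent.Lib.MP_092512_nt.yf p := by
  unfold nf
  rw [Pool.Agent.Lib.Sieve.div_totient_eq_prod_inv n hn]
  have : n.primeFactors.filter (fun p => 0 < p) = n.primeFactors := by
    apply Finset.filter_true_of_mem
    intro p hp
    exact (Nat.prime_of_mem_primeFactors hp).pos
  rw [this]
  rfl

theorem sum_nf_pow_le (k X : ℕ) :
    ∑ n ∈ Icc 1 X, (nf n) ^ k ≤ X * Real.exp (4 * 2 ^ k) := by
  have h := Pool.Agent.Lib.MP_092512_nt.sum_yf_pow_le k 0 X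
  simp only [Nat.cast_zero, zero_add, div_one] at h
  refine le_trans (le_of_eq ?_) h
  refine Finset.sum_congr rfl fun n hn => ?_
  rw [nf_eq_prod n (by have := (Finset.mem_Icc.mp hn).1; omega)]

/-- AM-GM for four factors. -/
theorem prod_pow_four_le (a b c d : ℝ) (ha : 0 ≤ a) (hb : 0 ≤ b) (hc : 0 ≤ c) (hd : 0 ≤ d) :
    (a * b * c * d) ^ 4 ≤ a ^ 16 + b ^ 16 + c ^ 16 + d ^ 16 := by
  have h1 : (a * b * c * d) ^ 4 = ((a ^ 4 * b ^ 4) * (c ^ 4 * d ^ 4)) := by ring
  have h2 : a ^ 4 * b ^ 4 ≤ (a ^ 8 + b ^ 8) / 2 := by nlinarith [sq_nonneg (a ^ 4 - b ^ 4)]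
  have h3 : c ^ 4 * d ^ 4 ≤ (c ^ 8 + d ^ 8) / 2 := by nlinarith [sq_nonneg (c ^ 4 - d ^ 4)]
  have h4 : (a ^ 4 * b ^ 4) * (c ^ 4 * d ^ 4) ≤ ((a ^ 8 + b ^ 8) / 2) * ((c ^ 8 + d ^ 8) / 2) :=
    mul_le_mul h2 h3 (by positivity) (by positivity)
  rw [h1]
  refine h4.trans ?_
  nlinarith [sq_nonneg (a ^ 8 - b ^ 8), sq_nonneg (c ^ 8 - d ^ 8),
    sq_nonneg (a ^ 8 + b ^ 8 - c ^ 8 - d ^ 8), pow_nonneg ha 16, pow_nonneg hb 16,
    pow_nonneg hc 16, pow_nonneg hd 16]

/-- The shifts of the quadruple. -/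
def quadShift (k k' : ℕ) : Fin 4 → ℕ := ![0, k' - k, k' + k, 2 * k']

theorem quadShift_injective {k k' : ℕ} (hk : 1 ≤ k) (hkk : k < k') :
    Function.Injective (quadShift k k') := by
  intro i j hij
  fin_cases i <;> fin_cases j <;> simp [quadShift] at hij ⊢ <;> omega

theorem dvd_of_dvd_shift {k k' : ℕ} (hkk : k < k') (i j : Fin 4) (hij : i ≠ j)
    (p : ℕ) (hp : p.Prime) (hd : (p : ℤ) ∣ (quadShift k k' i : ℤ) - quadShift k k' j) :
    p ∣ 6 * k * k' * (k + k') * (k' - k) := by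
  obtain ⟨e, rfl⟩ : ∃ e, k' = k + e := ⟨k' - k, by omega⟩
  have he : k + e - k = e := by omega
  rw [he]
  have hp' : Prime (p : ℤ) := Nat.prime_iff_prime_int.mp hp
  have key : (p : ℤ) ∣ ((6 * k * (k + e) * (k + (k + e)) * e : ℕ) : ℤ) := by
    push_cast
    fin_cases i <;> fin_cases j <;>
      simp only [quadShift, he, Matrix.cons_val_zero, Matrix.cons_val_one, Matrix.cons_val,
        Fin.zero_eta, Fin.mk_one, Fin.reduceFinMk, ne_eq, not_true_eq_false, Nat.cast_zero,
        Nat.cast_add, Nat.cast_mul, Nat.cast_ofNat] at hd hij ⊢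
    all_goals
      have h2 := fun (x y : ℤ) (h : (p : ℤ) ∣ x) (hxy : x ∣ y) => h.trans hxy
      refine h2 _ _ hd ?_
      first
      | (refine ⟨-(6 * k * (k + e) * (k + (k + e))), ?_⟩; ring1)
      | (refine ⟨(6 * k * (k + e) * (k + (k + e))), ?_⟩; ring1)
      | (refine ⟨-(6 * k * (k + e) * e), ?_⟩; ring1)
      | (refine ⟨(6 * k * (k + e) * e), ?_⟩; ring1)
      | (refine ⟨-(3 * k * (k + (k + e)) * e), ?_⟩; ring1)
      | (refine ⟨(3 * k * (k + (k + e)) * e), ?_⟩; ring1)
      | (refine ⟨-(3 * (k + e) * (k + (k + e)) * e), ?_⟩; ring1)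
      | (refine ⟨(3 * (k + e) * (k + (k + e)) * e), ?_⟩; ring1)
  exact_mod_cast key

theorem quadCount_le {C : ℝ} (hC0 : 0 < C)
    (hC : ∀ (N : ℕ) (h : Fin 4 → ℕ), 2 ≤ N →
      Function.Injective h → ∀ M : ℕ, M ≠ 0 → (∀ p : ℕ, p.Prime → p ≤ 4 → p ∣ M) →
      (∀ i j, i ≠ j → ∀ p : ℕ, p.Prime → (p : ℤ) ∣ (h i : ℤ) - h j → p ∣ M) →
      (((Finset.Icc 1 N).filter (fun n => ∀ i, (n + h i).Prime)).card : ℝ) ≤
        C * ((M : ℝ) / (Nat.totient M : ℝ)) ^ 4 * N / (Real.log N) ^ 4)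
    {X k k' : ℕ} (hX : 2 ≤ X) (hk : 1 ≤ k) (hkk : k < k') :
    (quadCount X k k' : ℝ) ≤ (81 * C * X / (Real.log X) ^ 4) *
      ((nf k) ^ 16 + (nf k') ^ 16 + (nf (k + k')) ^ 16 + (nf (k' - k)) ^ 16) := by
  have h1 : quadCount X k k' ≤
      ((Finset.Icc 1 X).filter (fun n => ∀ i, (n + quadShift k k' i).Prime)).card := by
    unfold quadCount
    apply Finset.card_le_card_of_injOn (fun n => n - k')
    · intro n hn
      simp only [Finset.coe_filter, Finset.mem_Icc, Set.mem_ofPred_eq] at hn ⊢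
      obtain ⟨⟨hn1, hn2⟩, ⟨hp1, hp2⟩, hp3, hp4⟩ := hn
      have := hp3.two_le
      refine ⟨⟨by omega, by omega⟩, ?_⟩
      intro i
      fin_cases i
      · simpa [quadShift] using hp3
      · have : n - k' + (k' - k) = n - k := by omega
        simpa [quadShift, this] using hp1
      · have : n - k' + (k' + k) = n + k := by omega
        simpa [quadShift, this] using hp2
      · have : n - k' + 2 * k' = n + k' := by omega
        simpa [quadShift, this] using hp4
    · intro a ha b hb hab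
      simp only [Finset.coe_filter, Finset.mem_Icc, Set.mem_ofPred_eq] at ha hb
      have := ha.2.2.1.two_le
      have := hb.2.2.1.two_le
      have hab : a - k' = b - k' := hab
      omega
  set M : ℕ := 6 * k * k' * (k + k') * (k' - k) with hM
  have hk'0 : 0 < k' := by omega
  have hs0 : 0 < k + k' := by omega
  have hd0 : 0 < k' - k := by omega
  have hM0 : M ≠ 0 := by
    rw [hM]; positivity
  have h2 := hC X (quadShift k k') hX (quadShift_injective hk hkk) M hM0 ?_ ?_
  · have h3 : nf M ≤ 3 * (nf k * nf k' * nf (k + k') * nf (k' - k)) := by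
      calc nf M ≤ nf (6 * k * k' * (k + k')) * nf (k' - k) := nf_mul_le (by positivity) hd0
        _ ≤ nf (6 * k * k') * nf (k + k') * nf (k' - k) := by
            gcongr
            · exact nf_nonneg _
            · exact nf_mul_le (by positivity) hs0
        _ ≤ nf (6 * k) * nf k' * nf (k + k') * nf (k' - k) := by
            gcongr
            · exact nf_nonneg _
            · exact nf_nonneg _
            · exact nf_mul_le (by positivity) hk'0
        _ ≤ nf 6 * nf k * nf k' * nf (k + k') * nf (k' - k) := by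
            gcongr
            · exact nf_nonneg _
            · exact nf_nonneg _
            · exact nf_nonneg _
            · exact nf_mul_le (by norm_num) hk
        _ = _ := by rw [nf_six]; ring
    have h4 : (nf M) ^ 4 ≤
        81 * ((nf k) ^ 16 + (nf k') ^ 16 + (nf (k + k')) ^ 16 + (nf (k' - k)) ^ 16) := by
      calc (nf M) ^ 4 ≤ (3 * (nf k * nf k' * nf (k + k') * nf (k' - k))) ^ 4 :=
            pow_le_pow_left₀ (nf_nonneg _) h3 4
        _ = 81 * (nf k * nf k' * nf (k + k') * nf (k' - k)) ^ 4 := by ring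
        _ ≤ _ := by
            gcongr
            exact prod_pow_four_le _ _ _ _ (nf_nonneg _) (nf_nonneg _) (nf_nonneg _) (nf_nonneg _)
    have hL : 0 < Real.log X := Real.log_pos (by exact_mod_cast hX)
    calc (quadCount X k k' : ℝ) ≤
          (((Finset.Icc 1 X).filter (fun n => ∀ i, (n + quadShift k k' i).Prime)).card : ℝ) := by
          exact_mod_cast h1
      _ ≤ C * ((M : ℝ) / (Nat.totient M : ℝ)) ^ 4 * X / (Real.log X) ^ 4 := h2
      _ = (C * X / (Real.log X) ^ 4) * (nf M) ^ 4 := by unfold nf; ring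
      _ ≤ (C * X / (Real.log X) ^ 4) *
          (81 * ((nf k) ^ 16 + (nf k') ^ 16 + (nf (k + k')) ^ 16 + (nf (k' - k)) ^ 16)) := by
          gcongr
      _ = _ := by ring
  · intro p hp hp4
    have h6 : p ∣ 6 := by
      have := hp.two_le
      interval_cases p
      · decide
      · decide
      · exact absurd hp (by decide)
    rw [hM]
    exact ((((h6.mul_right k).mul_right k').mul_right (k + k')).mul_right (k' - k))
  · intro i j hij p hp hd
    exact dvd_of_dvd_shift hkk i j hij p hp hd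

/-- The quadruple bound on average, from the sieve bound for prime `4`-tuples. -/
theorem quadBound_of_tuple (ht : TupleBound 4) : QuadBound := by
  obtain ⟨C, hC0, hC⟩ := ht
  set E : ℝ := Real.exp (4 * 2 ^ 16) with hE
  have hE0 : 0 < E := Real.exp_pos _
  refine ⟨24 * (81 * C * E), by positivity, 2, fun X hX K hK hKX => ?_⟩
  have hL : 0 < Real.log X := Real.log_pos (by exact_mod_cast hX)
  set D : ℝ := 81 * C * X / (Real.log X) ^ 4 with hD
  have hD0 : 0 ≤ D := by positivity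
  set F : ℕ → ℝ := fun n => (nf n) ^ 16 with hF
  have hF0 : ∀ n, 0 ≤ F n := fun n => pow_nonneg (nf_nonneg n) 16
  have hFE : ∀ X : ℕ, ∑ n ∈ Icc 1 X, F n ≤ X * E := fun X => sum_nf_pow_le 16 X
  have hbox := Pool.Agent.Lib.MP_092512_nt.sum_box_le F hF0 E hE0.le hFE (K + 1) (K + 1) le_rfl
  push_cast
  calc ∑ k ∈ Icc 1 K, ∑ k' ∈ (Icc 1 K).filter (fun k' => k < k'), (quadCount X k k' : ℝ)
      ≤ ∑ k ∈ Icc 1 K, ∑ k' ∈ (Icc 1 K).filter (fun k' => k < k'),
        D * (F k + F k' + F (k + k') + F (max k k' - min k k')) := by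
        refine Finset.sum_le_sum fun k hk => Finset.sum_le_sum fun k' hk' => ?_
        have h1 := Finset.mem_Icc.mp hk
        have h2 := Finset.mem_filter.mp hk'
        rw [max_eq_right h2.2.le, min_eq_left h2.2.le]
        exact quadCount_le hC0 hC hX h1.1 h2.2
    _ ≤ ∑ k ∈ Ico 1 (K + 1), ∑ k' ∈ (Ico 1 (K + 1)).filter (fun k' => k' ≠ k),
        D * (F k + F k' + F (k + k') + F (max k k' - min k k')) := by
        have e1 : Icc 1 K = Ico 1 (K + 1) := by
          ext x; simp only [mem_Icc, mem_Ico]; omega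
        rw [e1]
        refine Finset.sum_le_sum fun k hk => ?_
        apply Finset.sum_le_sum_of_subset_of_nonneg
        · intro x hx
          simp only [mem_filter] at hx ⊢
          exact ⟨hx.1, by omega⟩
        · intro x _ _
          exact mul_nonneg hD0 (by
            have := hF0 k; have := hF0 x; have := hF0 (k + x)
            have := hF0 (max k x - min k x); positivity)
    _ = D * ∑ k ∈ Ico 1 (K + 1), ∑ k' ∈ (Ico 1 (K + 1)).filter (fun k' => k' ≠ k),
        (F k + F k' + F (k + k') + F (max k k' - min k k')) := by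
        rw [Finset.mul_sum]
        refine Finset.sum_congr rfl fun k _ => ?_
        rw [Finset.mul_sum]
    _ ≤ D * (6 * (((K + 1 : ℕ) : ℝ) * ((K + 1 : ℕ) : ℝ) * E)) :=
        mul_le_mul_of_nonneg_left hbox hD0
    _ ≤ D * (24 * ((K : ℝ) ^ 2 * E)) := by
        refine mul_le_mul_of_nonneg_left ?_ hD0
        have hK1 : (1 : ℝ) ≤ K := by exact_mod_cast hK
        push_cast
        have : ((K : ℝ) + 1) * (K + 1) ≤ 4 * (K : ℝ) ^ 2 := by nlinarith
        nlinarith
    _ = 24 * (81 * C * E) * X * (K : ℝ) ^ 2 / (Real.log X) ^ 4 := by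
        rw [hD]; ring

end Pool.Agent.Lib.MP_7b7e48_nt
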