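import Mathlib
import Pool.Agent.Lib.MP_7b7e48_nt.QuadBound
import Pool.Agent.Lib.Sieve.TupleSieve

/-!
# Primes symmetric about an integer, close to it: the unconditional theorem
-/

open Finset

namespace Pool.Agent.Lib.MP_7b7e48_nt

theorem tupleBound (k : ℕ) (hk : 1 ≤ k) : TupleBound k := by
  obtain ⟨C, hC0, hC⟩ := Pool.Agent.Lib.Sieve.tuple_sieve k hk
  refine ⟨C, hC0, fun N h hN _ M hM0 hM hd => hC N h M hN hM0 hM ?_⟩
  intro i j hij p hp hmod
  refine hd i j hij p hp ?_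
  have h1 : ((h i : ℤ) : ZMod p) = ((h j : ℤ) : ZMod p) := by exact_mod_cast hmod
  rw [← sub_eq_zero, ← Int.cast_sub] at h1
  exact (ZMod.intCast_zmod_eq_zero_iff_dvd _ _).mp h1

theorem quadBound : QuadBound := quadBound_of_tuple (tupleBound 4 (by norm_num))

theorem balanced :
    ∃ c : ℝ, 0 < c ∧ ∃ C : ℝ, 0 < C ∧ ∃ X0 : ℕ, ∀ X : ℕ, X0 ≤ X →
    ∀ K : ℕ, C * Real.log X ≤ K → K ≤ X →
    c * X * min 1 (K / (Real.log X) ^ 2) ≤ (((Icc 1 X).filter (fun n =>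
      c * max 1 (K / (Real.log X) ^ 2) ≤
        (((Icc 1 K).filter (fun k => (n - k).Prime ∧ (n + k).Prime)).card : ℝ))).card : ℝ) :=
  balanced_of_quadBound quadBound

end Pool.Agent.Lib.MP_7b7e48_nt
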