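import Mathlib
import Pool.Agent.Lib.MP_092512_nt.MultAvg

/-!
# The average of the Goldbach singular series

`hlF n = ∏_{p | n, p > 2} (p - 1) / (p - 2)` and the twin prime constant `C₂`, with
`C₂ ∑_{n ≤ X} hlF n ≤ X` for every `X`.
-/

open Finset Filter Topology

namespace Pool.Agent.Lib.MP_7b7e48_nt

/-- The factor `∏_{p | n, p > 2} (p - 1) / (p - 2)`. -/
noncomputable def hlF (n : ℕ) : ℝ := ∏ p ∈ n.primeFactors with 2 < p, (((p : ℝ) - 1) / ((p : ℝ) - 2))

/-- The partial products of the twin prime constant. -/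
noncomputable def twinPartial (z : ℕ) : ℝ :=
  ∏ p ∈ (Nat.primesBelow z).filter (2 < ·), (1 - 1 / ((p : ℝ) - 1) ^ 2)

theorem hlF_nonneg (n : ℕ) : 0 ≤ hlF n := by
  unfold hlF
  refine Finset.prod_nonneg fun p hp => ?_
  have h2 : (2 : ℝ) < p := by exact_mod_cast (Finset.mem_filter.mp hp).2
  exact div_nonneg (by linarith) (by linarith)

theorem twin_factor {p : ℕ} (hp : 2 < p) :
    0 < 1 - 1 / ((p : ℝ) - 1) ^ 2 ∧ 1 - 1 / ((p : ℝ) - 1) ^ 2 ≤ 1 ∧
      (1 + (1 / ((p : ℝ) - 2)) / p) * (1 - 1 / ((p : ℝ) - 1) ^ 2) = 1 := by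
  have h3 : (3 : ℝ) ≤ p := by exact_mod_cast hp
  have h1 : (0 : ℝ) < (p : ℝ) - 1 := by linarith
  have h2 : (0 : ℝ) < (p : ℝ) - 2 := by linarith
  have h0 : (0 : ℝ) < (p : ℝ) := by linarith
  refine ⟨?_, ?_, ?_⟩
  · rw [sub_pos, div_lt_one (by positivity)]
    nlinarith
  · have : 0 ≤ 1 / ((p : ℝ) - 1) ^ 2 := by positivity
    linarith
  · field_simp
    ring

theorem prod_Ico_one_sub (N : ℕ) (hN : 2 ≤ N) :
    ∏ m ∈ Finset.Ico 2 N, (1 - 1 / (m : ℝ) ^ 2) = N / (2 * ((N : ℝ) - 1)) := by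
  induction N, hN using Nat.le_induction with
  | base => norm_num
  | succ N hN ih =>
    rw [Finset.prod_Ico_succ_top hN, ih]
    have h2 : (2 : ℝ) ≤ N := by exact_mod_cast hN
    have h3 : (N : ℝ) - 1 ≠ 0 := by linarith
    have h4 : (N : ℝ) ≠ 0 := by linarith
    push_cast
    have h5 : (N : ℝ) + 1 - 1 ≠ 0 := by linarith
    field_simp
    ring

theorem half_le_twinPartial (z : ℕ) : 1 / 2 ≤ twinPartial z := by
  unfold twinPartial
  have hfac : ∀ m ∈ Finset.Ico 2 (z + 2), 0 < (1 - 1 / (m : ℝ) ^ 2) ∧ (1 - 1 / (m : ℝ) ^ 2) ≤ 1 := by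
    intro m hm
    have h2 : (2 : ℝ) ≤ m := by exact_mod_cast (Finset.mem_Ico.mp hm).1
    constructor
    · rw [sub_pos, div_lt_one (by positivity)]; nlinarith
    · have : 0 ≤ 1 / (m : ℝ) ^ 2 := by positivity
      linarith
  have h1 : ∏ p ∈ (Nat.primesBelow z).filter (2 < ·), (1 - 1 / ((p : ℝ) - 1) ^ 2) =
      ∏ m ∈ ((Nat.primesBelow z).filter (2 < ·)).image (fun p : ℕ => p - 1),
        (1 - 1 / ((m : ℕ) : ℝ) ^ 2) := by
    rw [Finset.prod_image]
    · refine Finset.prod_congr rfl fun p hp => ?_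
      have h2 := (Finset.mem_filter.mp hp).2
      rw [Nat.cast_sub (by omega)]
      simp
    · intro a ha b hb hab
      have h2 := (Finset.mem_filter.mp ha).2
      have h3 := (Finset.mem_filter.mp hb).2
      simp only at hab
      omega
  rw [h1]
  have hsub : ((Nat.primesBelow z).filter (2 < ·)).image (fun p : ℕ => p - 1) ⊆
      Finset.Ico 2 (z + 2) := by
    intro m hm
    obtain ⟨p, hp, rfl⟩ := Finset.mem_image.mp hm
    have h2 := (Finset.mem_filter.mp hp).2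
    have h3 := Nat.lt_of_mem_primesBelow (Finset.mem_filter.mp hp).1
    rw [Finset.mem_Ico]
    omega
  calc (1 : ℝ) / 2 ≤ ((z + 2 : ℕ) : ℝ) / (2 * (((z + 2 : ℕ) : ℝ) - 1)) := by
        have : (0 : ℝ) ≤ z := Nat.cast_nonneg z
        push_cast
        rw [div_le_div_iff₀ (by norm_num) (by linarith)]
        linarith
    _ = ∏ m ∈ Finset.Ico 2 (z + 2), (1 - 1 / (m : ℝ) ^ 2) :=
        (prod_Ico_one_sub (z + 2) (by omega)).symm
    _ ≤ _ := by
        refine Finset.prod_le_prod_of_subset_of_le_one hsub ?_ ?_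
        · intro m hm
          exact (hfac m hm).1.le
        · intro m hm _
          exact (hfac m hm).2

theorem twinPartial_antitone : Antitone twinPartial := by
  intro a b hab
  unfold twinPartial
  have hsub : (Nat.primesBelow a).filter (2 < ·) ⊆ (Nat.primesBelow b).filter (2 < ·) := by
    intro p hp
    have h2 := (Finset.mem_filter.mp hp).2
    have h3 := Nat.lt_of_mem_primesBelow (Finset.mem_filter.mp hp).1
    have h4 := Nat.prime_of_mem_primesBelow (Finset.mem_filter.mp hp).1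
    exact Finset.mem_filter.mpr ⟨Nat.mem_primesBelow.mpr ⟨by omega, h4⟩, h2⟩
  refine Finset.prod_le_prod_of_subset_of_le_one hsub ?_ ?_
  · intro p hp
    exact (twin_factor (Finset.mem_filter.mp hp).2).1.le
  · intro p hp _
    exact (twin_factor (Finset.mem_filter.mp hp).2).2.1

/-- The twin prime constant exists. -/
theorem exists_twin : ∃ C₂ : ℝ, 0 < C₂ ∧ Tendsto twinPartial atTop (𝓝 C₂) ∧
    ∀ z, C₂ ≤ twinPartial z := by
  have hb : BddBelow (Set.range twinPartial) :=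
    ⟨1 / 2, by rintro _ ⟨z, rfl⟩; exact half_le_twinPartial z⟩
  have ht := tendsto_atTop_ciInf twinPartial_antitone hb
  refine ⟨⨅ z, twinPartial z, ?_, ht, fun z => ciInf_le hb z⟩
  have : (1 : ℝ) / 2 ≤ ⨅ z, twinPartial z := le_ciInf half_le_twinPartial
  linarith

/-- `C₂ ∑_{n ≤ X} ∏_{p | n, p > 2} (p - 1)/(p - 2) ≤ X`. -/
theorem sum_hlF_le (C₂ : ℝ) (h0 : 0 ≤ C₂) (hC : ∀ z, C₂ ≤ twinPartial z) (X : ℕ) :
    C₂ * ∑ n ∈ Icc 1 X, hlF n ≤ X := by
  classical
  set κ : ℕ → ℝ := fun p => 1 / ((p : ℝ) - 2) with hκ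
  set R : Finset ℕ := (Nat.primesBelow (X + 1)).filter (2 < ·) with hR
  have hRprime : ∀ p ∈ R, p.Prime := fun p hp =>
    Nat.prime_of_mem_primesBelow (Finset.mem_filter.mp hp).1
  have hR2 : ∀ p ∈ R, 2 < p := fun p hp => (Finset.mem_filter.mp hp).2
  have hκ0 : ∀ p ∈ R, 0 ≤ κ p := by
    intro p hp
    have h2 : (2 : ℝ) < p := by exact_mod_cast hR2 p hp
    rw [hκ]
    exact div_nonneg zero_le_one (by linarith)
  have h1 : ∀ n ∈ Icc 1 X, hlF n ≤
      ∑ T ∈ R.powerset, if (∏ p ∈ T, p) ∣ n then ∏ p ∈ T, κ p else 0 := by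
    intro n hn
    have hn1 := (Finset.mem_Icc.mp hn).1
    have hn2 := (Finset.mem_Icc.mp hn).2
    have h3 : hlF n = ∏ p ∈ n.primeFactors with 2 < p, (1 + κ p) := by
      unfold hlF
      refine Finset.prod_congr rfl fun p hp => ?_
      have h2 : (2 : ℝ) < p := by exact_mod_cast (Finset.mem_filter.mp hp).2
      have h4 : (p : ℝ) - 2 ≠ 0 := by linarith
      rw [hκ]
      field_simp
      ring
    rw [h3, Finset.prod_one_add, ← Finset.sum_filter]
    apply Finset.sum_le_sum_of_subset_of_nonneg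
    · intro T hT
      have hT := Finset.mem_powerset.mp hT
      rw [Finset.mem_filter, Finset.mem_powerset]
      refine ⟨?_, ?_⟩
      · intro p hp
        have hp' := Finset.mem_filter.mp (hT hp)
        rw [hR, Finset.mem_filter, Nat.mem_primesBelow]
        have h2 : p ≤ n := Nat.le_of_mem_primeFactors hp'.1
        exact ⟨⟨by omega, Nat.prime_of_mem_primeFactors hp'.1⟩, hp'.2⟩
      · apply Finset.prod_primes_dvd
        · intro p hp
          exact (Nat.prime_of_mem_primeFactors (Finset.mem_filter.mp (hT hp)).1).prime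
        · intro p hp
          exact Nat.dvd_of_mem_primeFactors (Finset.mem_filter.mp (hT hp)).1
    · intro T hT _
      have hT := Finset.mem_powerset.mp (Finset.mem_filter.mp hT).1
      exact Finset.prod_nonneg fun p hp => hκ0 p (hT hp)
  have h2 : ∑ n ∈ Icc 1 X, hlF n ≤ (X : ℝ) * ∏ p ∈ R, (1 + κ p / p) := by
    calc ∑ n ∈ Icc 1 X, hlF n
        ≤ ∑ n ∈ Icc 1 X, ∑ T ∈ R.powerset, if (∏ p ∈ T, p) ∣ n then ∏ p ∈ T, κ p else 0 :=
          Finset.sum_le_sum h1
      _ = ∑ T ∈ R.powerset, (((Icc 1 X).filter (fun n => (∏ p ∈ T, p) ∣ n)).card : ℝ) *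
            ∏ p ∈ T, κ p := by
          rw [Finset.sum_comm]
          refine Finset.sum_congr rfl fun T _ => ?_
          rw [← Finset.sum_filter, Finset.sum_const, nsmul_eq_mul]
      _ ≤ ∑ T ∈ R.powerset, (X : ℝ) * ∏ p ∈ T, (κ p / p) := by
          refine Finset.sum_le_sum fun T hT => ?_
          have hT := Finset.mem_powerset.mp hT
          have h2 := Pool.Agent.Lib.MP_092512_nt.card_multiples_le X (∏ p ∈ T, p)
          have h3 : 0 ≤ ∏ p ∈ T, κ p := Finset.prod_nonneg fun p hp => hκ0 p (hT hp)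
          calc (((Icc 1 X).filter (fun n => (∏ p ∈ T, p) ∣ n)).card : ℝ) * ∏ p ∈ T, κ p
              ≤ (X : ℝ) / ((∏ p ∈ T, p : ℕ) : ℝ) * ∏ p ∈ T, κ p :=
                mul_le_mul_of_nonneg_right h2 h3
            _ = (X : ℝ) * ((∏ p ∈ T, κ p) / ((∏ p ∈ T, p : ℕ) : ℝ)) := by ring
            _ = (X : ℝ) * ∏ p ∈ T, (κ p / p) := by
                rw [Nat.cast_prod, ← Finset.prod_div_distrib]
      _ = (X : ℝ) * ∏ p ∈ R, (1 + κ p / p) := by
          rw [Finset.prod_one_add, Finset.mul_sum]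
  have h3 : (∏ p ∈ R, (1 + κ p / p)) * twinPartial (X + 1) = 1 := by
    unfold twinPartial
    rw [← hR, ← Finset.prod_mul_distrib]
    refine Finset.prod_eq_one fun p hp => ?_
    exact (twin_factor (hR2 p hp)).2.2
  have h4 : 0 ≤ ∏ p ∈ R, (1 + κ p / p) := by
    refine Finset.prod_nonneg fun p hp => ?_
    have := hκ0 p hp
    positivity
  calc C₂ * ∑ n ∈ Icc 1 X, hlF n ≤ C₂ * ((X : ℝ) * ∏ p ∈ R, (1 + κ p / p)) := by gcongr
    _ = (X : ℝ) * ((∏ p ∈ R, (1 + κ p / p)) * C₂) := by ring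
    _ ≤ (X : ℝ) * ((∏ p ∈ R, (1 + κ p / p)) * twinPartial (X + 1)) := by
        gcongr
        exact hC _
    _ = X := by rw [h3, mul_one]

end Pool.Agent.Lib.MP_7b7e48_nt
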