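import Mathlib
import Pool.Agent.Lib.MP_7b7e48_nt.TwinAverage
import Pool.Agent.Lib.MP_7b7e48_nt.Romanoff
import Pool.Agent.Lib.Sieve.TupleSieve

/-!
# Romanoff type theorem with the Hardy-Littlewood constant
-/

open Finset Filter Topology

namespace Pool.Agent.Lib.MP_7b7e48_nt

open Pool.Agent.Lib.MP_5d7b92_nt (rep sum_rep pairCount sum_rep_sq primeCounting_ge primeCounting_le)

/-- Second moment method for `r ≥ g` on average. -/
theorem positive_part {ι : Type*} (N : Finset ι) (r g : ι → ℝ)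
    (hg : ∀ i ∈ N, 0 ≤ g i) (s : ℝ) (hs : 0 ≤ s) (h : s ≤ ∑ i ∈ N, (r i - g i)) :
    s ^ 2 ≤ ((N.filter (fun i => g i ≤ r i)).card : ℝ) * ∑ i ∈ N, (r i) ^ 2 := by
  classical
  have h1 : s ≤ ∑ i ∈ N.filter (fun i => g i ≤ r i), r i := by
    rw [← Finset.sum_filter_add_sum_filter_not N (fun i => g i ≤ r i)] at h
    have h2 : ∑ i ∈ N.filter (fun i => ¬ g i ≤ r i), (r i - g i) ≤ 0 := by
      refine Finset.sum_nonpos fun i hi => ?_
      have := (Finset.mem_filter.mp hi).2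
      push Not at this
      linarith
    have h3 : ∑ i ∈ N.filter (fun i => g i ≤ r i), (r i - g i) ≤
        ∑ i ∈ N.filter (fun i => g i ≤ r i), r i := by
      refine Finset.sum_le_sum fun i hi => ?_
      have := hg i (Finset.mem_filter.mp hi).1
      linarith
    linarith
  calc s ^ 2 ≤ (∑ i ∈ N.filter (fun i => g i ≤ r i), r i) ^ 2 := pow_le_pow_left₀ hs h1 2
    _ ≤ ((N.filter (fun i => g i ≤ r i)).card : ℝ) * ∑ i ∈ N.filter (fun i => g i ≤ r i), (r i) ^ 2 :=
        sq_sum_le_card_mul_sum_sq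
    _ ≤ ((N.filter (fun i => g i ≤ r i)).card : ℝ) * ∑ i ∈ N, (r i) ^ 2 := by
        refine mul_le_mul_of_nonneg_left ?_ (Nat.cast_nonneg _)
        exact Finset.sum_le_sum_of_subset_of_nonneg (Finset.filter_subset _ _)
          (fun i _ _ => sq_nonneg _)

/-- Primes in `(M, 2 X - M]`. -/
noncomputable def midPrimes (X M : ℕ) : Finset ℕ := (Finset.Ioc M (2 * X - M)).filter Nat.Prime

/-- The middle primes are almost all the primes up to `2 X`. -/
theorem card_midPrimes_ge : ∃ C : ℝ, 0 < C ∧ ∀ c : ℝ, 0 < c → c ≤ 1 → ∃ X0 : ℕ, ∀ X : ℕ, X0 ≤ X →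
    (1 - C * c) * (Nat.primeCounting (2 * X) : ℝ) ≤ ((midPrimes X ⌊c * X⌋₊).card : ℝ) := by
  obtain ⟨C1, hC1, hT⟩ := Pool.Agent.Lib.Sieve.tuple_sieve 1 le_rfl
  refine ⟨100 + 20 * C1, by positivity, fun c hc hc1 => ?_⟩
  -- eventually `c X ≥ √X + 1`
  have hev : ∀ᶠ X : ℕ in atTop, 4 ≤ X ∧ √(X : ℝ) + 1 ≤ c * X := by
    have h1 : ∀ᶠ x : ℝ in atTop, √x + 1 ≤ c * x := by
      filter_upwards [eventually_ge_atTop ((2 / c) ^ 2 + 1)] with x hx
      have hx0 : 0 ≤ x := by nlinarith [sq_nonneg (2 / c)]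
      have h2 : 2 / c ≤ √x := by
        apply Real.le_sqrt_of_sq_le
        linarith
      have h3 : 1 ≤ √x := by
        apply Real.le_sqrt_of_sq_le
        nlinarith [sq_nonneg (2 / c)]
      have h4 : c * x = c * √x * √x := by rw [mul_assoc, Real.mul_self_sqrt hx0]
      rw [h4]
      have h5 : 2 ≤ c * √x := by
        rw [div_le_iff₀ hc] at h2
        linarith
      nlinarith
    filter_upwards [eventually_ge_atTop 4, tendsto_natCast_atTop_atTop.eventually h1] with X h2 h3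
    exact ⟨h2, h3⟩
  obtain ⟨X0, hX0⟩ := eventually_atTop.mp hev
  refine ⟨X0, fun X hX => ?_⟩
  obtain ⟨hX4, hXs⟩ := hX0 X hX
  have hXr : (4 : ℝ) ≤ X := by exact_mod_cast hX4
  set M := ⌊c * X⌋₊ with hM
  have hMle : (M : ℝ) ≤ c * X := Nat.floor_le (by positivity)
  have hMX : M ≤ X := by
    have : (M : ℝ) ≤ X := by nlinarith
    exact_mod_cast this
  have hMge : √(X : ℝ) ≤ M := by
    have := Nat.lt_floor_add_one (c * X)
    rw [← hM] at this
    linarith
  have hsq2 : (2 : ℝ) ≤ √(X : ℝ) := by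
    apply Real.le_sqrt_of_sq_le
    linarith
  have hM2r : (2 : ℝ) ≤ M := by linarith
  have hM2 : 2 ≤ M := by exact_mod_cast hM2r
  set L := Real.log (X : ℝ) with hL
  have hL0 : 0 < L := Real.log_pos (by linarith)
  have hlogM : L / 2 ≤ Real.log M := by
    have h5 : Real.log (√(X : ℝ)) ≤ Real.log M :=
      Real.log_le_log (by linarith) hMge
    rwa [Real.log_sqrt (by linarith)] at h5
  have hlogM0 : 0 < Real.log M := by linarith
  have hMlog : (M : ℝ) / Real.log M ≤ 2 * (c * X / L) := by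
    rw [div_le_iff₀ hlogM0]
    calc (M : ℝ) ≤ c * X := hMle
      _ = 2 * (c * X / L) * (L / 2) := by field_simp
      _ ≤ 2 * (c * X / L) * Real.log M := by gcongr
  have hpi2X : (1 / 10 : ℝ) * X / L ≤ (Nat.primeCounting (2 * X) : ℝ) := by
    have h1 := primeCounting_ge (2 * X) (by omega)
    refine le_trans ?_ h1
    have h2 : Real.log ((2 * X : ℕ) : ℝ) ≤ 2 * L := by
      push_cast
      rw [Real.log_mul (by norm_num) (by linarith)]
      have : Real.log 2 ≤ L := Real.log_le_log (by norm_num) (by linarith)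
      linarith
    have h3 : 0 < Real.log ((2 * X : ℕ) : ℝ) := by
      apply Real.log_pos
      push_cast
      linarith
    rw [div_le_div_iff₀ hL0 h3]
    calc (1 / 10 : ℝ) * X * Real.log ((2 * X : ℕ) : ℝ) ≤ (1 / 10 : ℝ) * X * (2 * L) := by gcongr
      _ = 1 / 10 * ((2 * X : ℕ) : ℝ) * L := by push_cast; ring
  have hpiM : (Nat.primeCounting M : ℝ) ≤ 100 * c * (Nat.primeCounting (2 * X) : ℝ) := by
    calc (Nat.primeCounting M : ℝ) ≤ 5 * M / Real.log M := primeCounting_le M hM2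
      _ = 5 * (M / Real.log M) := by ring
      _ ≤ 5 * (2 * (c * X / L)) := by gcongr
      _ = 100 * c * ((1 / 10 : ℝ) * X / L) := by ring
      _ ≤ _ := by gcongr
  have hshort : (((Finset.Ioc (2 * X - M) (2 * X)).filter Nat.Prime).card : ℝ) ≤
      20 * C1 * c * (Nat.primeCounting (2 * X) : ℝ) := by
    have h1 := hT M (fun _ => 2 * X - M) 1 hM2 one_ne_zero
      (fun p hp hp1 => absurd hp1 (by have := hp.two_le; omega))
      (fun i j hij => absurd (Subsingleton.elim i j) hij)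
    have h2 : ((Finset.Ioc (2 * X - M) (2 * X)).filter Nat.Prime).card ≤
        ((Finset.Icc 1 M).filter (fun n => ∀ _ : Fin 1, (n + (2 * X - M)).Prime)).card := by
      refine Finset.card_le_card_of_injOn (fun p => p - (2 * X - M)) ?_ ?_
      · intro p hp
        have hp := Finset.mem_filter.mp (Finset.mem_coe.mp hp)
        have hp1 := Finset.mem_Ioc.mp hp.1
        rw [Finset.mem_coe, Finset.mem_filter, Finset.mem_Icc]
        dsimp only
        refine ⟨by omega, fun _ => ?_⟩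
        have : p - (2 * X - M) + (2 * X - M) = p := by omega
        rw [this]; exact hp.2
      · intro p hp q hq hpq
        have hp := Finset.mem_Ioc.mp (Finset.mem_filter.mp (Finset.mem_coe.mp hp)).1
        have hq := Finset.mem_Ioc.mp (Finset.mem_filter.mp (Finset.mem_coe.mp hq)).1
        simp only at hpq
        omega
    calc (((Finset.Ioc (2 * X - M) (2 * X)).filter Nat.Prime).card : ℝ)
        ≤ (((Finset.Icc 1 M).filter (fun n => ∀ _ : Fin 1, (n + (2 * X - M)).Prime)).card : ℝ) := by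
          exact_mod_cast h2
      _ ≤ _ := h1
      _ = C1 * (M / Real.log M) := by simp; ring
      _ ≤ C1 * (2 * (c * X / L)) := by gcongr
      _ = 20 * C1 * c * ((1 / 10 : ℝ) * X / L) := by ring
      _ ≤ _ := by gcongr
  have hsplit : Nat.primeCounting (2 * X) ≤ Nat.primeCounting M + (midPrimes X M).card +
      ((Finset.Ioc (2 * X - M) (2 * X)).filter Nat.Prime).card := by
    rw [← Nat.primesLE_card_eq_primeCounting (2 * X), ← Nat.primesLE_card_eq_primeCounting M]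
    refine (Finset.card_le_card ?_).trans ((Finset.card_union_le _ _).trans
      (Nat.add_le_add_right (Finset.card_union_le _ _) _))
    intro p hp
    rw [Nat.mem_primesLE] at hp
    rw [Finset.mem_union, Finset.mem_union, Nat.mem_primesLE]
    unfold midPrimes
    rw [Finset.mem_filter, Finset.mem_filter, Finset.mem_Ioc, Finset.mem_Ioc]
    rcases le_or_gt p M with h | h
    · exact Or.inl (Or.inl ⟨h, hp.2⟩)
    · rcases le_or_gt p (2 * X - M) with h' | h'
      · exact Or.inl (Or.inr ⟨⟨h, h'⟩, hp.2⟩)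
      · exact Or.inr ⟨⟨h', hp.1⟩, hp.2⟩
  have hsplit' : (Nat.primeCounting (2 * X) : ℝ) ≤ (Nat.primeCounting M : ℝ) +
      ((midPrimes X M).card : ℝ) +
      (((Finset.Ioc (2 * X - M) (2 * X)).filter Nat.Prime).card : ℝ) := by
    exact_mod_cast hsplit
  nlinarith

/-- **Romanoff type theorem with the right constant.** -/
theorem romanoff_right (C₂ : ℝ) (hC0 : 0 < C₂) (hC₂ : ∀ z, C₂ ≤ twinPartial z)
    (ε : ℝ) (hε : 0 < ε) (hε1 : ε ≤ 1) :
    ∃ c : ℝ, 0 < c ∧ ∃ X0 : ℕ, ∀ X : ℕ, X0 ≤ X → ∀ Q : Finset ℕ,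
    (∀ q ∈ Q, q.Prime ∧ q ≠ 2 ∧ (q : ℝ) ≤ c * X) → Real.log X ≤ (Q.card : ℝ) →
    ∀ K : ℝ, 1 ≤ K → diffSum Q ≤ K * (Q.card : ℝ) ^ 2 →
    c * X / K ≤ (((Finset.Icc 1 X).filter (fun n =>
      ((1 - ε) * (2 * C₂ * hlF n) + c) *
        ((Q.card : ℝ) * (Nat.primeCounting (2 * X) : ℝ) / (2 * X)) ≤
      ((Q.filter (fun q => q < n ∧ (2 * n - q).Prime)).card : ℝ))).card : ℝ) := by
  obtain ⟨CA, hCA, hA⟩ := Pool.Agent.Lib.Sieve.pair_sieve
  obtain ⟨C1, hC1, hmid⟩ := card_midPrimes_ge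
  set D : ℝ := 10 + 4 * CA with hD
  have hD0 : 0 < D := by positivity
  set c : ℝ := min (min (ε / (4 * C1)) (ε / 4)) (ε ^ 2 / (400 * D)) with hc
  have hc0 : 0 < c := by positivity
  have hcC1 : C1 * c ≤ ε / 4 := by
    have h1 : c ≤ ε / (4 * C1) := (min_le_left _ _).trans (min_le_left _ _)
    calc C1 * c ≤ C1 * (ε / (4 * C1)) := by gcongr
      _ = ε / 4 := by field_simp
  have hcε : c ≤ ε / 4 := (min_le_left _ _).trans (min_le_right _ _)
  have hcD : c ≤ ε ^ 2 / (400 * D) := min_le_right _ _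
  have hc1 : c ≤ 1 := by linarith
  obtain ⟨X1, hX1⟩ := hmid c hc0 hc1
  refine ⟨c, hc0, max X1 4, fun X hX Q hQ hQL K hK hdiff => ?_⟩
  have hXX1 : X1 ≤ X := (le_max_left _ _).trans hX
  have hX4 : 4 ≤ X := (le_max_right _ _).trans hX
  set L := Real.log (X : ℝ) with hL
  have hXr : (4 : ℝ) ≤ X := by exact_mod_cast hX4
  have hX0 : (0 : ℝ) < X := by linarith
  have hL0 : 0 < L := Real.log_pos (by linarith)
  have hQ0 : (0 : ℝ) < Q.card := by linarith
  set M := ⌊c * X⌋₊ with hM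
  have hMle : (M : ℝ) ≤ c * X := Nat.floor_le (by positivity)
  have hMX : M ≤ X := by
    have : (M : ℝ) ≤ X := by nlinarith
    exact_mod_cast this
  set P := midPrimes X M with hP
  have hPlow : (1 - C1 * c) * (Nat.primeCounting (2 * X) : ℝ) ≤ (P.card : ℝ) := hX1 X hXX1
  have hPup : P.card ≤ Nat.primeCounting (2 * X) := by
    rw [← Nat.primesLE_card_eq_primeCounting (2 * X)]
    apply Finset.card_le_card
    intro p hp
    have := Finset.mem_filter.mp hp
    rw [Nat.mem_primesLE]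
    have h2 := Finset.mem_Ioc.mp this.1
    exact ⟨by omega, this.2⟩
  have hPup' : (P.card : ℝ) ≤ (Nat.primeCounting (2 * X) : ℝ) := by exact_mod_cast hPup
  have hPmem : ∀ p ∈ P, M < p ∧ p ≤ 2 * X - M ∧ p.Prime := by
    intro p hp
    have := Finset.mem_filter.mp hp
    have h2 := Finset.mem_Ioc.mp this.1
    exact ⟨h2.1, h2.2, this.2⟩
  have hQmem : ∀ q ∈ Q, q.Prime ∧ q ≠ 2 ∧ q ≤ M := by
    intro q hq
    obtain ⟨h1, h2, h3⟩ := hQ q hq
    exact ⟨h1, h2, Nat.le_floor h3⟩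
  have hQne : Q.Nonempty := by
    rw [← Finset.card_pos]
    exact_mod_cast hQ0
  have hM3 : 3 ≤ M := by
    obtain ⟨q, hq⟩ := hQne
    obtain ⟨h1, h2, h3⟩ := hQmem q hq
    have := h1.two_le
    omega
  have hodd : ∀ p : ℕ, p.Prime → p ≠ 2 → p % 2 = 1 := fun p hp h2 =>
    (hp.eq_two_or_odd).resolve_left h2
  have hQP : ∀ q ∈ Q, ∀ p ∈ P, ∃ n, n ∈ Finset.Icc 1 X ∧ q + p = 2 * n := by
    intro q hq p hp
    obtain ⟨h1, h2, h3⟩ := hQmem q hq
    obtain ⟨h4, h5, h6⟩ := hPmem p hp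
    have h7 := hodd q h1 h2
    have h8 := hodd p h6 (by omega)
    have := h1.two_le
    refine ⟨(q + p) / 2, ?_, by omega⟩
    rw [Finset.mem_Icc]
    omega
  -- first moment
  have hS1 : ∑ n ∈ Finset.Icc 1 X, (rep Q P n : ℝ) = (Q.card : ℝ) * P.card := by
    exact_mod_cast sum_rep Q P X hQP
  set Wp := (Nat.primeCounting (2 * X) : ℝ) with hWp
  -- bounds for `π(2X)`
  have hlog2 : Real.log 2 ≤ L := Real.log_le_log (by norm_num) (by linarith)
  have hlog2X : Real.log ((2 * X : ℕ) : ℝ) = Real.log 2 + L := by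
    push_cast
    rw [Real.log_mul (by norm_num) (by linarith)]
  have hlog20 : 0 < Real.log 2 := Real.log_pos (by norm_num)
  have hpilow : (1 / 10 : ℝ) * X / L ≤ Wp := by
    have h1 := primeCounting_ge (2 * X) (by omega)
    refine le_trans ?_ h1
    rw [hlog2X, div_le_div_iff₀ hL0 (by linarith)]
    push_cast
    nlinarith
  have hpiup : Wp ≤ 10 * X / L := by
    have h1 := primeCounting_le (2 * X) (by omega)
    refine h1.trans ?_
    rw [hlog2X, div_le_div_iff₀ (by linarith) hL0]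
    push_cast
    nlinarith
  have hWp0 : 0 < Wp := lt_of_lt_of_le (by positivity) hpilow
  -- second moment
  have hpair : ∀ d : ℕ, 1 ≤ d → (pairCount P d : ℝ)
      ≤ 2 * CA * ((d : ℝ) / (Nat.totient d : ℝ)) * (X : ℝ) / L ^ 2 := by
    intro d hd
    have h1 := hA (2 * X) d (by omega) hd
    have h2 : pairCount P d ≤
        ((Finset.Icc 1 (2 * X)).filter (fun p => p.Prime ∧ (p + d).Prime)).card := by
      unfold pairCount
      apply Finset.card_le_card
      intro p hp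
      have hp := Finset.mem_filter.mp hp
      have hp1 := hPmem p hp.1
      have hp2 := hPmem _ hp.2
      simp only [Finset.mem_filter, Finset.mem_Icc]
      exact ⟨⟨hp1.2.2.one_lt.le, by omega⟩, hp1.2.2, hp2.2.2⟩
    have h2' : (pairCount P d : ℝ) ≤
        (((Finset.Icc 1 (2 * X)).filter (fun p => p.Prime ∧ (p + d).Prime)).card : ℝ) := by
      exact_mod_cast h2
    have h3 : CA * ((d : ℝ) / (Nat.totient d : ℝ)) * ((2 * X : ℕ) : ℝ) /
        (Real.log ((2 * X : ℕ) : ℝ)) ^ 2 ≤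
        2 * CA * ((d : ℝ) / (Nat.totient d : ℝ)) * (X : ℝ) / L ^ 2 := by
      have h4 : L ^ 2 ≤ (Real.log ((2 * X : ℕ) : ℝ)) ^ 2 := by
        apply pow_le_pow_left₀ hL0.le
        rw [hlog2X]; linarith
      calc CA * ((d : ℝ) / (Nat.totient d : ℝ)) * ((2 * X : ℕ) : ℝ) /
        (Real.log ((2 * X : ℕ) : ℝ)) ^ 2 ≤ CA * ((d : ℝ) / (Nat.totient d : ℝ)) * ((2 * X : ℕ) : ℝ) /
            L ^ 2 := by gcongr
        _ = _ := by push_cast; ring
    linarith
  have hS2 : ∑ n ∈ Finset.Icc 1 X, (rep Q P n : ℝ) ^ 2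
      ≤ D * K * (Q.card : ℝ) ^ 2 * X / L ^ 2 := by
    have h1 : ∑ n ∈ Finset.Icc 1 X, (rep Q P n : ℝ) ^ 2 ≤ (Q.card : ℝ) * P.card +
      2 * ∑ q ∈ Q, ∑ q' ∈ Q.filter (fun q' => q < q'), (pairCount P (q' - q) : ℝ) := by
      exact_mod_cast sum_rep_sq Q P X hQP
    have h2 : ∑ q ∈ Q, ∑ q' ∈ Q.filter (fun q' => q < q'), (pairCount P (q' - q) : ℝ)
        ≤ 2 * CA * X / L ^ 2 * diffSum Q := by
      unfold diffSum
      rw [Finset.mul_sum]
      refine Finset.sum_le_sum fun q _ => ?_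
      rw [Finset.mul_sum]
      refine Finset.sum_le_sum fun q' hq' => ?_
      have := (Finset.mem_filter.mp hq').2
      have h3 := hpair (q' - q) (by omega)
      calc (pairCount P (q' - q) : ℝ) ≤ _ := h3
        _ = _ := by ring
    have h4 : (Q.card : ℝ) * P.card ≤ 10 * K * (Q.card : ℝ) ^ 2 * X / L ^ 2 := by
      calc (Q.card : ℝ) * P.card ≤ (Q.card : ℝ) * (10 * X / L) := by
            gcongr
            exact hPup'.trans hpiup
        _ = 10 * L * (Q.card : ℝ) * X / L ^ 2 := by field_simp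
        _ ≤ 10 * (K * (Q.card : ℝ)) * (Q.card : ℝ) * X / L ^ 2 := by
            gcongr
            nlinarith
        _ = 10 * K * (Q.card : ℝ) ^ 2 * X / L ^ 2 := by ring
    calc ∑ n ∈ Finset.Icc 1 X, (rep Q P n : ℝ) ^ 2
        ≤ 10 * K * (Q.card : ℝ) ^ 2 * X / L ^ 2
          + 2 * (2 * CA * X / L ^ 2 * (K * (Q.card : ℝ) ^ 2)) := by
          refine h1.trans (add_le_add h4 ?_)
          refine mul_le_mul_of_nonneg_left (h2.trans ?_) (by norm_num)
          refine mul_le_mul_of_nonneg_left hdiff (by positivity)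
      _ = D * K * (Q.card : ℝ) ^ 2 * X / L ^ 2 := by rw [hD]; ring
  -- the positive part
  set m : ℝ := (Q.card : ℝ) * Wp / (2 * X) with hm
  have hm0 : 0 ≤ m := by positivity
  set g : ℕ → ℝ := fun n => ((1 - ε) * (2 * C₂ * hlF n) + c) * m with hg
  have hg0 : ∀ n ∈ Finset.Icc 1 X, 0 ≤ g n := by
    intro n _
    have h1 := hlF_nonneg n
    have h2 : 0 ≤ 1 - ε := by linarith
    have h3 : 0 ≤ (1 - ε) * (2 * C₂ * hlF n) := by positivity
    exact mul_nonneg (by linarith) hm0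
  have hsumg : ∑ n ∈ Finset.Icc 1 X, g n ≤ (1 - ε) * ((Q.card : ℝ) * Wp) + c * ((Q.card : ℝ) * Wp) := by
    have h1 := sum_hlF_le C₂ hC0.le hC₂ X
    have h2 : ∑ n ∈ Finset.Icc 1 X, g n =
        (1 - ε) * (2 * (C₂ * ∑ n ∈ Finset.Icc 1 X, hlF n)) * m + c * X * m := by
      rw [hg, ← Finset.sum_mul, Finset.sum_add_distrib, Finset.sum_const, Nat.card_Icc,
        ← Finset.mul_sum, ← Finset.mul_sum]
      simp
      ring
    rw [h2]
    have h3 : (1 - ε) * (2 * (C₂ * ∑ n ∈ Finset.Icc 1 X, hlF n)) * m ≤ (1 - ε) * (2 * X) * m := by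
      have : 0 ≤ 1 - ε := by linarith
      gcongr
    have h4 : (1 - ε) * (2 * X) * m = (1 - ε) * ((Q.card : ℝ) * Wp) := by
      rw [hm]; field_simp
    have h5 : c * X * m ≤ c * ((Q.card : ℝ) * Wp) := by
      have : c * X * m = c * ((Q.card : ℝ) * Wp) / 2 := by rw [hm]; field_simp
      rw [this]
      have : 0 ≤ c * ((Q.card : ℝ) * Wp) := by positivity
      linarith
    linarith
  have hfirst : ε / 2 * ((Q.card : ℝ) * Wp) ≤ ∑ n ∈ Finset.Icc 1 X, ((rep Q P n : ℝ) - g n) := by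
    rw [Finset.sum_sub_distrib, hS1]
    have h1 : (Q.card : ℝ) * ((1 - C1 * c) * Wp) ≤ (Q.card : ℝ) * P.card := by gcongr
    have h2 : C1 * c * ((Q.card : ℝ) * Wp) ≤ ε / 4 * ((Q.card : ℝ) * Wp) := by gcongr
    have h3 : c * ((Q.card : ℝ) * Wp) ≤ ε / 4 * ((Q.card : ℝ) * Wp) := by gcongr
    nlinarith
  have hpp := positive_part (Finset.Icc 1 X) (fun n => (rep Q P n : ℝ)) g hg0
    (ε / 2 * ((Q.card : ℝ) * Wp)) (by positivity) hfirst
  have hrep : ∀ n, rep Q P n ≤ (Q.filter (fun q => q < n ∧ (2 * n - q).Prime)).card := by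
    intro n
    unfold rep
    refine Finset.card_le_card_of_injOn (fun x => x.1) ?_ ?_
    · intro x hx
      have hx := Finset.mem_filter.mp (Finset.mem_coe.mp hx)
      have h1 := (Finset.mem_product.mp hx.1).1
      have h2 := hPmem _ (Finset.mem_product.mp hx.1).2
      have h3 := hQmem _ h1
      have h4 := hx.2
      have h5 : x.1 < n := by omega
      rw [Finset.mem_coe, Finset.mem_filter]
      refine ⟨h1, h5, ?_⟩
      have : 2 * n - x.1 = x.2 := by omega
      rw [this]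
      exact h2.2.2
    · intro x hx y hy hxy
      have hx := (Finset.mem_filter.mp (Finset.mem_coe.mp hx)).2
      have hy := (Finset.mem_filter.mp (Finset.mem_coe.mp hy)).2
      have hxy : x.1 = y.1 := hxy
      ext
      · exact hxy
      · omega
  have hmono : (((Finset.Icc 1 X).filter (fun n => g n ≤ (rep Q P n : ℝ))).card : ℝ)
      ≤ (((Finset.Icc 1 X).filter (fun n => g n ≤
        ((Q.filter (fun q => q < n ∧ (2 * n - q).Prime)).card : ℝ))).card : ℝ) := by
    have : ((Finset.Icc 1 X).filter (fun n => g n ≤ (rep Q P n : ℝ))).card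
        ≤ ((Finset.Icc 1 X).filter (fun n => g n ≤
          ((Q.filter (fun q => q < n ∧ (2 * n - q).Prime)).card : ℝ))).card := by
      apply Finset.card_le_card
      intro n hn
      have hn := Finset.mem_filter.mp hn
      refine Finset.mem_filter.mpr ⟨hn.1, hn.2.trans ?_⟩
      exact_mod_cast hrep n
    exact_mod_cast this
  refine le_trans ?_ hmono
  set G := (((Finset.Icc 1 X).filter (fun n => g n ≤ (rep Q P n : ℝ))).card : ℝ) with hG
  have hG0 : 0 ≤ G := Nat.cast_nonneg _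
  -- combine
  have h5 : (ε / 2 * ((Q.card : ℝ) * ((1 / 10 : ℝ) * X / L))) ^ 2
      ≤ G * (D * K * (Q.card : ℝ) ^ 2 * X / L ^ 2) := by
    calc (ε / 2 * ((Q.card : ℝ) * ((1 / 10 : ℝ) * X / L))) ^ 2
        ≤ (ε / 2 * ((Q.card : ℝ) * Wp)) ^ 2 := by gcongr
      _ ≤ _ := hpp
      _ ≤ _ := by gcongr
  have h6 : ε ^ 2 * X ≤ 400 * D * (G * K) := by
    have e1 : (ε / 2 * ((Q.card : ℝ) * ((1 / 10 : ℝ) * X / L))) ^ 2
        = ((Q.card : ℝ) ^ 2 * X / L ^ 2) * ((1 / 400) * (ε ^ 2 * X)) := by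
      field_simp
      ring
    have e2 : G * (D * K * (Q.card : ℝ) ^ 2 * X / L ^ 2)
        = ((Q.card : ℝ) ^ 2 * X / L ^ 2) * (D * (G * K)) := by ring
    rw [e1, e2] at h5
    have hpos : 0 < (Q.card : ℝ) ^ 2 * X / L ^ 2 := by positivity
    have := le_of_mul_le_mul_left h5 hpos
    linarith
  have hK0 : 0 < K := by linarith
  rw [div_le_iff₀ hK0]
  calc c * X ≤ ε ^ 2 / (400 * D) * X := by gcongr
    _ = (ε ^ 2 * X) / (400 * D) := by ring
    _ ≤ (400 * D * (G * K)) / (400 * D) := by gcongr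
    _ = G * K := by field_simp

end Pool.Agent.Lib.MP_7b7e48_nt
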