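import Mathlib
import Pool.Agent.Lib.MP_7b7e48_nt.BalancedFinal
import Pool.Agent.Lib.MP_7b7e48_nt.RightConst
import Pool.Agent.Lib.MP_092512_nt.Window

/-!
# Primes symmetric about an integer with the Hardy-Littlewood constant
-/

open Finset Filter Topology

namespace Pool.Agent.Lib.MP_7b7e48_nt

open Pool.Agent.Lib.MP_5d7b92_nt (primeCounting_ge primeCounting_le)
open Pool.Agent.Lib.MP_092512_nt (tri window_cs rr sum_dist)

/-- The weighted number of `k ≤ K` with `n - k` and `n + k` prime. -/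
noncomputable def wRep (K n : ℕ) : ℝ :=
  ∑ k ∈ (Icc 1 K).filter (fun k => (n - k).Prime ∧ (n + k).Prime), ((K : ℝ) - k)

theorem wRep_nonneg (K n : ℕ) : 0 ≤ wRep K n := by
  unfold wRep
  refine Finset.sum_nonneg fun k hk => ?_
  have h1 := (mem_Icc.mp (mem_filter.mp hk).1).2
  have : (k : ℝ) ≤ K := by exact_mod_cast h1
  linarith

theorem wRep_le (K n : ℕ) : wRep K n ≤ K * (balRep K n : ℝ) := by
  unfold wRep balRep
  calc _ ≤ ∑ k ∈ (Icc 1 K).filter (fun k => (n - k).Prime ∧ (n + k).Prime), (K : ℝ) := by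
        refine Finset.sum_le_sum fun k _ => ?_
        have : (0 : ℝ) ≤ k := Nat.cast_nonneg k
        linarith
    _ = _ := by rw [Finset.sum_const, nsmul_eq_mul]; ring

theorem mem_oddPrimes' {p X : ℕ} (hp : p ∈ oddPrimes X) : p.Prime ∧ p % 2 = 1 ∧ p ≤ X := by
  simp only [oddPrimes, mem_filter, mem_Icc] at hp
  have h1 : p.Prime := hp.2
  have h2 : p ≠ 2 := by omega
  have h3 : p ≤ X := hp.1.2
  exact ⟨h1, h1.eq_two_or_odd.resolve_left h2, h3⟩

/-- The sum of the weighted representation numbers against pairs of primes at distance `2k`. -/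
theorem sum_rr_le (X K : ℕ) :
    ∑ k ∈ Icc 1 K, ((K : ℝ) - k) * (rr (oddPrimes X) (2 * k) : ℝ) ≤
      ∑ n ∈ Icc 1 X, wRep K n := by
  classical
  have h1 : ∑ n ∈ Icc 1 X, wRep K n = ∑ k ∈ Icc 1 K, ((K : ℝ) - k) *
      (((Icc 1 X).filter (fun n => (n - k).Prime ∧ (n + k).Prime)).card : ℝ) := by
    unfold wRep
    simp only [Finset.sum_filter]
    rw [Finset.sum_comm]
    refine Finset.sum_congr rfl fun k _ => ?_
    rw [← Finset.sum_filter, Finset.sum_const, nsmul_eq_mul]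
    ring
  rw [h1]
  refine Finset.sum_le_sum fun k hk => ?_
  have h2 := (mem_Icc.mp hk).2
  have h3 : (k : ℝ) ≤ K := by exact_mod_cast h2
  refine mul_le_mul_of_nonneg_left ?_ (by linarith)
  have h4 : rr (oddPrimes X) (2 * k) ≤
      ((Icc 1 X).filter (fun n => (n - k).Prime ∧ (n + k).Prime)).card := by
    unfold rr
    refine Finset.card_le_card_of_injOn (fun p => p + k) ?_ ?_
    · intro p hp
      have hp := mem_filter.mp (mem_coe.mp hp)
      obtain ⟨h5, h6, h7⟩ := mem_oddPrimes' hp.1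
      obtain ⟨h8, h9, h10⟩ := mem_oddPrimes' hp.2
      rw [mem_coe, mem_filter, mem_Icc]
      dsimp only
      have := h5.pos
      refine ⟨⟨by omega, by omega⟩, ?_, ?_⟩
      · rw [show p + k - k = p by omega]; exact h5
      · rw [show p + k + k = p + 2 * k by omega]; exact h8
    · intro p _ q _ hpq
      dsimp only at hpq
      omega
  exact_mod_cast h4

/-- Sums over differences of odd primes are sums over even differences. -/
theorem sum_even (X K : ℕ) :
    ∑ a ∈ Ico 1 (2 * K), (((2 * K - a : ℕ) : ℝ)) * (rr (oddPrimes X) a : ℝ) =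
      2 * ∑ k ∈ Icc 1 K, ((K : ℝ) - k) * (rr (oddPrimes X) (2 * k) : ℝ) := by
  classical
  have h0 : ∀ a, ¬ Even a → rr (oddPrimes X) a = 0 := by
    intro a ha
    unfold rr
    rw [Finset.card_eq_zero, Finset.filter_eq_empty_iff]
    intro p hp hpa
    obtain ⟨_, h6, _⟩ := mem_oddPrimes' hp
    obtain ⟨_, h9, _⟩ := mem_oddPrimes' hpa
    rw [Nat.even_iff] at ha
    omega
  have h1 : ∑ a ∈ Ico 1 (2 * K), (((2 * K - a : ℕ) : ℝ)) * (rr (oddPrimes X) a : ℝ) =
      ∑ a ∈ (Ico 1 (2 * K)).filter Even, (((2 * K - a : ℕ) : ℝ)) * (rr (oddPrimes X) a : ℝ) := by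
    rw [Finset.sum_filter]
    refine Finset.sum_congr rfl fun a _ => ?_
    split_ifs with h
    · rfl
    · rw [h0 a h]; simp
  have h2 : (Ico 1 (2 * K)).filter Even = (Ico 1 K).image (fun k => 2 * k) := by
    ext a
    simp only [mem_filter, mem_Ico, mem_image, Nat.even_iff]
    constructor
    · rintro ⟨⟨h3, h4⟩, h5⟩
      exact ⟨a / 2, ⟨by omega, by omega⟩, by omega⟩
    · rintro ⟨k, ⟨h3, h4⟩, rfl⟩
      omega
  rw [h1, h2, Finset.sum_image (fun a _ b _ h => by simpa using h), Finset.mul_sum]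
  have h3 : Icc 1 K = if 1 ≤ K then insert K (Ico 1 K) else Ico 1 K := by
    split_ifs with h
    · ext a; simp only [mem_Icc, mem_insert, mem_Ico]; omega
    · ext a; simp only [mem_Icc, mem_Ico]; omega
  have h4 : ∑ k ∈ Icc 1 K, 2 * (((K : ℝ) - k) * (rr (oddPrimes X) (2 * k) : ℝ)) =
      ∑ k ∈ Ico 1 K, 2 * (((K : ℝ) - k) * (rr (oddPrimes X) (2 * k) : ℝ)) := by
    rw [h3]
    split_ifs with h
    · rw [Finset.sum_insert (by simp)]
      simp
    · rfl
  rw [h4]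
  refine Finset.sum_congr rfl fun k hk => ?_
  have h5 := (mem_Ico.mp hk).2
  rw [Nat.cast_sub (by omega)]
  push_cast
  ring

/-- First moment, sharp. -/
theorem first_moment_sharp (X K : ℕ) :
    (K : ℝ) ^ 2 * ((oddPrimes X).card : ℝ) ^ 2 ≤
      ((X : ℝ) + 2 * K) * (∑ n ∈ Icc 1 X, wRep K n + K * ((oddPrimes X).card : ℝ) / 2) := by
  set s := oddPrimes X with hs
  have h1 := window_cs s X (2 * K) (fun n hn => (mem_oddPrimes' hn).2.2)
  have h2 := sum_dist s (2 * K) (fun a => ((2 * K - a : ℕ) : ℝ))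
    (fun a ha => by simp [Nat.sub_eq_zero_of_le ha])
  have h3 := sum_even X K
  have h4 := sum_rr_le X K
  rw [← hs] at h3 h4
  have h5 : ∑ n ∈ s, ∑ n' ∈ s, (tri (2 * K) n n' : ℝ) =
      ∑ n ∈ s, ∑ n' ∈ s, ((2 * K - (max n n' - min n n') : ℕ) : ℝ) := rfl
  rw [h5, h2, h3] at h1
  push_cast at h1
  simp only [Nat.sub_zero] at h1
  push_cast at h1
  have h6 : (0 : ℝ) ≤ (X : ℝ) + 2 * K := by positivity
  have h7 : ((X : ℝ) + 2 * K) * (2 * K * (s.card : ℝ) + 2 * (2 *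
      ∑ k ∈ Icc 1 K, ((K : ℝ) - k) * (rr s (2 * k) : ℝ))) ≤
      ((X : ℝ) + 2 * K) * (2 * K * (s.card : ℝ) + 2 * (2 * ∑ n ∈ Icc 1 X, wRep K n)) := by
    gcongr
  nlinarith

theorem balanced_right (C₂ : ℝ) (hC0 : 0 < C₂) (hC₂ : ∀ z, C₂ ≤ twinPartial z)
    (ε : ℝ) (hε : 0 < ε) (hε1 : ε ≤ 1) :
    ∃ c : ℝ, 0 < c ∧ ∃ X0 : ℕ, ∀ X : ℕ, X0 ≤ X → ∀ K : ℕ,
    (Real.log X) ^ 2 ≤ K → (K : ℝ) ≤ c * X →
    c * X ≤ (((Finset.Icc 1 X).filter (fun n =>
      ((1 - ε) * (2 * C₂ * hlF n) + c) *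
        ((K : ℝ) ^ 2 / 2 * ((Nat.primeCounting X : ℝ) / X) ^ 2) ≤ wRep K n)).card : ℝ) := by
  obtain ⟨C2, hC2, hup⟩ := first_moment_upper
  obtain ⟨C3, hC3, X3, hq⟩ := quadBound
  set D : ℝ := C2 + 2 * C3 with hD
  have hD0 : 0 < D := by positivity
  set c : ℝ := min (ε / 16) (ε ^ 2 / (160000 * D)) with hc
  have hc0 : 0 < c := by positivity
  have hcε : c ≤ ε / 16 := min_le_left _ _
  have hcD : c ≤ ε ^ 2 / (160000 * D) := min_le_right _ _
  have hev : ∀ᶠ X : ℕ in atTop, X3 ≤ X ∧ 3 ≤ X ∧ 320 / ε ≤ Real.log X ∧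
      160 / ε ≤ (X : ℝ) / Real.log X := by
    have t1 : Tendsto (fun X : ℕ => Real.log (X : ℝ)) atTop atTop :=
      Real.tendsto_log_atTop.comp tendsto_natCast_atTop_atTop
    have t2 : Tendsto (fun x : ℝ => x / Real.log x) atTop atTop := by
      have h := Real.isLittleO_log_id_atTop
      have h2 : Tendsto (fun x : ℝ => Real.log x / x) atTop (𝓝[>] 0) := by
        refine tendsto_nhdsWithin_iff.mpr ⟨?_, ?_⟩
        · exact h.tendsto_div_nhds_zero
        · filter_upwards [eventually_gt_atTop 1] with x hx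
          exact div_pos (Real.log_pos hx) (by linarith)
      have h3 := h2.inv_tendsto_nhdsGT_zero
      refine h3.congr fun x => ?_
      simp [inv_div]
    filter_upwards [eventually_ge_atTop X3, eventually_ge_atTop 3, t1.eventually_ge_atTop (320 / ε),
      (t2.comp tendsto_natCast_atTop_atTop).eventually_ge_atTop (160 / ε)] with X h1 h2 h3 h4
    exact ⟨h1, h2, h3, h4⟩
  obtain ⟨X0, hX0⟩ := eventually_atTop.mp hev
  refine ⟨c, hc0, X0, fun X hX K hK1 hK2 => ?_⟩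
  obtain ⟨hXX3, hX3, hLε, hXL⟩ := hX0 X hX
  have hXr : (3 : ℝ) ≤ X := by exact_mod_cast hX3
  have hXpos : (0 : ℝ) < X := by linarith
  set L := Real.log (X : ℝ) with hLdef
  have hL : 0 < L := Real.log_pos (by linarith)
  have hK0 : (0 : ℝ) < K := lt_of_lt_of_le (by positivity) hK1
  have hKN : 1 ≤ K := by exact_mod_cast hK0
  have hKX : K ≤ X := by
    have h1 : (K : ℝ) ≤ X := by
      refine hK2.trans ?_
      have : c ≤ 1 := by linarith
      nlinarith
    exact_mod_cast h1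
  set W : ℝ := (Nat.primeCounting X : ℝ) with hW
  set s : ℝ := ((oddPrimes X).card : ℝ) with hs
  have hWlow : (1 / 10 : ℝ) * X / L ≤ W := primeCounting_ge X (by omega)
  have hWup : W ≤ s + 1 := by
    rw [hW, hs]
    exact_mod_cast card_oddPrimes_add_one X
  have hW0 : 0 < W := lt_of_lt_of_le (by positivity) hWlow
  have hs0 : 0 ≤ s := Nat.cast_nonneg _
  -- `s ≥ (1 - ε/16) W`
  have hsW : (1 - ε / 16) * W ≤ s := by
    have h1 : 1 ≤ ε / 16 * W := by
      have h2 : (1 / 10 : ℝ) * (160 / ε) ≤ W := by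
        refine le_trans ?_ hWlow
        have : (1 / 10 : ℝ) * X / L = (1 / 10 : ℝ) * (X / L) := by ring
        rw [this]
        gcongr
      calc (1 : ℝ) = ε / 16 * ((1 / 10 : ℝ) * (160 / ε)) := by field_simp; norm_num
        _ ≤ ε / 16 * W := by gcongr
    linarith
  have hsX : s ≤ X := by
    have h1 : (oddPrimes X).card ≤ X := by
      calc (oddPrimes X).card ≤ (Icc 1 X).card := by
            apply Finset.card_le_card
            intro p hp
            obtain ⟨h1, h2, h3⟩ := mem_oddPrimes' hp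
            exact mem_Icc.mpr ⟨h1.one_lt.le, h3⟩
        _ = X := by simp
    rw [hs]
    exact_mod_cast h1
  -- first moment
  set S : ℝ := ∑ n ∈ Icc 1 X, wRep K n with hS
  have hfm := first_moment_sharp X K
  rw [← hS, ← hs] at hfm
  set T : ℝ := (K : ℝ) ^ 2 * W ^ 2 / X with hT
  have hT0 : 0 < T := by positivity
  -- the diagonal: `K s / 2 ≤ (ε/16) T`
  have hdiag : (K : ℝ) * s / 2 ≤ ε / 16 * T := by
    have h1 : s ≤ W := by
      have : (oddPrimes X).card ≤ Nat.primeCounting X := by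
        rw [← Nat.primesLE_card_eq_primeCounting X]
        apply Finset.card_le_card
        intro p hp
        obtain ⟨h1, h2, h3⟩ := mem_oddPrimes' hp
        rw [Nat.mem_primesLE]
        exact ⟨h3, h1⟩
      rw [hW, hs]
      exact_mod_cast this
    have h2 : 8 * X ≤ ε * (K * W) := by
      calc 8 * (X : ℝ) ≤ ε * (L ^ 2 * ((1 / 10 : ℝ) * X / L)) := by
            have e : ε * (L ^ 2 * ((1 / 10 : ℝ) * X / L)) = (1 / 10) * X * (ε * L) := by
              field_simp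
            rw [e]
            have h3 : 320 ≤ ε * L := by
              rw [div_le_iff₀ hε] at hLε
              linarith
            nlinarith
        _ ≤ ε * (K * W) := by gcongr
    calc (K : ℝ) * s / 2 ≤ K * W / 2 := by gcongr
      _ = (8 * X) * (K * W) / (16 * X) := by field_simp; norm_num
      _ ≤ (ε * (K * W)) * (K * W) / (16 * X) := by gcongr
      _ = ε / 16 * T := by rw [hT]; field_simp
  have hSlow : (1 - ε / 2) * T ≤ S := by
    have h1 : (1 - ε / 16) ^ 2 * T ≤ (1 + ε / 8) * (S + ε / 16 * T) := by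
      have h2 : (K : ℝ) ^ 2 * s ^ 2 ≤ (X * (1 + ε / 8)) * (S + ε / 16 * T) := by
        refine hfm.trans ?_
        have h3 : (X : ℝ) + 2 * K ≤ X * (1 + ε / 8) := by nlinarith
        have hS0 : 0 ≤ S := Finset.sum_nonneg fun n _ => wRep_nonneg K n
        gcongr
      have h4 : (K : ℝ) ^ 2 * ((1 - ε / 16) * W) ^ 2 ≤ (K : ℝ) ^ 2 * s ^ 2 := by
        have : 0 ≤ (1 - ε / 16) * W := mul_nonneg (by linarith) hW0.le
        gcongr
      have h5 : (K : ℝ) ^ 2 * ((1 - ε / 16) * W) ^ 2 = X * ((1 - ε / 16) ^ 2 * T) := by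
        rw [hT]; field_simp
      have h6 : X * ((1 - ε / 16) ^ 2 * T) ≤ X * ((1 + ε / 8) * (S + ε / 16 * T)) := by
        rw [← h5]; linarith
      exact le_of_mul_le_mul_left h6 hXpos
    -- `(1 - ε/2)(1 + ε/8) + (1+ε/8) ε/16 ≤ (1 - ε/16)^2`
    have h7 : (1 + ε / 8) * ((1 - ε / 2) * T) ≤ (1 + ε / 8) * S := by
      have h8 : (1 + ε / 8) * (1 - ε / 2) + (1 + ε / 8) * (ε / 16) ≤ (1 - ε / 16) ^ 2 := by
        nlinarith
      nlinarith
    exact le_of_mul_le_mul_left h7 (by linarith)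
  -- the comparison function
  set m : ℝ := (K : ℝ) ^ 2 / 2 * (W / X) ^ 2 with hm
  have hm0 : 0 ≤ m := by positivity
  have hmT : X * m = T / 2 := by rw [hm, hT]; field_simp
  set g : ℕ → ℝ := fun n => ((1 - ε) * (2 * C₂ * hlF n) + c) * m with hg
  have hg0 : ∀ n ∈ Finset.Icc 1 X, 0 ≤ g n := by
    intro n _
    have h1 := hlF_nonneg n
    have h2 : 0 ≤ 1 - ε := by linarith
    have h3 : 0 ≤ (1 - ε) * (2 * C₂ * hlF n) := by positivity
    exact mul_nonneg (by linarith) hm0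
  have hsumg : ∑ n ∈ Finset.Icc 1 X, g n ≤ (1 - ε) * T + c * T := by
    have h1 := sum_hlF_le C₂ hC0.le hC₂ X
    have h2 : ∑ n ∈ Finset.Icc 1 X, g n =
        (1 - ε) * (2 * (C₂ * ∑ n ∈ Finset.Icc 1 X, hlF n)) * m + c * (X * m) := by
      rw [hg, ← Finset.sum_mul, Finset.sum_add_distrib, Finset.sum_const, Nat.card_Icc,
        ← Finset.mul_sum, ← Finset.mul_sum]
      simp
      ring
    rw [h2]
    have h3 : (1 - ε) * (2 * (C₂ * ∑ n ∈ Finset.Icc 1 X, hlF n)) * m ≤ (1 - ε) * (2 * X) * m := by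
      have : 0 ≤ 1 - ε := by linarith
      gcongr
    have h4 : (1 - ε) * (2 * X) * m = (1 - ε) * T := by
      have : (1 - ε) * (2 * X) * m = (1 - ε) * (2 * (X * m)) := by ring
      rw [this, hmT]; ring
    have h5 : c * (X * m) ≤ c * T := by
      rw [hmT]
      gcongr
      linarith
    linarith
  have hfirst : ε / 4 * T ≤ ∑ n ∈ Finset.Icc 1 X, (wRep K n - g n) := by
    rw [Finset.sum_sub_distrib, ← hS]
    have h3 : c * T ≤ ε / 16 * T := by gcongr
    nlinarith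
  have hpp := positive_part (Finset.Icc 1 X) (fun n => wRep K n) g hg0
    (ε / 4 * T) (by positivity) hfirst
  -- second moment
  have hS2 : ∑ n ∈ Icc 1 X, (wRep K n) ^ 2 ≤ D * X * (K : ℝ) ^ 4 / L ^ 4 := by
    have h1 : ∑ n ∈ Icc 1 X, (wRep K n) ^ 2 ≤ (K : ℝ) ^ 2 * ∑ n ∈ Icc 1 X, ((balRep K n : ℕ) : ℝ) ^ 2 := by
      rw [Finset.mul_sum]
      refine Finset.sum_le_sum fun n _ => ?_
      calc (wRep K n) ^ 2 ≤ (K * (balRep K n : ℝ)) ^ 2 :=
            pow_le_pow_left₀ (wRep_nonneg K n) (wRep_le K n) 2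
        _ = _ := by ring
    have h2 : ∑ n ∈ Icc 1 X, ((balRep K n : ℕ) : ℝ) ^ 2 =
        ((∑ n ∈ Icc 1 X, balRep K n : ℕ) : ℝ) +
        2 * ((∑ k ∈ Icc 1 K, ∑ k' ∈ (Icc 1 K).filter (fun k' => k < k'),
          quadCount X k k' : ℕ) : ℝ) := by
      have := congrArg (fun t : ℕ => (t : ℝ)) (sum_balRep_sq X K)
      push_cast at this ⊢
      rw [this]
    have h3 := hup X (by omega) K
    have h4 := hq X hXX3 K hKN hKX
    have hr : 1 ≤ (K : ℝ) / L ^ 2 := by rw [one_le_div (by positivity)]; exact hK1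
    have h5 : C2 * X * K / L ^ 2 ≤ C2 * X * (K : ℝ) ^ 2 / L ^ 4 := by
      have : C2 * X * (K : ℝ) ^ 2 / L ^ 4 = (C2 * X * K / L ^ 2) * (K / L ^ 2) := by
        field_simp
      rw [this]
      exact le_mul_of_one_le_right (by positivity) hr
    calc ∑ n ∈ Icc 1 X, (wRep K n) ^ 2
        ≤ (K : ℝ) ^ 2 * ∑ n ∈ Icc 1 X, ((balRep K n : ℕ) : ℝ) ^ 2 := h1
      _ ≤ (K : ℝ) ^ 2 * (C2 * X * (K : ℝ) ^ 2 / L ^ 4 + 2 * (C3 * X * (K : ℝ) ^ 2 / L ^ 4)) := by
          rw [h2]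
          gcongr
          exact h3.trans h5
      _ = _ := by rw [hD]; ring
  set G := (((Finset.Icc 1 X).filter (fun n => g n ≤ wRep K n)).card : ℝ) with hG
  have hG0 : 0 ≤ G := Nat.cast_nonneg _
  have h5 : (ε / 4 * ((K : ℝ) ^ 2 * ((1 / 10 : ℝ) * X / L) ^ 2 / X)) ^ 2
      ≤ G * (D * X * (K : ℝ) ^ 4 / L ^ 4) := by
    calc (ε / 4 * ((K : ℝ) ^ 2 * ((1 / 10 : ℝ) * X / L) ^ 2 / X)) ^ 2
        ≤ (ε / 4 * T) ^ 2 := by rw [hT]; gcongr
      _ ≤ _ := hpp
      _ ≤ _ := by gcongr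
  have h6 : ε ^ 2 * X ≤ 160000 * D * G := by
    have e1 : (ε / 4 * ((K : ℝ) ^ 2 * ((1 / 10 : ℝ) * X / L) ^ 2 / X)) ^ 2
        = (X * (K : ℝ) ^ 4 / L ^ 4) * ((1 / 160000) * (ε ^ 2 * X)) := by
      field_simp
      norm_num
    have e2 : G * (D * X * (K : ℝ) ^ 4 / L ^ 4)
        = (X * (K : ℝ) ^ 4 / L ^ 4) * (D * G) := by ring
    rw [e1, e2] at h5
    have hpos : 0 < X * (K : ℝ) ^ 4 / L ^ 4 := by positivity
    have := le_of_mul_le_mul_left h5 hpos
    linarith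
  calc c * X ≤ ε ^ 2 / (160000 * D) * X := by gcongr
    _ = (ε ^ 2 * X) / (160000 * D) := by ring
    _ ≤ (160000 * D * G) / (160000 * D) := by gcongr
    _ = G := by field_simp

end Pool.Agent.Lib.MP_7b7e48_nt
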