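import Mathlib
import Pool.Agent.Lib.Sieve.CoveringApply

/-!
# Sets of small shifts that are too small to reach every even number

Quantitative Erdős–Rankin: a set `Q ⊆ [1, log X (log log X)^B]` with at most
`c log X log₂ X log₄ X / (log₃ X)^2` elements misses at least `X^{1-ε}` of the `n ≤ X`.
-/

open Finset Filter

namespace Pool.Agent.Lib.MP_7b7e48_nt.FewSmallPrimes

open Pool.Agent.Lib.Sieve

/-- Many integers in a residue class avoiding primes at all given shifts. -/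
theorem count_of_cover (z Y N₀ X : ℕ) (hz : 2 ≤ z) (A : Finset ℕ) (hA : ∀ a ∈ A, a ≤ Y)
    (hN2 : 2 ∣ N₀) (hN : ∀ a ∈ A, ∃ r : ℕ, r.Prime ∧ r ≤ z ∧ N₀ ≡ a [MOD r]) :
    X / 4 ^ z ≤ ((Finset.Icc 1 X).filter (fun n => ∀ a ∈ A, ¬ (2 * n - a).Prime)).card +
      (z + Y + 1) := by
  set P := primorial z with hP
  have hPpos : 0 < P := primorial_pos z
  have hP4 : P ≤ 4 ^ z := primorial_le_four_pow z
  have hdvd : ∀ r : ℕ, r.Prime → r ≤ z → r ∣ P := fun r hr hrz =>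
    (Nat.Prime.dvd_primorial_iff hr).mpr hrz
  obtain ⟨n₀, rfl⟩ := hN2
  set ρ := n₀ % P with hρ
  have hρP : ρ < P := Nat.mod_lt _ hPpos
  -- the map `j ↦ ρ + P * j`
  have hinj : Set.InjOn (fun j : ℕ => ρ + P * j) (Finset.Ico (z + Y + 1) (X / P)) := by
    intro a _ b _ hab
    have hab : ρ + P * a = ρ + P * b := hab
    have : P * a = P * b := by omega
    exact Nat.eq_of_mul_eq_mul_left hPpos this
  have hmaps : ∀ j ∈ Finset.Ico (z + Y + 1) (X / P), ρ + P * j ∈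
      (Finset.Icc 1 X).filter (fun n => ∀ a ∈ A, ¬ (2 * n - a).Prime) := by
    intro j hj
    rw [Finset.mem_Ico] at hj
    have hj1 : j ≤ P * j := Nat.le_mul_of_pos_left _ hPpos
    have hjX : P * (j + 1) ≤ X :=
      (Nat.mul_le_mul_left _ (by omega)).trans (Nat.mul_div_le X P)
    rw [Finset.mem_filter, Finset.mem_Icc]
    refine ⟨⟨by omega, by rw [mul_add, mul_one] at hjX; omega⟩, ?_⟩
    intro a ha hprime
    obtain ⟨r, hr, hrz, hmr⟩ := hN a ha
    have haY := hA a ha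
    have h0 : ρ + P * j ≡ n₀ [MOD r] := by
      have h1 : ρ ≡ n₀ [MOD r] := (Nat.mod_modEq n₀ P).of_dvd (hdvd r hr hrz)
      have h2 : P * j ≡ 0 [MOD r] :=
        (Nat.modEq_zero_iff_dvd).mpr ((hdvd r hr hrz).mul_right _)
      simpa using h1.add h2
    have h1 : 2 * (ρ + P * j) ≡ a [MOD r] := (h0.mul_left 2).trans hmr
    have h2 : r ∣ 2 * (ρ + P * j) - a := (Nat.modEq_iff_dvd' (by omega)).mp h1.symm
    have h3 := (Nat.prime_dvd_prime_iff_eq hr hprime).mp h2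
    omega
  have hcard := Finset.card_le_card_of_injOn _ hmaps hinj
  rw [Nat.card_Ico] at hcard
  have h4 : X / 4 ^ z ≤ X / P := Nat.div_le_div_left hP4 hPpos
  omega

theorem main_small (B : ℕ) (ε : ℝ) (hε : 0 < ε) (hε1 : ε ≤ 1) :
    ∃ c : ℝ, 0 < c ∧ ∃ X₀ : ℕ, ∀ X : ℕ, X₀ ≤ X →
    ∀ Q : Finset ℕ, (∀ q ∈ Q, 1 ≤ q ∧ (q : ℝ) ≤ Real.log X * (Real.log (Real.log X)) ^ B) →
      (Q.card : ℝ) ≤ c * Real.log X * Real.log (Real.log X) *
        Real.log (Real.log (Real.log (Real.log X))) / (Real.log (Real.log (Real.log X))) ^ 2 →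
      (X : ℝ) ^ (1 - ε) ≤
        (((Finset.Icc 1 X).filter (fun n => ∀ q ∈ Q, ¬ (2 * n - q).Prime)).card : ℝ) := by
  obtain ⟨c₀, hc₀, z₁, hcov⟩ := covering_main (B + 1 : ℕ) (by positivity)
  -- `K` bounds `log X / z`
  set K : ℝ := 4 / ε with hK
  have hK4 : 4 ≤ K := by
    rw [hK, le_div_iff₀ hε]; linarith
  obtain ⟨z₂, hz₂⟩ := eventually_logs (K * 2 ^ B)
  have hlogat : Tendsto (fun X : ℕ => Real.log X) atTop atTop :=
    Real.tendsto_log_atTop.comp tendsto_natCast_atTop_atTop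
  have hev1 : ∀ᶠ X : ℕ in atTop,
      (2 / ε) * ((max (max z₁ z₂) 10000 : ℕ) + 1 : ℝ) ≤ Real.log X :=
    hlogat.eventually_ge_atTop _
  -- `X^{1-ε}` is small compared with `X^{1-0.7 ε}`
  have hev2 : ∀ᶠ X : ℕ in atTop, 10 * (Real.log X) ^ (B + 2) ≤ (X : ℝ) ^ (ε / 10) := by
    have h := isLittleO_log_rpow_rpow_atTop (s := ε / 10) ((B + 2 : ℕ) : ℝ) (by positivity)
    have h2 := h.def (c := 1 / 10) (by norm_num)
    have h3 := tendsto_natCast_atTop_atTop.eventually h2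
    filter_upwards [h3, eventually_ge_atTop 3] with X hX hX3
    have hX1 : (1 : ℝ) ≤ X := by exact_mod_cast (by omega : 1 ≤ X)
    rw [Real.norm_of_nonneg (Real.rpow_nonneg (Real.log_nonneg hX1) _),
      Real.norm_of_nonneg (by positivity), Real.rpow_natCast] at hX
    linarith
  obtain ⟨X₀, hX₀⟩ := eventually_atTop.mp (hev1.and (hev2.and (eventually_ge_atTop 3)))
  refine ⟨c₀ / (4 * K), by positivity, X₀, fun X hX Q hQ hQc => ?_⟩
  obtain ⟨hX1, hX2, hX3⟩ := hX₀ X hX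
  set x := Real.log X with hx
  set z : ℕ := ⌊x * (ε / 2)⌋₊ with hz
  have hxge : ((max (max z₁ z₂) 10000 : ℕ) : ℝ) + 1 ≤ x * (ε / 2) := by
    have h1 : ((max (max z₁ z₂) 10000 : ℕ) : ℝ) + 1 =
        ((2 / ε) * ((max (max z₁ z₂) 10000 : ℕ) + 1 : ℝ)) * (ε / 2) := by
      field_simp
    rw [h1]
    gcongr
  have hzmax : max (max z₁ z₂) 10000 ≤ z := by
    apply Nat.le_floor
    linarith
  have hzz₁ : z₁ ≤ z := ((le_max_left _ _).trans (le_max_left _ _)).trans hzmax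
  have hzz₂ : z₂ ≤ z := ((le_max_right _ _).trans (le_max_left _ _)).trans hzmax
  have hz10 : 10000 ≤ z := (le_max_right _ _).trans hzmax
  have hzr : (10000 : ℝ) ≤ z := by exact_mod_cast hz10
  have hz0 : (0 : ℝ) < z := by linarith
  have hXr : (3 : ℝ) ≤ X := by exact_mod_cast hX3
  have hX0 : (0 : ℝ) < X := by linarith
  have hx0 : 0 ≤ x := Real.log_natCast_nonneg X
  have hzx : (z : ℝ) ≤ x * (ε / 2) := Nat.floor_le (by positivity)
  have hxz : x * (ε / 2) < (z : ℝ) + 1 := Nat.lt_floor_add_one _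
  have hxz' : x ≤ K * z := by
    have h1 : x * (ε / 2) ≤ 2 * z := by linarith
    have h2 : x = (x * (ε / 2)) * (2 / ε) := by field_simp
    rw [h2, hK]
    calc (x * (ε / 2)) * (2 / ε) ≤ (2 * z) * (2 / ε) := by gcongr
      _ = 4 / ε * z := by ring
  have hzx' : (z : ℝ) ≤ x := by
    refine hzx.trans ?_
    nlinarith
  clear_value z
  obtain ⟨hL1, hL2, hcL2, hL3⟩ := hz₂ z hzz₂
  have hcov := hcov z hzz₁
  set L1 := Real.log z with hL1def
  set L2 := Real.log L1 with hL2def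
  set L3 := Real.log L2 with hL3def
  have hzexp : (z : ℝ) = Real.exp L1 := (Real.exp_log hz0).symm
  have hL1exp : L1 = Real.exp L2 := (Real.exp_log hL1).symm
  have hL2exp : L2 = Real.exp L3 := (Real.exp_log hL2).symm
  have hL3pos : 0 < L3 := by linarith
  have hL1L2 : L2 + 1 ≤ L1 := by
    have := Real.add_one_le_exp L2
    rwa [← hL1exp] at this
  have hL2L3 : L3 + 1 ≤ L2 := by
    have := Real.add_one_le_exp L3
    rwa [← hL2exp] at this
  have hKL1 : K * 2 ^ B ≤ L1 := by linarith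
  have hKL1' : K ≤ L1 := by
    refine le_trans ?_ hKL1
    have : (1 : ℝ) ≤ 2 ^ B := one_le_pow₀ (by norm_num)
    nlinarith
  -- comparisons of iterated logarithms of `X` with those of `z`
  have hlogK : Real.log K ≤ L1 := by
    have := Real.log_le_sub_one_of_pos (show (0 : ℝ) < K by linarith)
    linarith
  have hx1 : L1 ≤ Real.log x := Real.log_le_log hz0 hzx'
  have hx2 : Real.log x ≤ 2 * L1 := by
    calc Real.log x ≤ Real.log (K * z) := Real.log_le_log (by linarith) hxz'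
      _ = Real.log K + L1 := Real.log_mul (by linarith) hz0.ne'
      _ ≤ 2 * L1 := by linarith
  have hlog2 : Real.log 2 ≤ 1 := by
    have := Real.log_two_lt_d9
    linarith
  have hx3 : L2 ≤ Real.log (Real.log x) := Real.log_le_log hL1 hx1
  have hx4 : Real.log (Real.log x) ≤ 2 * L2 := by
    calc Real.log (Real.log x) ≤ Real.log (2 * L1) := Real.log_le_log (by linarith) hx2
      _ = Real.log 2 + L2 := Real.log_mul (by norm_num) hL1.ne'
      _ ≤ 2 * L2 := by linarith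
  have hx5 : Real.log (Real.log (Real.log x)) ≤ 2 * L3 := by
    calc Real.log (Real.log (Real.log x)) ≤ Real.log (2 * L2) :=
          Real.log_le_log (by linarith) hx4
      _ = Real.log 2 + L3 := Real.log_mul (by norm_num) hL2.ne'
      _ ≤ 2 * L3 := by linarith
  -- the interval
  set T : ℝ := x * (Real.log x) ^ B with hT
  have hlx0' : 0 ≤ Real.log x := by linarith
  have hT0 : 0 ≤ T := by positivity
  set Y : ℕ := ⌊T⌋₊ with hY
  have hYT : (Y : ℝ) ≤ T := Nat.floor_le hT0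
  have hQY : ∀ q ∈ Q, q ≤ Y := fun q hq => Nat.le_floor (hQ q hq).2
  have hYle : (Y : ℝ) ≤ z * L1 ^ ((B + 1 : ℕ) : ℝ) := by
    rw [Real.rpow_natCast]
    calc (Y : ℝ) ≤ x * (Real.log x) ^ B := hYT
      _ ≤ (K * z) * (2 * L1) ^ B := by gcongr
      _ = z * L1 ^ B * (K * 2 ^ B) := by rw [mul_pow]; ring
      _ ≤ z * L1 ^ B * L1 := by gcongr
      _ = z * L1 ^ (B + 1) := by ring
  have hsub : Q ⊆ Finset.Icc 1 Y := fun q hq => Finset.mem_Icc.mpr ⟨(hQ q hq).1, hQY q hq⟩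
  have hcard : (Q.card : ℝ) ≤ c₀ * z * L1 * L3 / L2 ^ 2 := by
    refine hQc.trans ?_
    have hlx0 : 0 ≤ Real.log x := by linarith
    calc c₀ / (4 * K) * x * Real.log x * Real.log (Real.log (Real.log x)) /
          (Real.log (Real.log x)) ^ 2
        ≤ c₀ / (4 * K) * x * Real.log x * (2 * L3) / (Real.log (Real.log x)) ^ 2 := by gcongr
      _ ≤ c₀ / (4 * K) * (K * z) * (2 * L1) * (2 * L3) / (Real.log (Real.log x)) ^ 2 := by
          gcongr
      _ ≤ c₀ / (4 * K) * (K * z) * (2 * L1) * (2 * L3) / L2 ^ 2 := by gcongr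
      _ = c₀ * z * L1 * L3 / L2 ^ 2 := by
          have : K ≠ 0 := by linarith
          field_simp
          ring
  obtain ⟨N₀, hN2, hN⟩ := hcov Y hYle Q hsub hcard
  have hcount := count_of_cover z Y N₀ X (by omega) Q hQY hN2 hN
  have hcount' : ((X / 4 ^ z : ℕ) : ℝ) ≤
      (((Finset.Icc 1 X).filter (fun n => ∀ q ∈ Q, ¬ (2 * n - q).Prime)).card : ℝ) +
      (z + Y + 1) := by exact_mod_cast hcount
  have hdiv : (X : ℝ) / 4 ^ z ≤ ((X / 4 ^ z : ℕ) : ℝ) + 1 := by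
    have h1 : (X : ℝ) / ((4 ^ z : ℕ) : ℝ) < ((X / 4 ^ z : ℕ) : ℝ) + 1 := by
      rw [← Nat.floor_div_eq_div (K := ℝ)]
      exact Nat.lt_floor_add_one _
    push_cast at h1
    exact h1.le
  -- sizes
  have hlog4u : Real.log 4 ≤ 7 / 5 := by
    have h1 : Real.log 4 = 2 * Real.log 2 := by
      rw [show (4 : ℝ) = 2 ^ 2 by norm_num, Real.log_pow]; norm_num
    have := Real.log_two_lt_d9
    rw [h1]; linarith
  have h4z : (4 : ℝ) ^ z ≤ (X : ℝ) ^ (7 / 10 * ε) := by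
    rw [← Real.log_le_log_iff (by positivity) (by positivity), Real.log_pow,
      Real.log_rpow hX0, ← hx]
    calc (z : ℝ) * Real.log 4 ≤ (x * (ε / 2)) * (7 / 5) := by gcongr
      _ = 7 / 10 * ε * x := by ring
  have hbig : (X : ℝ) ^ (1 - 7 / 10 * ε) ≤ (X : ℝ) / 4 ^ z := by
    rw [le_div_iff₀ (by positivity)]
    calc (X : ℝ) ^ (1 - 7 / 10 * ε) * 4 ^ z
        ≤ (X : ℝ) ^ (1 - 7 / 10 * ε) * (X : ℝ) ^ (7 / 10 * ε) := by gcongr
      _ = X := by rw [← Real.rpow_add hX0]; simp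
  have hsplit : (X : ℝ) ^ (1 - 7 / 10 * ε) = (X : ℝ) ^ (1 - 8 / 10 * ε) * (X : ℝ) ^ (ε / 10) := by
    rw [← Real.rpow_add hX0]; congr 1; ring
  have hlx1 : 1 ≤ Real.log x := by linarith
  have hlxx : Real.log x ≤ x := by
    have := Real.log_le_sub_one_of_pos (show (0 : ℝ) < x by linarith)
    linarith
  have hx1' : 1 ≤ x := by linarith
  have hTle : T ≤ x ^ (B + 1) := by
    calc T ≤ x * x ^ B := by rw [hT]; gcongr
      _ = x ^ (B + 1) := by ring
  have hxp1 : x ≤ x ^ (B + 2) := le_self_pow₀ hx1' (by omega)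
  have hxp2 : x ^ (B + 1) ≤ x ^ (B + 2) := pow_le_pow_right₀ hx1' (by omega)
  have hxp3 : 1 ≤ x ^ (B + 2) := one_le_pow₀ hx1'
  have hXe : (1 : ℝ) ≤ (X : ℝ) ^ (1 - 8 / 10 * ε) :=
    Real.one_le_rpow (by linarith) (by linarith)
  have hXe' : (X : ℝ) ^ (1 - ε) ≤ (X : ℝ) ^ (1 - 8 / 10 * ε) :=
    Real.rpow_le_rpow_of_exponent_le (by linarith) (by linarith)
  have hfin : (X : ℝ) ^ (1 - ε) + (z + Y + 2) ≤ (X : ℝ) ^ (1 - 7 / 10 * ε) := by
    rw [hsplit]
    have h1 : (z : ℝ) + Y + 2 ≤ 4 * x ^ (B + 2) := by linarith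
    calc (X : ℝ) ^ (1 - ε) + (z + Y + 2)
        ≤ (X : ℝ) ^ (1 - 8 / 10 * ε) * x ^ (B + 2) +
          (X : ℝ) ^ (1 - 8 / 10 * ε) * (4 * x ^ (B + 2)) := by
          have h2 : (X : ℝ) ^ (1 - ε) ≤ (X : ℝ) ^ (1 - 8 / 10 * ε) * x ^ (B + 2) := by
            calc (X : ℝ) ^ (1 - ε) ≤ (X : ℝ) ^ (1 - 8 / 10 * ε) * 1 := by rw [mul_one]; exact hXe'
              _ ≤ _ := by gcongr
          have h3 : (z : ℝ) + Y + 2 ≤ (X : ℝ) ^ (1 - 8 / 10 * ε) * (4 * x ^ (B + 2)) := by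
            calc (z : ℝ) + Y + 2 ≤ 1 * (4 * x ^ (B + 2)) := by linarith
              _ ≤ _ := by gcongr
          linarith
      _ ≤ (X : ℝ) ^ (1 - 8 / 10 * ε) * (10 * x ^ (B + 2)) := by
          have h4 : 0 ≤ (X : ℝ) ^ (1 - 8 / 10 * ε) * x ^ (B + 2) := by positivity
          nlinarith
      _ ≤ (X : ℝ) ^ (1 - 8 / 10 * ε) * (X : ℝ) ^ (ε / 10) := by gcongr
  linarith

theorem main (B : ℕ) (ε : ℝ) (hε : 0 < ε) :
    ∃ c : ℝ, 0 < c ∧ ∃ X₀ : ℕ, ∀ X : ℕ, X₀ ≤ X →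
    ∀ Q : Finset ℕ, (∀ q ∈ Q, 1 ≤ q ∧ (q : ℝ) ≤ Real.log X * (Real.log (Real.log X)) ^ B) →
      (Q.card : ℝ) ≤ c * Real.log X * Real.log (Real.log X) *
        Real.log (Real.log (Real.log (Real.log X))) / (Real.log (Real.log (Real.log X))) ^ 2 →
      (X : ℝ) ^ (1 - ε) ≤
        (((Finset.Icc 1 X).filter (fun n => ∀ q ∈ Q, ¬ (2 * n - q).Prime)).card : ℝ) := by
  obtain ⟨c, hc, X₀, h⟩ := main_small B (min ε 1) (lt_min hε one_pos) (min_le_right _ _)
  refine ⟨c, hc, max X₀ 1, fun X hX Q hQ hQc => le_trans ?_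
    (h X ((le_max_left _ _).trans hX) Q hQ hQc)⟩
  have hX1 : (1 : ℝ) ≤ X := by exact_mod_cast (le_max_right _ _).trans hX
  exact Real.rpow_le_rpow_of_exponent_le hX1 (by linarith [min_le_left ε 1])

end Pool.Agent.Lib.MP_7b7e48_nt.FewSmallPrimes
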