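import Mathlib

/-!
# Sharp local inequality, part A: constants, the one variable inequality, the potential lemma
-/

namespace MP_7b7e48_nt.LocalSharp

open Real Finset

theorem conv2 {c : ℝ} (hc : 1 ≤ c) {x y a b : ℝ} (hx : 0 ≤ x) (hy : 0 ≤ y) (ha : 0 ≤ a)
    (hb : 0 ≤ b) (hab : a + b = 1) : (a * x + b * y) ^ c ≤ a * x ^ c + b * y ^ c := by
  have := (convexOn_rpow hc).2 (Set.mem_Ici.2 hx) (Set.mem_Ici.2 hy) ha hb hab
  simpa [smul_eq_mul] using this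

/-- the exponents used: `c = log (n+1) / log n`, `r = 2 / c`. -/
structure Expo (n : ℕ) (c r : ℝ) : Prop where
  hn : 4 ≤ n
  hc1 : 1 ≤ c
  hc2 : c ≤ 7 / 6
  hrc : r * c = 2
  hpow : (n : ℝ) ^ c = n + 1

theorem expo_exists (n : ℕ) (hn : 4 ≤ n) :
    Expo n (Real.log (n + 1) / Real.log n) (2 * Real.log n / Real.log (n + 1)) := by
  have hn' : (4 : ℝ) ≤ n := by exact_mod_cast hn
  have hl : 0 < Real.log n := Real.log_pos (by linarith)
  have hl1 : 0 < Real.log (n + 1) := Real.log_pos (by linarith)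
  have hle : Real.log n ≤ Real.log (n + 1) := Real.log_le_log (by linarith) (by linarith)
  refine ⟨hn, ?_, ?_, ?_, ?_⟩
  · rw [le_div_iff₀ hl]; linarith
  · rw [div_le_iff₀ hl]
    have h6 : ((n : ℝ) + 1) ^ 6 ≤ (n : ℝ) ^ 7 := by
      have h1 : (n : ℝ) + 1 ≤ 5 / 4 * n := by linarith
      calc ((n : ℝ) + 1) ^ 6 ≤ (5 / 4 * n) ^ 6 := by gcongr
        _ = (5 / 4) ^ 6 * (n : ℝ) ^ 6 := by ring
        _ ≤ 4 * (n : ℝ) ^ 6 := by gcongr; norm_num
        _ ≤ n * (n : ℝ) ^ 6 := by gcongr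
        _ = (n : ℝ) ^ 7 := by ring
    have h7 := Real.log_le_log (by positivity) h6
    rw [Real.log_pow, Real.log_pow] at h7
    push_cast at h7
    linarith
  · field_simp
  · rw [Real.rpow_def_of_pos (by linarith), mul_comm, div_mul_cancel₀ _ hl.ne']
    exact Real.exp_log (by linarith)

namespace Expo

variable {n : ℕ} {c r : ℝ}

theorem n4 (h : Expo n c r) : (4 : ℝ) ≤ n := by exact_mod_cast h.hn

theorem r_pos (h : Expo n c r) : 0 < r := by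
  have h1 := h.hc1
  have h2 := h.hrc
  by_contra hr
  rw [not_lt] at hr
  nlinarith

theorem r_le (h : Expo n c r) : r ≤ 2 := by
  have h1 := h.hc1
  have h2 := h.hrc
  have h3 := h.r_pos
  nlinarith

theorem r_ge (h : Expo n c r) : 12 / 7 ≤ r := by
  have h1 := h.hc2
  have h2 := h.hrc
  have h3 := h.r_pos
  nlinarith

/-- the constant `K`. -/
theorem K_le (h : Expo n c r) : ((2 : ℝ) ^ c - 1) * ((n : ℝ) - 1) ^ (2 - r) ≤ 2 := by
  have hn := h.n4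
  have h2c : (2 : ℝ) ^ c ≤ 9 / 4 := by
    have h1 : (2 : ℝ) ^ c ≤ 2 ^ ((7 : ℝ) / 6) :=
      Real.rpow_le_rpow_of_exponent_le (by norm_num) h.hc2
    have h2 : ((2 : ℝ) ^ ((7 : ℝ) / 6)) ^ 6 = 128 := by
      rw [← Real.rpow_natCast, ← Real.rpow_mul (by norm_num)]
      norm_num
    have h3 : (2 : ℝ) ^ ((7 : ℝ) / 6) ≤ 9 / 4 := by
      by_contra hcon
      rw [not_le] at hcon
      have : ((9 : ℝ) / 4) ^ 6 < ((2 : ℝ) ^ ((7 : ℝ) / 6)) ^ 6 := by gcongr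
      rw [h2] at this
      norm_num at this
    linarith
  have hdelta : 0 ≤ 2 - r := by linarith [h.r_le]
  have hN : ((n : ℝ) - 1) ^ (2 - r) ≤ 25 / 16 := by
    have h1 : ((n : ℝ) - 1) ^ (2 - r) ≤ (n : ℝ) ^ (2 - r) :=
      Real.rpow_le_rpow (by linarith) (by linarith) hdelta
    have h2 : (n : ℝ) ^ (2 - r) = ((n : ℝ) ^ (c - 1)) ^ r := by
      rw [← Real.rpow_mul (by linarith)]
      congr 1
      linarith [h.hrc]
    have h3 : (n : ℝ) ^ (c - 1) = (n + 1) / n := by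
      rw [Real.rpow_sub (by linarith), h.hpow, Real.rpow_one]
    have h4 : (1 : ℝ) ≤ ((n : ℝ) + 1) / n := by
      rw [le_div_iff₀ (by linarith)]; linarith
    have h5 : ((n : ℝ) + 1) / n ≤ 5 / 4 := by
      rw [div_le_iff₀ (by linarith)]; linarith
    have h6 : (((n : ℝ) + 1) / n) ^ r ≤ (((n : ℝ) + 1) / n) ^ (2 : ℝ) :=
      Real.rpow_le_rpow_of_exponent_le h4 h.r_le
    rw [Real.rpow_two] at h6
    have h7 : (((n : ℝ) + 1) / n) ^ 2 ≤ (5 / 4) ^ 2 := by gcongr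
    rw [h2, h3] at h1
    linarith
  have h0 : (0 : ℝ) ≤ ((n : ℝ) - 1) ^ (2 - r) := Real.rpow_nonneg (by linarith) _
  have h1 : (1 : ℝ) ≤ 2 ^ c := Real.one_le_rpow (by norm_num) (by linarith [h.hc1])
  nlinarith

theorem K_nonneg (h : Expo n c r) : 0 ≤ ((2 : ℝ) ^ c - 1) * ((n : ℝ) - 1) ^ (2 - r) := by
  have hn := h.n4
  have h0 : (0 : ℝ) ≤ ((n : ℝ) - 1) ^ (2 - r) := Real.rpow_nonneg (by linarith) _
  have h1 : (1 : ℝ) ≤ 2 ^ c := Real.one_le_rpow (by norm_num) (by linarith [h.hc1])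
  exact mul_nonneg (by linarith) h0

theorem K_mul_le (h : Expo n c r) :
    ((2 : ℝ) ^ c - 1) * ((n : ℝ) - 1) ^ (2 - r) * (2 - r) ≤ 1 := by
  have h1 := h.K_le
  have h2 := h.K_nonneg
  have h3 := h.r_ge
  have h4 := h.r_le
  nlinarith

/-- Lemma C: the one variable inequality. -/
theorem lemmaC (h : Expo n c r) {ρ : ℝ} (h0 : 0 ≤ ρ) (h1 : ρ ≤ 1) :
    (1 + ((n : ℝ) - 1) * ρ ^ r) ^ c ≤ 1 + ρ + ((n : ℝ) - 1) * ρ ^ 2 := by
  have hn := h.n4
  have hc0 : 0 < c := by linarith [h.hc1]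
  have hu0 : 0 ≤ ρ ^ r := Real.rpow_nonneg h0 _
  have huc : (ρ ^ r) ^ c = ρ ^ 2 := by
    rw [← Real.rpow_mul h0, h.hrc, Real.rpow_two]
  rcases le_or_gt 1 (((n : ℝ) - 1) * ρ) with hbig | hsmall
  · -- convexity
    have hcv := conv2 h.hc1 (x := (1 : ℝ)) (y := ρ ^ r) (by norm_num) hu0
      (a := 1 / (n : ℝ)) (b := ((n : ℝ) - 1) / n) (by positivity)
      (by apply div_nonneg <;> linarith) (by field_simp; ring)
    rw [huc, Real.one_rpow] at hcv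
    have hfac : (1 + ((n : ℝ) - 1) * ρ ^ r) = n * (1 / (n : ℝ) * 1 + ((n : ℝ) - 1) / n * ρ ^ r) := by
      field_simp
    have hnn : 0 ≤ 1 / (n : ℝ) * 1 + ((n : ℝ) - 1) / n * ρ ^ r := by
      have : 0 ≤ ((n : ℝ) - 1) / n := by apply div_nonneg <;> linarith
      positivity
    rw [hfac, Real.mul_rpow (by linarith) hnn, h.hpow]
    calc ((n : ℝ) + 1) * (1 / (n : ℝ) * 1 + ((n : ℝ) - 1) / n * ρ ^ r) ^ c
        ≤ ((n : ℝ) + 1) * (1 / (n : ℝ) * 1 + ((n : ℝ) - 1) / n * ρ ^ 2) := by gcongr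
      _ = 1 + ((n : ℝ) - 1) * ρ ^ 2 + (1 + ((n : ℝ) - 1) * ρ ^ 2) / n := by field_simp
      _ ≤ 1 + ((n : ℝ) - 1) * ρ ^ 2 + ρ := by
          have : (1 + ((n : ℝ) - 1) * ρ ^ 2) / n ≤ ρ := by
            rw [div_le_iff₀ (by linarith)]
            nlinarith
          linarith
      _ = _ := by ring
  · set t : ℝ := ((n : ℝ) - 1) * ρ with ht
    have ht0 : 0 ≤ t := mul_nonneg (by linarith) h0
    have hr1 : 0 ≤ r - 1 := by linarith [h.r_ge]
    have hsplit : ((n : ℝ) - 1) * ρ ^ r = ρ * (((n : ℝ) - 1) ^ (2 - r) * t ^ (r - 1)) := by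
      rw [ht, Real.mul_rpow (by linarith) h0]
      have e1 : ((n : ℝ) - 1) ^ (2 - r) * ((n : ℝ) - 1) ^ (r - 1) = (n : ℝ) - 1 := by
        rw [← Real.rpow_add (by linarith)]
        norm_num
      have e2 : ρ ^ r = ρ * ρ ^ (r - 1) := by
        rcases eq_or_lt_of_le h0 with h | h
        · rw [← h]; simp [Real.zero_rpow (by linarith [(‹Expo n c r›).r_ge] : r ≠ 0)]
        · rw [← Real.rpow_one_add' h.le (by linarith [(‹Expo n c r›).r_ge])]
          congr 1; ring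
      rw [e2]
      calc ((n : ℝ) - 1) * (ρ * ρ ^ (r - 1))
          = ρ * ((((n : ℝ) - 1) ^ (2 - r) * ((n : ℝ) - 1) ^ (r - 1)) * ρ ^ (r - 1)) := by
            rw [e1]; ring
        _ = _ := by ring
    have hρr : ρ ^ r ≤ ρ := by
      calc ρ ^ r ≤ ρ ^ (1 : ℝ) := by
            rcases eq_or_lt_of_le h0 with h | h
            · rw [← h, Real.zero_rpow (by linarith [(‹Expo n c r›).r_ge]), Real.zero_rpow (by norm_num)]
            · exact Real.rpow_le_rpow_of_exponent_ge h h1 (by linarith)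
        _ = ρ := Real.rpow_one ρ
    set a : ℝ := ((n : ℝ) - 1) * ρ ^ r with ha
    have ha0 : 0 ≤ a := mul_nonneg (by linarith) hu0
    have ha1 : a ≤ 1 := by
      have : a ≤ t := mul_le_mul_of_nonneg_left hρr (by linarith)
      linarith
    have hcv := conv2 h.hc1 (x := (1 : ℝ)) (y := 2) (by norm_num) (by norm_num)
      (a := 1 - a) (b := a) (by linarith) ha0 (by ring)
    rw [Real.one_rpow] at hcv
    have e3 : (1 - a) * 1 + a * 2 = 1 + a := by ring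
    rw [e3] at hcv
    have hgm := Real.geom_mean_le_arith_mean2_weighted (w₁ := 2 - r) (w₂ := r - 1) (p₁ := 1)
      (p₂ := t) (by linarith [h.r_le]) hr1 (by norm_num) ht0 (by ring)
    rw [Real.one_rpow, one_mul] at hgm
    have hK1 := h.K_le
    have hK2 := h.K_mul_le
    have hK0 := h.K_nonneg
    set K : ℝ := ((2 : ℝ) ^ c - 1) * ((n : ℝ) - 1) ^ (2 - r) with hK
    have hmain : ((2 : ℝ) ^ c - 1) * a ≤ ρ * (1 + t) := by
      rw [hsplit]
      have : ((2 : ℝ) ^ c - 1) * (ρ * (((n : ℝ) - 1) ^ (2 - r) * t ^ (r - 1)))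
          = ρ * (K * t ^ (r - 1)) := by rw [hK]; ring
      rw [this]
      apply mul_le_mul_of_nonneg_left _ h0
      calc K * t ^ (r - 1) ≤ K * ((2 - r) * 1 + (r - 1) * t) := by gcongr
        _ = K * (2 - r) * (1 - t) + K * t := by ring
        _ ≤ 1 * (1 - t) + 2 * t := by
            gcongr
        _ = 1 + t := by ring
    calc (1 + a) ^ c ≤ (1 - a) * 1 + a * 2 ^ c := hcv
      _ = 1 + ((2 : ℝ) ^ c - 1) * a := by ring
      _ ≤ 1 + ρ * (1 + t) := by linarith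
      _ = 1 + ρ + ((n : ℝ) - 1) * ρ ^ 2 := by rw [ht]; ring

/-- Corollary C'. -/
theorem lemmaC' (h : Expo n c r) {ρ A : ℝ} (h0 : 0 ≤ ρ) (h1 : ρ ≤ 1) (hA0 : 0 ≤ A)
    (hA1 : A ≤ (n : ℝ) - 1) :
    (1 + A * ρ ^ r) ^ c ≤ 1 + A / ((n : ℝ) - 1) * ρ + A * ρ ^ 2 := by
  have hn := h.n4
  have hu0 : 0 ≤ ρ ^ r := Real.rpow_nonneg h0 _
  have hq0 : 0 ≤ A / ((n : ℝ) - 1) := div_nonneg hA0 (by linarith)
  have hq1 : A / ((n : ℝ) - 1) ≤ 1 := (div_le_one (by linarith)).2 hA1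
  have hb : (0 : ℝ) ≤ 1 + ((n : ℝ) - 1) * ρ ^ r := by
    have : 0 ≤ ((n : ℝ) - 1) * ρ ^ r := mul_nonneg (by linarith) hu0
    linarith
  have hcv := conv2 h.hc1 (x := (1 : ℝ)) (y := 1 + ((n : ℝ) - 1) * ρ ^ r) (by norm_num) hb
    (a := 1 - A / ((n : ℝ) - 1)) (b := A / ((n : ℝ) - 1)) (by linarith) hq0 (by ring)
  rw [Real.one_rpow] at hcv
  have hne : (n : ℝ) - 1 ≠ 0 := by linarith
  have e : (1 - A / ((n : ℝ) - 1)) * 1 + A / ((n : ℝ) - 1) * (1 + ((n : ℝ) - 1) * ρ ^ r)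
      = 1 + A * ρ ^ r := by field_simp; ring
  rw [e] at hcv
  have hC := h.lemmaC h0 h1
  calc (1 + A * ρ ^ r) ^ c
      ≤ (1 - A / ((n : ℝ) - 1)) * 1 + A / ((n : ℝ) - 1) * (1 + ((n : ℝ) - 1) * ρ ^ r) ^ c := hcv
    _ ≤ (1 - A / ((n : ℝ) - 1)) * 1
        + A / ((n : ℝ) - 1) * (1 + ρ + ((n : ℝ) - 1) * ρ ^ 2) := by gcongr
    _ = _ := by field_simp; ring

end Expo

end MP_7b7e48_nt.LocalSharp
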