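import Mathlib
import Pool.Agent.Lib.MP_7b7e48_nt.LocalSharpA

/-!
# Sharp local inequality, part B: the potential lemma and the algebraic inequality
-/

namespace MP_7b7e48_nt.LocalSharp

open Real Finset

/-- the potential. -/
noncomputable def V (s r u : ℝ) : ℝ := min (s * u) (s * u + s ^ 2 * u - (s * u) ^ r)

theorem V_le_left (s r u : ℝ) : V s r u ≤ s * u := min_le_left _ _

theorem V_le_right (s r u : ℝ) : V s r u ≤ s * u + s ^ 2 * u - (s * u) ^ r := min_le_right _ _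

theorem rpow_split {a r : ℝ} (ha : 0 ≤ a) (hr : 1 < r) : a ^ r = a * a ^ (r - 1) := by
  rcases eq_or_lt_of_le ha with h | h
  · rw [← h, Real.zero_rpow (by linarith), zero_mul]
  · rw [← Real.rpow_one_add' h.le (by linarith)]
    congr 1; ring

theorem rpow_le_self' {a r : ℝ} (ha : 0 ≤ a) (ha1 : a ≤ 1) (hr : 1 ≤ r) : a ^ r ≤ a := by
  rcases eq_or_lt_of_le ha with h | h
  · rw [← h, Real.zero_rpow (by linarith)]
  · calc a ^ r ≤ a ^ (1 : ℝ) := Real.rpow_le_rpow_of_exponent_ge h ha1 hr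
      _ = a := Real.rpow_one a

/-- for `v ≤ s` one has `(s v)^r ≤ s^2 v` -/
theorem sv_pow_le {s v r : ℝ} (hs0 : 0 ≤ s) (hs1 : s ≤ 1) (hv0 : 0 ≤ v) (hvs : v ≤ s)
    (hr : 3 / 2 ≤ r) : (s * v) ^ r ≤ s ^ 2 * v := by
  have hsv : 0 ≤ s * v := mul_nonneg hs0 hv0
  rw [rpow_split hsv (by linarith)]
  have h1 : (s * v) ^ (r - 1) ≤ s := by
    calc (s * v) ^ (r - 1) ≤ (s * s) ^ (r - 1) := by
          apply Real.rpow_le_rpow hsv _ (by linarith)
          exact mul_le_mul_of_nonneg_left hvs hs0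
      _ = s ^ (2 * (r - 1)) := by
          rw [Real.rpow_mul hs0, Real.rpow_two]
          congr 1; ring
      _ ≤ s := by
          rcases eq_or_lt_of_le hs0 with h | h
          · rw [← h, Real.zero_rpow (by linarith)]
          · calc s ^ (2 * (r - 1)) ≤ s ^ (1 : ℝ) :=
                Real.rpow_le_rpow_of_exponent_ge h hs1 (by linarith)
              _ = s := Real.rpow_one s
  calc s * v * (s * v) ^ (r - 1) ≤ s * v * s := mul_le_mul_of_nonneg_left h1 hsv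
    _ = s ^ 2 * v := by ring

theorem V_eq_of_le {s v r : ℝ} (hs0 : 0 ≤ s) (hs1 : s ≤ 1) (hv0 : 0 ≤ v) (hvs : v ≤ s)
    (hr : 3 / 2 ≤ r) : V s r v = s * v := by
  unfold V
  apply min_eq_left
  linarith [sv_pow_le hs0 hs1 hv0 hvs hr]

theorem concave_aux (a b r : ℝ) (hb : 0 ≤ b) (hr : 1 ≤ r) :
    ConcaveOn ℝ (Set.Ici (0 : ℝ)) (fun v : ℝ => a * v - b * v ^ r) := by
  refine ⟨convex_Ici 0, ?_⟩
  intro x hx y hy α β hα hβ hαβ
  have h := conv2 hr (Set.mem_Ici.1 hx) (Set.mem_Ici.1 hy) hα hβ hαβ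
  simp only [smul_eq_mul]
  nlinarith [mul_le_mul_of_nonneg_left h hb]

theorem V_key {s r u v : ℝ} (hs0 : 0 ≤ s) (hs1 : s ≤ 1) (hr : 3 / 2 ≤ r) (hv0 : 0 ≤ v)
    (hvu : v ≤ u) (hu1 : u ≤ 1) : v ^ r + V s r u ≤ max v (s * u) + V s r v := by
  have hu0 : 0 ≤ u := hv0.trans hvu
  have hsu0 : 0 ≤ s * u := mul_nonneg hs0 hu0
  have hsus : s * u ≤ s := by nlinarith
  have hsuu : s * u ≤ u := by nlinarith
  rcases le_total v (s * u) with hc | hc
  · -- v ≤ s u
    rw [max_eq_right hc, V_eq_of_le hs0 hs1 hv0 (hc.trans hsus) hr]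
    have hvr : v ^ r = v * v ^ (r - 1) := rpow_split hv0 (by linarith)
    rcases le_total (v ^ (r - 1)) s with h1 | h1
    · have : v ^ r ≤ s * v := by rw [hvr]; nlinarith
      linarith [V_le_left s r u]
    · have h2 : v ^ (r - 1) ≤ (s * u) ^ (r - 1) := Real.rpow_le_rpow hv0 hc (by linarith)
      have h3 : v * (v ^ (r - 1) - s) ≤ (s * u) * ((s * u) ^ (r - 1) - s) :=
        mul_le_mul hc (by linarith) (by linarith) hsu0
      have h4 : (s * u) ^ r = (s * u) * (s * u) ^ (r - 1) := rpow_split hsu0 (by linarith)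
      have h5 := V_le_right s r u
      rw [hvr]
      rw [h4] at h5
      nlinarith
  · rw [max_eq_left hc]
    have hmem : v ∈ Set.Icc (s * u) u := ⟨hc, hvu⟩
    have hur : u ^ r ≤ u := rpow_le_self' hu0 hu1 (by linarith)
    have hV1 := V_le_left s r u
    have hV2 := V_le_right s r u
    have hmsr : ∀ w : ℝ, 0 ≤ w → (s * w) ^ r = s ^ r * w ^ r := fun w hw => Real.mul_rpow hs0 hw
    have hsr0 : 0 ≤ s ^ r := Real.rpow_nonneg hs0 _
    -- branch 1
    have b1 : V s r u ≤ v - v ^ r + s * v := by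
      have hcc := (concave_aux (1 + s) 1 r (by norm_num) (by linarith)).min_le_of_mem_Icc
        (Set.mem_Ici.2 hsu0) (Set.mem_Ici.2 hu0) hmem

      have e1 : V s r u ≤ (1 + s) * (s * u) - 1 * (s * u) ^ r := by nlinarith
      have e2 : V s r u ≤ (1 + s) * u - 1 * u ^ r := by nlinarith
      have := le_trans (le_min e1 e2) hcc
      linarith
    -- branch 2
    have b2 : V s r u ≤ v - v ^ r + (s * v + s ^ 2 * v - (s * v) ^ r) := by
      have hcc := (concave_aux (1 + s + s ^ 2) (1 + s ^ r) r (by linarith)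
        (by linarith)).min_le_of_mem_Icc (Set.mem_Ici.2 hsu0) (Set.mem_Ici.2 hu0) hmem

      have e2 : V s r u ≤ (1 + s + s ^ 2) * u - (1 + s ^ r) * u ^ r := by
        rw [hmsr u hu0] at hV2
        nlinarith
      have e1 : V s r u ≤ (1 + s + s ^ 2) * (s * u) - (1 + s ^ r) * (s * u) ^ r := by
        have k1 : s ^ r * (s * u) ^ r ≤ s ^ 3 * u := by
          rw [← hmsr (s * u) hsu0]
          have := sv_pow_le hs0 hs1 hsu0 hsus hr
          nlinarith
        nlinarith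
      have := le_trans (le_min e1 e2) hcc
      rw [hmsr v hv0]
      linarith
    have : V s r u ≤ v - v ^ r + V s r v := by
      have h6 : V s r u - (v - v ^ r) ≤ V s r v := by
        unfold V at b1 b2 ⊢
        apply le_min <;> linarith
      linarith
    linarith

/-- Lemma E in summed form -/
theorem lemmaE {s r : ℝ} (hs0 : 0 ≤ s) (hs1 : s ≤ 1) (hr : 3 / 2 ≤ r) (w : ℕ → ℝ)
    (m : ℕ) (hw0 : w 0 ≤ 1) (hmono : ∀ i, i < m → w (i + 1) ≤ w i)
    (hnn : ∀ i, i ≤ m → 0 ≤ w i) :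
    ∑ i ∈ range m, w (i + 1) ^ r + V s r (w 0)
      ≤ ∑ i ∈ range m, max (w (i + 1)) (s * w i) + s * w m := by
  have key : ∀ k, k ≤ m → w k ≤ 1 ∧ ∑ i ∈ range k, w (i + 1) ^ r + V s r (w 0)
      ≤ ∑ i ∈ range k, max (w (i + 1)) (s * w i) + V s r (w k) := by
    intro k
    induction k with
    | zero => intro _; exact ⟨hw0, by simp⟩
    | succ k ih =>
      intro hk
      obtain ⟨h1, h2⟩ := ih (by omega)
      have h3 := hmono k (by omega)
      refine ⟨h3.trans h1, ?_⟩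
      rw [Finset.sum_range_succ, Finset.sum_range_succ]
      have := V_key hs0 hs1 hr (hnn (k + 1) hk) h3 h1
      linarith
  have := (key m le_rfl).2
  linarith [V_le_left s r (w m)]

/-- `κ = s^r - s^2 ≤ (2-r) s (1-s)` -/
theorem kappa_le {s r : ℝ} (hs0 : 0 ≤ s) (hr1 : 1 ≤ r) (hr2 : r ≤ 2) :
    s ^ r - s ^ 2 ≤ (2 - r) * (s * (1 - s)) := by
  have h := Real.geom_mean_le_arith_mean2_weighted (w₁ := 2 - r) (w₂ := r - 1) (p₁ := s)
      (p₂ := s ^ 2) (by linarith) (by linarith) hs0 (by positivity) (by ring)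
  have e : s ^ (2 - r) * (s ^ 2) ^ (r - 1) = s ^ r := by
    rcases eq_or_lt_of_le hs0 with h0 | h0
    · rw [← h0]
      rcases eq_or_lt_of_le hr2 with h2 | h2
      · rw [h2]; norm_num
      · rw [Real.zero_rpow (by linarith), Real.zero_rpow (by linarith), zero_mul]
    · rw [← Real.rpow_two, ← Real.rpow_mul hs0, ← Real.rpow_add h0]
      congr 1; ring
  rw [e] at h
  nlinarith

theorem kappa_nonneg {s r : ℝ} (hs0 : 0 ≤ s) (hs1 : s ≤ 1) (hr1 : 0 < r) (hr2 : r ≤ 2) :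
    0 ≤ s ^ r - s ^ 2 := by
  rcases eq_or_lt_of_le hs0 with h0 | h0
  · rw [← h0, Real.zero_rpow hr1.ne']; norm_num
  · have := Real.rpow_le_rpow_of_exponent_ge h0 hs1 hr2
    rw [Real.rpow_two] at this
    linarith

theorem V_one {s r : ℝ} (hs0 : 0 ≤ s) (hs1 : s ≤ 1) (hr1 : 0 < r) (hr2 : r ≤ 2) :
    V s r 1 = s - (s ^ r - s ^ 2) := by
  unfold V
  rw [min_eq_right]
  · rw [mul_one, mul_one]; ring
  · rw [mul_one, mul_one]
    linarith [kappa_nonneg hs0 hs1 hr1 hr2]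

/-- The algebraic inequality `f g ≤ P Q`. -/
theorem algebra_main {N ρ σ A B κ δ : ℝ} (hN : 3 ≤ N) (hσ : 0 ≤ σ) (hσρ : σ ≤ ρ) (hρ : ρ ≤ 1)
    (hA1 : 1 ≤ A) (hAN : A ≤ N) (hB0 : 0 ≤ B) (hBN : B ≤ N)
    (hκ : κ ≤ δ * (σ * (1 - σ))) (hδ0 : 0 ≤ δ) (hδ : δ ≤ 1 / 3) :
    (1 + A / N * ρ + A * ρ ^ 2) * (1 + B / N * σ + B * σ ^ 2)
      ≤ (1 + ρ * (A + σ - κ)) * (1 + ρ + ρ * (B * σ)) := by
  have hρ0 : 0 ≤ ρ := hσ.trans hσρ
  have hσ1 : σ ≤ 1 := hσρ.trans hρ
  set a : ℝ := A / N with ha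
  set b : ℝ := B / N with hb
  have hNpos : 0 < N := by linarith
  have ha0 : 0 ≤ a := div_nonneg (by linarith) hNpos.le
  have ha1 : a ≤ 1 := (div_le_one hNpos).2 hAN
  have hb0 : 0 ≤ b := div_nonneg hB0 hNpos.le
  have hb1 : b ≤ 1 := (div_le_one hNpos).2 hBN
  have ha3 : a ≤ A / 3 := by
    rw [ha]; exact div_le_div_of_nonneg_left (by linarith) (by norm_num) hN
  have hb3 : b ≤ B / 3 := by
    rw [hb]; exact div_le_div_of_nonneg_left hB0 (by norm_num) hN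
  have hκσ : κ ≤ σ := by
    have : δ * (σ * (1 - σ)) ≤ σ := by
      have : σ * (1 - σ) ≤ σ := by nlinarith
      have h0 : 0 ≤ σ * (1 - σ) := mul_nonneg hσ (by linarith)
      nlinarith
    linarith
  have hκ2 : κ ≤ δ * (1 - σ) := by
    have : σ * (1 - σ) ≤ 1 - σ := by nlinarith
    have := mul_le_mul_of_nonneg_left this hδ0
    linarith
  have hg0 : 0 ≤ 1 + b * σ + B * σ ^ 2 := by positivity
  have hf0 : 0 ≤ 1 + a * ρ + A * ρ ^ 2 := by
    have : 0 ≤ A := by linarith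
    positivity
  have hBσ : 0 ≤ B * σ := mul_nonneg hB0 hσ
  have hD3 : (ρ - σ) * (1 + B * σ) ≤ (1 + ρ + ρ * (B * σ)) - (1 + b * σ + B * σ ^ 2) := by
    have : 0 ≤ (1 - b) * σ := mul_nonneg (by linarith) hσ
    nlinarith
  have hD3' : 0 ≤ (ρ - σ) * (1 + B * σ) := mul_nonneg (by linarith) (by linarith)
  have hP : 1 + ρ * A ≤ 1 + ρ * (A + σ - κ) := by nlinarith
  have hP0 : 0 ≤ 1 + ρ * A := by
    have : 0 ≤ A := by linarith
    positivity
  have hg : 1 + b * σ + B * σ ^ 2 ≤ 4 / 3 * (1 + B * σ) := by nlinarith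
  set br : ℝ := a - A * (1 - ρ) - σ + κ with hbr
  have hD1 : (1 + a * ρ + A * ρ ^ 2) - (1 + ρ * (A + σ - κ)) = ρ * br := by rw [hbr]; ring
  rcases le_or_gt br 0 with hneg | hpos
  · have h1 : 1 + a * ρ + A * ρ ^ 2 ≤ 1 + ρ * (A + σ - κ) := by nlinarith
    have h2 : 1 + b * σ + B * σ ^ 2 ≤ 1 + ρ + ρ * (B * σ) := by linarith
    exact mul_le_mul h1 h2 hg0 (hf0.trans h1)
  · -- the sub-lemma
    have hsub : 4 / 3 * ρ * br ≤ (1 + ρ * A) * (ρ - σ) := by
      rcases le_total (1 + δ) A with hA | hA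
      · have h1 : br ≤ (1 + δ) * (ρ - σ) := by
          have : (1 - ρ) * (1 + δ - A) ≤ 0 := mul_nonpos_of_nonneg_of_nonpos (by linarith) (by linarith)
          nlinarith
        have h2 : 4 / 3 * ρ * (1 + δ) ≤ 1 + ρ * A := by nlinarith
        calc 4 / 3 * ρ * br ≤ 4 / 3 * ρ * ((1 + δ) * (ρ - σ)) :=
              mul_le_mul_of_nonneg_left h1 (by positivity)
          _ = (4 / 3 * ρ * (1 + δ)) * (ρ - σ) := by ring
          _ ≤ (1 + ρ * A) * (ρ - σ) := mul_le_mul_of_nonneg_right h2 (by linarith)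
      · have h1 : br ≤ ρ - σ := by
          have : 0 ≤ (A - 1) * (1 - ρ) := mul_nonneg (by linarith) (by linarith)
          nlinarith
        have h2 : 4 / 3 * ρ ≤ 1 + ρ * A := by nlinarith
        calc 4 / 3 * ρ * br ≤ 4 / 3 * ρ * (ρ - σ) := mul_le_mul_of_nonneg_left h1 (by positivity)
          _ ≤ (1 + ρ * A) * (ρ - σ) := mul_le_mul_of_nonneg_right h2 (by linarith)
    -- P * D3 ≥ D1 * g
    set P : ℝ := 1 + ρ * (A + σ - κ) with hPdef
    set Q : ℝ := 1 + ρ + ρ * (B * σ) with hQdef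
    set f : ℝ := 1 + a * ρ + A * ρ ^ 2 with hfdef
    set g : ℝ := 1 + b * σ + B * σ ^ 2 with hgdef
    have hk1 : (1 + ρ * A) * ((ρ - σ) * (1 + B * σ)) ≤ P * (Q - g) :=
      mul_le_mul hP hD3 hD3' (hP0.trans hP)
    have hk2 : (ρ * br) * g ≤ (ρ * br) * (4 / 3 * (1 + B * σ)) :=
      mul_le_mul_of_nonneg_left hg (mul_nonneg hρ0 hpos.le)
    have hk3 : (ρ * br) * (4 / 3 * (1 + B * σ)) ≤ (1 + ρ * A) * ((ρ - σ) * (1 + B * σ)) := by
      have := mul_le_mul_of_nonneg_right hsub (by linarith : (0 : ℝ) ≤ 1 + B * σ)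
      nlinarith
    have hk4 : (f - P) * g ≤ P * (Q - g) := by rw [hD1]; linarith
    nlinarith

end MP_7b7e48_nt.LocalSharp
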