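import Mathlib
import Pool.Agent.Lib.MP_7b7e48_nt.LocalSharpB

/-!
# Sharp local inequality, part C: the sequence form

`x 0 ≥ ... ≥ x (n-1) ≥ 0`, `y` the same, `x i * y j ≤ h (i+j)` for `i, j < n`, `i + j ≤ n`:
then `(∑ x^r)^(1/r) (∑ y^r)^(1/r) ≤ ∑_{k ≤ n} h k`, where `r = 2 log n / log (n+1)`.
-/

namespace MP_7b7e48_nt.LocalSharp

open Real Finset

variable {n : ℕ} {c r : ℝ}

/-- normalised form, `y 1 ≤ x 1`. -/
theorem seq_norm (h : Expo n c r) (x y H : ℕ → ℝ)
    (hx0 : x 0 = 1) (hy0 : y 0 = 1)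
    (hxm : ∀ i, i + 1 < n → x (i + 1) ≤ x i) (hym : ∀ i, i + 1 < n → y (i + 1) ≤ y i)
    (hxn : ∀ i, i < n → 0 ≤ x i) (hyn : ∀ i, i < n → 0 ≤ y i) (hyx : y 1 ≤ x 1)
    (hH : ∀ i j, i < n → j < n → i + j ≤ n → x i * y j ≤ H (i + j)) :
    (∑ i ∈ range n, x i ^ r) ^ c * (∑ i ∈ range n, y i ^ r) ^ c
      ≤ (∑ k ∈ range (n + 1), H k) ^ 2 := by
  have hn4 := h.hn
  obtain ⟨m, rfl⟩ : ∃ m, n = m + 2 := ⟨n - 2, by omega⟩
  have hnR := h.n4
  have hr1 : (3 : ℝ) / 2 ≤ r := by linarith [h.r_ge]
  have hr2 := h.r_le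
  have hrpos := h.r_pos
  have hcpos : 0 < c := by linarith [h.hc1]
  set ρ := x 1 with hρ
  set σ := y 1 with hσ
  have hρ0 : 0 ≤ ρ := hxn 1 (by omega)
  have hσ0 : 0 ≤ σ := hyn 1 (by omega)
  have hρ1 : ρ ≤ 1 := by rw [hρ, ← hx0]; exact hxm 0 (by omega)
  have hσ1 : σ ≤ 1 := hyx.trans hρ1
  have hN : ((m + 2 : ℕ) : ℝ) - 1 = (m : ℝ) + 1 := by push_cast; ring
  have hmR : (2 : ℝ) ≤ m := by push_cast at hnR; linarith
  -- monotonicity
  have hxle : ∀ i, i < m + 1 → x (i + 1) ≤ ρ := by
    intro i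
    induction i with
    | zero => intro _; exact le_rfl
    | succ i ih => intro hi; exact (hxm (i + 1) (by omega)).trans (ih (by omega))
  have hyle : ∀ i, i < m + 1 → y (i + 1) ≤ σ := by
    intro i
    induction i with
    | zero => intro _; exact le_rfl
    | succ i ih => intro hi; exact (hym (i + 1) (by omega)).trans (ih (by omega))
  -- sums of r-th powers
  have hX : ∑ i ∈ range (m + 2), x i ^ r = 1 + ∑ i ∈ range (m + 1), x (i + 1) ^ r := by
    rw [Finset.sum_range_succ' (fun i => x i ^ r) (m + 1), hx0, Real.one_rpow, add_comm]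
  have hY : ∑ i ∈ range (m + 2), y i ^ r = 1 + ∑ i ∈ range (m + 1), y (i + 1) ^ r := by
    rw [Finset.sum_range_succ' (fun i => y i ^ r) (m + 1), hy0, Real.one_rpow, add_comm]
  -- first facts on S
  have hS0 : ∑ k ∈ range (m + 2 + 1), H k = H 0 + ∑ k ∈ range (m + 2), H (k + 1) := by
    rw [Finset.sum_range_succ' H (m + 2), add_comm]
  have hH0 : 1 ≤ H 0 := by
    have := hH 0 0 (by omega) (by omega) (by omega)
    rwa [hx0, hy0, one_mul] at this
  -- bound (3)
  have hb3 : 1 + ρ * ∑ j ∈ range (m + 2), y j ≤ ∑ k ∈ range (m + 2 + 1), H k := by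
    rw [hS0, Finset.mul_sum]
    have : ∑ j ∈ range (m + 2), ρ * y j ≤ ∑ k ∈ range (m + 2), H (k + 1) := by
      apply Finset.sum_le_sum
      intro k hk
      have := hH 1 k (by omega) (Finset.mem_range.1 hk) (by have := Finset.mem_range.1 hk; omega)
      rwa [add_comm 1 k] at this
    linarith
  -- the case ρ = 0
  rcases eq_or_lt_of_le hρ0 with hρz | hρpos
  · have hσz : σ = 0 := le_antisymm (by linarith) hσ0
    have hxz : ∀ i ∈ range (m + 1), x (i + 1) ^ r = 0 := by
      intro i hi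
      have h1 := hxle i (Finset.mem_range.1 hi)
      have h2 := hxn (i + 1) (by have := Finset.mem_range.1 hi; omega)
      have : x (i + 1) = 0 := le_antisymm (by linarith) h2
      rw [this, Real.zero_rpow hrpos.ne']
    have hyz : ∀ i ∈ range (m + 1), y (i + 1) ^ r = 0 := by
      intro i hi
      have h1 := hyle i (Finset.mem_range.1 hi)
      have h2 := hyn (i + 1) (by have := Finset.mem_range.1 hi; omega)
      have : y (i + 1) = 0 := le_antisymm (by linarith) h2
      rw [this, Real.zero_rpow hrpos.ne']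
    rw [hX, hY, Finset.sum_congr rfl hxz, Finset.sum_congr rfl hyz]
    simp only [Finset.sum_const_zero, add_zero, Real.one_rpow, mul_one]
    rw [← hρz, zero_mul, add_zero] at hb3
    nlinarith
  · -- w and v
    set w : ℕ → ℝ := fun i => x (i + 1) / ρ with hw
    have hw0 : w 0 = 1 := by simp only [hw]; exact div_self hρpos.ne'
    have hwn : ∀ i, i ≤ m → 0 ≤ w i := fun i hi => div_nonneg (hxn (i + 1) (by omega)) hρ0
    have hwm : ∀ i, i < m → w (i + 1) ≤ w i := by
      intro i hi
      exact div_le_div_of_nonneg_right (hxm (i + 1) (by omega)) hρ0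
    have hw1 : ∀ i, i ≤ m → w i ≤ 1 := by
      intro i hi
      exact (div_le_one hρpos).2 (hxle i (by omega))
    have hxw : ∀ i, x (i + 1) = ρ * w i := by
      intro i; simp only [hw]; field_simp
    set A : ℝ := ∑ i ∈ range (m + 1), w i ^ r with hA
    have hXA : ∑ i ∈ range (m + 2), x i ^ r = 1 + A * ρ ^ r := by
      rw [hX, hA, Finset.sum_mul]
      congr 1
      apply Finset.sum_congr rfl
      intro i hi
      rw [hxw i, Real.mul_rpow hρ0 (hwn i (by have := Finset.mem_range.1 hi; omega))]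
      ring
    have hwr1 : ∀ i ∈ range (m + 1), w i ^ r ≤ 1 := by
      intro i hi
      exact Real.rpow_le_one (hwn i (by have := Finset.mem_range.1 hi; omega))
        (hw1 i (by have := Finset.mem_range.1 hi; omega)) hrpos.le
    have hAle : A ≤ (m : ℝ) + 1 := by
      calc A ≤ ∑ i ∈ range (m + 1), (1 : ℝ) := Finset.sum_le_sum hwr1
        _ = (m : ℝ) + 1 := by simp
    have hA1 : A = 1 + ∑ i ∈ range m, w (i + 1) ^ r := by
      rw [hA, Finset.sum_range_succ' (fun i => w i ^ r) m, hw0, Real.one_rpow, add_comm]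
    have hAge : 1 ≤ A := by
      rw [hA1]
      have : 0 ≤ ∑ i ∈ range m, w (i + 1) ^ r := Finset.sum_nonneg fun i hi =>
        Real.rpow_nonneg (hwn (i + 1) (by have := Finset.mem_range.1 hi; omega)) _
      linarith
    -- B
    obtain ⟨B, hB0, hB1, hYB, hYs⟩ : ∃ B : ℝ, 0 ≤ B ∧ B ≤ (m : ℝ) + 1 ∧
        ∑ i ∈ range (m + 2), y i ^ r = 1 + B * σ ^ r ∧
        1 + B * σ ≤ ∑ j ∈ range (m + 2), y j := by
      have hYsum : ∑ j ∈ range (m + 2), y j = 1 + ∑ i ∈ range (m + 1), y (i + 1) := by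
        rw [Finset.sum_range_succ' y (m + 1), hy0, add_comm]
      rcases eq_or_lt_of_le hσ0 with hz | hpos
      · refine ⟨0, le_rfl, by linarith, ?_, ?_⟩
        · have hyz : ∀ i ∈ range (m + 1), y (i + 1) ^ r = 0 := by
            intro i hi
            have h1 := hyle i (Finset.mem_range.1 hi)
            have h2 := hyn (i + 1) (by have := Finset.mem_range.1 hi; omega)
            have : y (i + 1) = 0 := le_antisymm (by linarith) h2
            rw [this, Real.zero_rpow hrpos.ne']
          rw [hY, Finset.sum_congr rfl hyz]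
          simp
        · rw [hYsum]
          have : 0 ≤ ∑ i ∈ range (m + 1), y (i + 1) := Finset.sum_nonneg fun i hi =>
            hyn (i + 1) (by have := Finset.mem_range.1 hi; omega)
          linarith
      · have hv0 : ∀ i ∈ range (m + 1), 0 ≤ y (i + 1) / σ := fun i hi =>
          div_nonneg (hyn (i + 1) (by have := Finset.mem_range.1 hi; omega)) hσ0
        have hv1 : ∀ i ∈ range (m + 1), y (i + 1) / σ ≤ 1 := fun i hi =>
          (div_le_one hpos).2 (hyle i (Finset.mem_range.1 hi))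
        refine ⟨∑ i ∈ range (m + 1), (y (i + 1) / σ) ^ r, ?_, ?_, ?_, ?_⟩
        · exact Finset.sum_nonneg fun i hi => Real.rpow_nonneg (hv0 i hi) _
        · calc ∑ i ∈ range (m + 1), (y (i + 1) / σ) ^ r ≤ ∑ i ∈ range (m + 1), (1 : ℝ) :=
              Finset.sum_le_sum fun i hi => Real.rpow_le_one (hv0 i hi) (hv1 i hi) hrpos.le
            _ = (m : ℝ) + 1 := by simp
        · rw [hY, Finset.sum_mul]
          congr 1
          apply Finset.sum_congr rfl
          intro i hi
          rw [← Real.mul_rpow (hv0 i hi) hσ0, div_mul_cancel₀ _ hpos.ne']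
        · rw [hYsum, Finset.sum_mul]
          have : ∑ i ∈ range (m + 1), (y (i + 1) / σ) ^ r * σ ≤ ∑ i ∈ range (m + 1), y (i + 1) := by
            apply Finset.sum_le_sum
            intro i hi
            have h1 := rpow_le_self' (hv0 i hi) (hv1 i hi) (by linarith : (1 : ℝ) ≤ r)
            calc (y (i + 1) / σ) ^ r * σ ≤ (y (i + 1) / σ) * σ :=
                  mul_le_mul_of_nonneg_right h1 hσ0
              _ = y (i + 1) := div_mul_cancel₀ _ hpos.ne'
          linarith
    -- bound (12)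
    have hb12 : 1 + ρ * (A + σ - (σ ^ r - σ ^ 2)) ≤ ∑ k ∈ range (m + 2 + 1), H k := by
      have hE := lemmaE hσ0 hσ1 hr1 w m hw0.le hwm hwn
      rw [hw0, V_one hσ0 hσ1 hrpos hr2] at hE
      have hsum : ρ * (∑ i ∈ range m, max (w (i + 1)) (σ * w i) + σ * w m) + ρ
          ≤ ∑ k ∈ range (m + 2), H (k + 1) := by
        rw [Finset.sum_range_succ' (fun k => H (k + 1)) (m + 1), Finset.sum_range_succ]
        have h1 : ρ ≤ H (0 + 1) := by
          have := hH 1 0 (by omega) (by omega) (by omega)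
          rwa [hy0, mul_one] at this
        have h2 : ρ * (σ * w m) ≤ H (m + 1 + 1) := by
          have := hH (m + 1) 1 (by omega) (by omega) (by omega)
          rw [hxw m] at this
          linarith
        have h3 : ρ * ∑ i ∈ range m, max (w (i + 1)) (σ * w i)
            ≤ ∑ k ∈ range m, H (k + 1 + 1) := by
          rw [Finset.mul_sum]
          apply Finset.sum_le_sum
          intro k hk
          have hk' := Finset.mem_range.1 hk
          rw [mul_max_of_nonneg _ _ hρ0]
          apply max_le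
          · have := hH (k + 2) 0 (by omega) (by omega) (by omega)
            rw [hy0, mul_one, hxw (k + 1)] at this
            exact this
          · have := hH (k + 1) 1 (by omega) (by omega) (by omega)
            rw [hxw k] at this
            linarith
        linarith
      rw [hS0]
      have : ρ * (∑ i ∈ range m, w (i + 1) ^ r + (σ - (σ ^ r - σ ^ 2)))
          ≤ ρ * (∑ i ∈ range m, max (w (i + 1)) (σ * w i) + σ * w m) :=
        mul_le_mul_of_nonneg_left hE hρ0
      rw [hA1]
      nlinarith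
    -- bound (3) again
    have hb3' : 1 + ρ + ρ * (B * σ) ≤ ∑ k ∈ range (m + 2 + 1), H k := by
      have := mul_le_mul_of_nonneg_left hYs hρ0
      linarith
    -- f and g
    have hf := h.lemmaC' hρ0 hρ1 (A := A) (by linarith) (by rw [hN]; exact hAle)
    have hg := h.lemmaC' hσ0 hσ1 (A := B) hB0 (by rw [hN]; exact hB1)
    rw [hN] at hf hg
    have halg := algebra_main (N := (m : ℝ) + 1) (δ := 2 - r) (by linarith) hσ0 hyx hρ1 hAge hAle hB0
      hB1 (kappa_le hσ0 (by linarith) hr2) (by linarith) (by linarith [h.r_ge])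
    rw [hXA, hYB]
    have hX0 : 0 ≤ (1 + B * σ ^ r) ^ c := by
      apply Real.rpow_nonneg
      have := mul_nonneg hB0 (Real.rpow_nonneg hσ0 r)
      linarith
    have hS1 : 0 ≤ ∑ k ∈ range (m + 2 + 1), H k := by
      have : 0 ≤ ρ * (B * σ) := by positivity
      linarith
    have hκ := kappa_le hσ0 (by linarith : (1 : ℝ) ≤ r) hr2
    have hQ0 : 0 ≤ 1 + ρ + ρ * (B * σ) := by positivity
    calc (1 + A * ρ ^ r) ^ c * (1 + B * σ ^ r) ^ c
        ≤ (1 + A / ((m : ℝ) + 1) * ρ + A * ρ ^ 2) * (1 + B / ((m : ℝ) + 1) * σ + B * σ ^ 2) :=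
          mul_le_mul hf hg hX0 (by have : 0 ≤ A := by linarith
                                   positivity)
      _ ≤ (1 + ρ * (A + σ - (σ ^ r - σ ^ 2))) * (1 + ρ + ρ * (B * σ)) := halg
      _ ≤ (∑ k ∈ range (m + 2 + 1), H k) * (∑ k ∈ range (m + 2 + 1), H k) :=
          mul_le_mul hb12 hb3' hQ0 hS1
      _ = _ := by ring

/-- The sequence form of the sharp local inequality. -/
theorem seq_main (h : Expo n c r) (x y H : ℕ → ℝ)
    (hxm : ∀ i, i + 1 < n → x (i + 1) ≤ x i) (hym : ∀ i, i + 1 < n → y (i + 1) ≤ y i)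
    (hxn : ∀ i, i < n → 0 ≤ x i) (hyn : ∀ i, i < n → 0 ≤ y i)
    (hH : ∀ i j, i < n → j < n → i + j ≤ n → x i * y j ≤ H (i + j)) :
    (∑ i ∈ range n, x i ^ r) ^ (1 / r) * (∑ i ∈ range n, y i ^ r) ^ (1 / r)
      ≤ ∑ k ∈ range (n + 1), H k := by
  have hn4 := h.hn
  have hrpos := h.r_pos
  have hc : 1 / r = c / 2 := by
    have := h.hrc
    field_simp
    linarith
  have hHnn : ∀ k ∈ range (n + 1), 0 ≤ H k := by
    intro k hk
    have hk' := Finset.mem_range.1 hk
    rcases Nat.lt_or_ge k n with h1 | h1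
    · have := hH k 0 h1 (by omega) (by omega)
      rw [add_zero] at this
      exact (mul_nonneg (hxn k h1) (hyn 0 (by omega))).trans this
    · have := hH 1 (k - 1) (by omega) (by omega) (by omega)
      have e : 1 + (k - 1) = k := by omega
      rw [e] at this
      exact (mul_nonneg (hxn 1 (by omega)) (hyn (k - 1) (by omega))).trans this
  have hS0 : 0 ≤ ∑ k ∈ range (n + 1), H k := Finset.sum_nonneg hHnn
  -- all x are ≤ x 0
  have hx_le : ∀ i, i < n → x i ≤ x 0 := by
    intro i
    induction i with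
    | zero => intro _; exact le_rfl
    | succ i ih => intro hi; exact (hxm i hi).trans (ih (by omega))
  have hy_le : ∀ i, i < n → y i ≤ y 0 := by
    intro i
    induction i with
    | zero => intro _; exact le_rfl
    | succ i ih => intro hi; exact (hym i hi).trans (ih (by omega))
  have hzero : ∀ z : ℕ → ℝ, (∀ i, i < n → 0 ≤ z i) → (∀ i, i < n → z i ≤ z 0) → z 0 = 0 →
      (∑ i ∈ range n, z i ^ r) ^ (1 / r) = 0 := by
    intro z h0 h1 h2
    have : ∑ i ∈ range n, z i ^ r = 0 := by
      apply Finset.sum_eq_zero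
      intro i hi
      have hi' := Finset.mem_range.1 hi
      have : z i = 0 := le_antisymm (by have := h1 i hi'; linarith) (h0 i hi')
      rw [this, Real.zero_rpow hrpos.ne']
    rw [this, Real.zero_rpow (by positivity)]
  rcases eq_or_lt_of_le (hxn 0 (by omega)) with hx0 | hx0
  · rw [hzero x hxn hx_le hx0.symm, zero_mul]; exact hS0
  rcases eq_or_lt_of_le (hyn 0 (by omega)) with hy0 | hy0
  · rw [hzero y hyn hy_le hy0.symm, mul_zero]; exact hS0
  -- normalise
  have key : (∑ i ∈ range n, (x i / x 0) ^ r) ^ c * (∑ i ∈ range n, (y i / y 0) ^ r) ^ c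
      ≤ (∑ k ∈ range (n + 1), H k / (x 0 * y 0)) ^ 2 := by
    have hHd : ∀ i j, i < n → j < n → i + j ≤ n →
        x i / x 0 * (y j / y 0) ≤ H (i + j) / (x 0 * y 0) := by
      intro i j hi hj hij
      rw [div_mul_div_comm]
      exact div_le_div_of_nonneg_right (hH i j hi hj hij) (by positivity)
    rcases le_total (y 1 / y 0) (x 1 / x 0) with hc1 | hc1
    · exact seq_norm h (fun i => x i / x 0) (fun i => y i / y 0) (fun k => H k / (x 0 * y 0))
        (div_self hx0.ne') (div_self hy0.ne')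
        (fun i hi => div_le_div_of_nonneg_right (hxm i hi) hx0.le)
        (fun i hi => div_le_div_of_nonneg_right (hym i hi) hy0.le)
        (fun i hi => div_nonneg (hxn i hi) hx0.le) (fun i hi => div_nonneg (hyn i hi) hy0.le)
        hc1 hHd
    · have := seq_norm h (fun i => y i / y 0) (fun i => x i / x 0) (fun k => H k / (x 0 * y 0))
        (div_self hy0.ne') (div_self hx0.ne')
        (fun i hi => div_le_div_of_nonneg_right (hym i hi) hy0.le)
        (fun i hi => div_le_div_of_nonneg_right (hxm i hi) hx0.le)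
        (fun i hi => div_nonneg (hyn i hi) hy0.le) (fun i hi => div_nonneg (hxn i hi) hx0.le)
        hc1 (fun i j hi hj hij => by
          have := hHd j i hj hi (by omega)
          rw [mul_comm, add_comm i j]
          exact this)
      rw [mul_comm]
      exact this
  have hXd : ∑ i ∈ range n, (x i / x 0) ^ r = (∑ i ∈ range n, x i ^ r) / (x 0) ^ r := by
    rw [Finset.sum_div]
    exact Finset.sum_congr rfl fun i hi =>
      Real.div_rpow (hxn i (Finset.mem_range.1 hi)) hx0.le r
  have hYd : ∑ i ∈ range n, (y i / y 0) ^ r = (∑ i ∈ range n, y i ^ r) / (y 0) ^ r := by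
    rw [Finset.sum_div]
    exact Finset.sum_congr rfl fun i hi =>
      Real.div_rpow (hyn i (Finset.mem_range.1 hi)) hy0.le r
  have hX0 : 0 ≤ ∑ i ∈ range n, x i ^ r :=
    Finset.sum_nonneg fun i hi => Real.rpow_nonneg (hxn i (Finset.mem_range.1 hi)) _
  have hY0 : 0 ≤ ∑ i ∈ range n, y i ^ r :=
    Finset.sum_nonneg fun i hi => Real.rpow_nonneg (hyn i (Finset.mem_range.1 hi)) _
  have hxr : ((x 0) ^ r) ^ c = (x 0) ^ 2 := by
    rw [← Real.rpow_mul hx0.le, h.hrc, Real.rpow_two]
  have hyr : ((y 0) ^ r) ^ c = (y 0) ^ 2 := by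
    rw [← Real.rpow_mul hy0.le, h.hrc, Real.rpow_two]
  rw [hXd, hYd, Real.div_rpow hX0 (Real.rpow_nonneg hx0.le _),
    Real.div_rpow hY0 (Real.rpow_nonneg hy0.le _), hxr, hyr, ← Finset.sum_div, div_mul_div_comm,
    div_pow, mul_pow] at key
  have key2 : (∑ i ∈ range n, x i ^ r) ^ c * (∑ i ∈ range n, y i ^ r) ^ c
      ≤ (∑ k ∈ range (n + 1), H k) ^ 2 := by
    rwa [div_le_div_iff_of_pos_right (by positivity)] at key
  have hsq : ∀ t : ℝ, 0 ≤ t → (t ^ (1 / r)) ^ 2 = t ^ c := by
    intro t ht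
    rw [hc, ← Real.rpow_natCast, ← Real.rpow_mul ht]
    congr 1
    push_cast
    ring
  apply le_of_sq_le_sq _ hS0
  rw [mul_pow, hsq _ hX0, hsq _ hY0]
  exact key2

end MP_7b7e48_nt.LocalSharp
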