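import Mathlib
import Pool.Agent.Lib.MP_7b7e48_nt.Romanoff
import Pool.Agent.Lib.MP_7b7e48_nt.SquareMean

/-!
# Goldbach representations with a very small prime, for a positive proportion of even numbers

There are constants `c, C > 0` such that for all large `X` and all `Y` with
`C log X log log X ≤ Y ≤ X`, at least `c X` of the integers `n ≤ X` have at least
`c Y / (log Y log X)` primes `p ≤ Y`, `p < n`, with `2n - p` prime.
-/

open Finset Filter

namespace Pool.Agent.Lib.MP_7b7e48_nt.SmallPrimeUniformWeak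

open Pool.Agent.Lib.MP_7b7e48_nt

theorem tendsto_log_nat : Tendsto (fun X : ℕ => Real.log (X : ℝ)) atTop atTop :=
  Real.tendsto_log_atTop.comp tendsto_natCast_atTop_atTop

theorem weak_result : ∃ c C : ℝ, 0 < c ∧ 0 < C ∧ ∃ X₀ : ℕ, ∀ X Y : ℕ, X₀ ≤ X → Y ≤ X →
    C * Real.log X * Real.log (Real.log X) ≤ Y →
    c * X ≤
      (((Finset.Icc 1 X).filter (fun n =>
        c * Y / (Real.log Y * Real.log X) ≤
          (((Finset.Icc 1 Y).filter (fun p => p.Prime ∧ p < n ∧
            (2 * n - p).Prime)).card : ℝ))).card : ℝ) := by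
  obtain ⟨c1, hc1, X1, hrom⟩ := romanoff
  obtain ⟨K, hK1, hK⟩ := diffSum_oddPrimes_le
  -- eventual conditions on `X`
  have hev : ∀ᶠ X : ℕ in atTop, X1 ≤ X ∧ 3200 ≤ X ∧ (200 : ℝ) ≤ Real.log X ∧
      (200 : ℝ) ≤ Real.log (Real.log X) ∧
      100 * (Real.log X) ^ 2 + 1 ≤ (X : ℝ) / 800 := by
    have t1 := tendsto_log_nat
    have t2 : Tendsto (fun X : ℕ => Real.log (Real.log (X : ℝ))) atTop atTop :=
      Real.tendsto_log_atTop.comp t1
    have t3 : ∀ᶠ X : ℕ in atTop, 100 * (Real.log X) ^ 2 + 1 ≤ (X : ℝ) / 800 := by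
      have h1 : (fun x : ℝ => (Real.log x) ^ 2) =o[atTop] (fun x : ℝ => x) :=
        Real.isLittleO_pow_log_id_atTop
      have h2 : ∀ᶠ x : ℝ in atTop, ‖(Real.log x) ^ 2‖ ≤ (1 / 160000) * ‖x‖ :=
        h1.def (by norm_num)
      have h3 : ∀ᶠ x : ℝ in atTop, 100 * (Real.log x) ^ 2 + 1 ≤ x / 800 := by
        filter_upwards [h2, eventually_ge_atTop (1600 : ℝ)] with x hx hx1
        rw [Real.norm_of_nonneg (by positivity), Real.norm_of_nonneg (by linarith)] at hx
        linarith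
      exact tendsto_natCast_atTop_atTop.eventually h3
    filter_upwards [eventually_ge_atTop X1, eventually_ge_atTop 3200,
      t1.eventually_ge_atTop 200, t2.eventually_ge_atTop 200, t3] with X h1 h2 h3 h4 h5
    exact ⟨h1, h2, h3, h4, h5⟩
  obtain ⟨X₀, hX₀⟩ := eventually_atTop.mp hev
  have hK0 : 0 < K := by linarith
  set c : ℝ := min (c1 / K) (c1 / 16000) with hc
  have hc0 : 0 < c := by positivity
  refine ⟨c, 100, hc0, by norm_num, X₀, fun X Y hX hYX hY => ?_⟩
  obtain ⟨hX1, hX3, hL, hLL, hX5⟩ := hX₀ X hX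
  set L := Real.log (X : ℝ) with hLdef
  have hL0 : 0 < L := by linarith
  have hXr : (3200 : ℝ) ≤ X := by exact_mod_cast hX3
  -- the level `Y' = min Y (X / 400)`
  obtain ⟨Y', hY'⟩ : ∃ Y' : ℕ, Y' = min Y (X / 400) := ⟨_, rfl⟩
  have hY'Y : Y' ≤ Y := hY' ▸ min_le_left _ _
  have hY'X : Y' ≤ X / 400 := hY' ▸ min_le_right _ _
  have hdiv2 : (X : ℝ) / 400 - 1 ≤ ((X / 400 : ℕ) : ℝ) := by
    have : (X : ℝ) < 400 * (((X / 400 : ℕ) : ℝ) + 1) := by
      exact_mod_cast Nat.lt_mul_div_succ X (by norm_num : 0 < 400)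
    linarith
  have hX800 : (X : ℝ) / 800 ≤ ((X / 400 : ℕ) : ℝ) := by linarith
  -- the base level `Y0`
  obtain ⟨Y0, hY0⟩ : ∃ Y0 : ℕ, Y0 = ⌈100 * L * Real.log L⌉₊ := ⟨_, rfl⟩
  have hLlog : Real.log L ≤ L := (Real.log_le_sub_one_of_pos hL0).trans (by linarith)
  have hY0ge : 100 * L * Real.log L ≤ (Y0 : ℝ) := by rw [hY0]; exact Nat.le_ceil _
  have hY0pos : 0 ≤ 100 * L * Real.log L := by positivity
  have hY0lt : (Y0 : ℝ) < 100 * L * Real.log L + 1 := by
    rw [hY0]; exact Nat.ceil_lt_add_one hY0pos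
  have hY0le2 : (Y0 : ℝ) ≤ 100 * L ^ 2 + 1 := by nlinarith
  have hY0Y : Y0 ≤ Y := by rw [hY0]; exact Nat.ceil_le.mpr hY
  have hY0X : Y0 ≤ X / 400 := by
    have : (Y0 : ℝ) ≤ ((X / 400 : ℕ) : ℝ) := by linarith
    exact_mod_cast this
  have hY0Y' : Y0 ≤ Y' := hY' ▸ le_min hY0Y hY0X
  have hY0big : (3 : ℝ) ≤ Y0 := by nlinarith
  have hY03 : 3 ≤ Y0 := by exact_mod_cast hY0big
  have hY'3 : 3 ≤ Y' := hY03.trans hY0Y'
  have hY'r : (3 : ℝ) ≤ Y' := by exact_mod_cast hY'3
  have hY'log : 0 < Real.log Y' := Real.log_pos (by linarith)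
  have hYr : (3 : ℝ) ≤ Y := by
    have : (Y' : ℝ) ≤ Y := by exact_mod_cast hY'Y
    linarith
  -- the set of small primes
  set Q := oddPrimes Y' with hQ
  have hQmem : ∀ q ∈ Q, q.Prime ∧ q ≠ 2 ∧ q ≤ X / 400 := by
    intro q hq
    have h1 := Finset.mem_filter.mp hq
    have h2 := Finset.mem_Icc.mp h1.1
    exact ⟨h1.2, by omega, by omega⟩
  have hQL : L ≤ (Q.card : ℝ) := by
    have h1 := card_oddPrimes_ge Y0 hY03
    have h2 : ((oddPrimes Y0).card : ℝ) ≤ Q.card := by
      have : (oddPrimes Y0).card ≤ Q.card := by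
        apply Finset.card_le_card
        intro q hq
        have h3 := Finset.mem_filter.mp hq
        have h4 := Finset.mem_Icc.mp h3.1
        exact Finset.mem_filter.mpr ⟨Finset.mem_Icc.mpr ⟨h4.1, by omega⟩, h3.2⟩
      exact_mod_cast this
    have hlogY0 : Real.log Y0 ≤ 3 * Real.log L := by
      have h3 : (Y0 : ℝ) ≤ L ^ 3 := by
        have : (200 : ℝ) * L ^ 2 ≤ L ^ 3 := by nlinarith [sq_nonneg L]
        nlinarith
      calc Real.log Y0 ≤ Real.log (L ^ 3) := Real.log_le_log (by linarith) h3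
        _ = 3 * Real.log L := by rw [Real.log_pow]; norm_num
    have hlogY0pos : 0 < Real.log Y0 := Real.log_pos (by linarith)
    have h5 : L ≤ (1 / 20 : ℝ) * Y0 / Real.log Y0 := by
      rw [le_div_iff₀ hlogY0pos]
      calc L * Real.log Y0 ≤ L * (3 * Real.log L) := by gcongr
        _ ≤ (1 / 20) * (100 * L * Real.log L) := by nlinarith
        _ ≤ (1 / 20) * Y0 := by gcongr
    linarith
  have hmain := hrom X hX1 Q hQmem hQL K hK1 (hK Y' hY'3)
  -- lower bound for `|Q|`
  have hQlow : (1 / 16000 : ℝ) * Y / Real.log Y ≤ (Q.card : ℝ) := by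
    have h1 := card_oddPrimes_ge Y' hY'3
    refine le_trans ?_ h1
    have h2 : Real.log Y' ≤ Real.log Y :=
      Real.log_le_log (by linarith) (by exact_mod_cast hY'Y)
    have h3 : (Y : ℝ) / 800 ≤ Y' := by
      rcases le_or_gt Y (X / 400) with h | h
      · have : Y' = Y := by rw [hY']; exact min_eq_left h
        rw [this]; linarith
      · have : Y' = X / 400 := by rw [hY']; exact min_eq_right h.le
        rw [this]
        have h4 : (Y : ℝ) ≤ X := by exact_mod_cast hYX
        linarith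
    rw [div_le_div_iff₀ (by linarith) hY'log]
    have h4 : (1 / 16000 : ℝ) * Y ≤ 1 / 20 * Y' := by linarith
    exact mul_le_mul h4 h2 hY'log.le (by positivity)
  have hlogY : 0 < Real.log Y := Real.log_pos (by linarith)
  -- conclusion
  have hcK : c * X ≤ c1 * X / K := by
    have h1 : c ≤ c1 / K := min_le_left _ _
    calc c * X ≤ c1 / K * X := by gcongr
      _ = c1 * X / K := by ring
  refine hcK.trans (hmain.trans ?_)
  have hsub : (Finset.Icc 1 X).filter (fun n => c1 * (Q.card : ℝ) / L ≤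
      ((Q.filter (fun q => q < n ∧ (2 * n - q).Prime)).card : ℝ)) ⊆
      (Finset.Icc 1 X).filter (fun n =>
        c * Y / (Real.log Y * L) ≤
          (((Finset.Icc 1 Y).filter (fun p => p.Prime ∧ p < n ∧
            (2 * n - p).Prime)).card : ℝ)) := by
    intro n hn
    have hn := Finset.mem_filter.mp hn
    refine Finset.mem_filter.mpr ⟨hn.1, ?_⟩
    have h1 : ((Q.filter (fun q => q < n ∧ (2 * n - q).Prime)).card : ℝ) ≤
        (((Finset.Icc 1 Y).filter (fun p => p.Prime ∧ p < n ∧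
            (2 * n - p).Prime)).card : ℝ) := by
      have : (Q.filter (fun q => q < n ∧ (2 * n - q).Prime)).card ≤
          ((Finset.Icc 1 Y).filter (fun p => p.Prime ∧ p < n ∧
            (2 * n - p).Prime)).card := by
        apply Finset.card_le_card
        intro q hq
        have h2 := Finset.mem_filter.mp hq
        have h3 := Finset.mem_filter.mp h2.1
        have h4 := Finset.mem_Icc.mp h3.1
        exact Finset.mem_filter.mpr ⟨Finset.mem_Icc.mpr ⟨by omega, by omega⟩, h3.2, h2.2⟩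
      exact_mod_cast this
    refine le_trans ?_ (hn.2.trans h1)
    have hc4 : c ≤ c1 / 16000 := min_le_right _ _
    calc c * Y / (Real.log Y * L) ≤ (c1 / 16000) * Y / (Real.log Y * L) := by gcongr
      _ = c1 * ((1 / 16000 : ℝ) * Y / Real.log Y) / L := by field_simp
      _ ≤ c1 * (Q.card : ℝ) / L := by gcongr
  exact_mod_cast Finset.card_le_card hsub

end Pool.Agent.Lib.MP_7b7e48_nt.SmallPrimeUniformWeak
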