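import Mathlib
import Pool.Agent.Lib.MP_7b7e48_nt.Romanoff
import Pool.Agent.Lib.Sieve.SingularAverage

/-!
# A uniform Romanoff type lower bound for an arbitrary set of small primes

The first theorem is a version of `romanoff` with the diagonal term also absorbed into `K`.
-/

open Finset Filter

namespace Pool.Agent.Lib.MP_7b7e48_nt

open Pool.Agent.Lib.MP_5d7b92_nt (paley_zygmund rep sum_rep pairCount sum_rep_sq
  primeCounting_ge primeCounting_le)

/-- **Romanoff type theorem.** -/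
theorem romanoff_general : ∃ c : ℝ, 0 < c ∧ ∃ X0 : ℕ, ∀ X : ℕ, X0 ≤ X → ∀ Q : Finset ℕ,
    (∀ q ∈ Q, q.Prime ∧ q ≠ 2 ∧ q ≤ X / 400) →
    ∀ K : ℝ, 1 ≤ K → Real.log X ≤ K * (Q.card : ℝ) → diffSum Q ≤ K * (Q.card : ℝ) ^ 2 →
    c * X / K ≤ (((Finset.Icc 1 X).filter (fun n => c * (Q.card : ℝ) / Real.log X ≤
      ((Q.filter (fun q => q < n ∧ (2 * n - q).Prime)).card : ℝ))).card : ℝ) := by
  obtain ⟨CA, hCA, hA⟩ := Pool.Agent.Lib.Sieve.pair_sieve
  obtain ⟨X1, hX1⟩ := card_bigPrimes_ge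
  set D : ℝ := 5 + 2 * CA with hD
  have hD0 : 0 < D := by positivity
  set c : ℝ := min (1 / (4 * 20 ^ 2 * D)) (1 / 40) with hc
  have hc0 : 0 < c := by positivity
  refine ⟨c, hc0, max X1 800, fun X hX Q hQ K hK hQL hdiff => ?_⟩
  have hXX1 : X1 ≤ X := (le_max_left _ _).trans hX
  have hX800 : 800 ≤ X := (le_max_right _ _).trans hX
  set L := Real.log (X : ℝ) with hL
  have hXr : (800 : ℝ) ≤ X := by exact_mod_cast hX800
  have hX0 : (0 : ℝ) < X := by linarith
  have hL0 : 0 < L := Real.log_pos (by linarith)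
  have hQ0 : (0 : ℝ) < Q.card := by
    rcases Nat.eq_zero_or_pos Q.card with h | h
    · rw [h] at hQL
      simp at hQL
      exact absurd hQL (not_le.mpr hL0)
    · exact_mod_cast h
  set P := bigPrimes X with hP
  have hPlow : (1 / 20 : ℝ) * X / L ≤ (P.card : ℝ) := hX1 X hXX1
  have hPup : (P.card : ℝ) ≤ 5 * X / L := by
    have h1 := primeCounting_le X (by omega)
    have h2 : (P.card : ℝ) ≤ (Nat.primeCounting X : ℝ) := by
      exact_mod_cast card_bigPrimes_le X
    linarith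
  have hPmem : ∀ p ∈ P, X / 400 < p ∧ p ≤ X ∧ p.Prime := by
    intro p hp
    have := Finset.mem_filter.mp hp
    have h2 := Finset.mem_Ioc.mp this.1
    exact ⟨h2.1, h2.2, this.2⟩
  have hodd : ∀ p : ℕ, p.Prime → p ≠ 2 → p % 2 = 1 := fun p hp h2 =>
    (hp.eq_two_or_odd).resolve_left h2
  have hQP : ∀ q ∈ Q, ∀ p ∈ P, ∃ n, n ∈ Finset.Icc 1 X ∧ q + p = 2 * n := by
    intro q hq p hp
    obtain ⟨h1, h2, h3⟩ := hQ q hq
    obtain ⟨h4, h5, h6⟩ := hPmem p hp
    have h7 := hodd q h1 h2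
    have h8 := hodd p h6 (by omega)
    have := h1.two_le
    refine ⟨(q + p) / 2, ?_, by omega⟩
    rw [Finset.mem_Icc]
    omega
  -- first moment
  have hS1 : ∑ n ∈ Finset.Icc 1 X, (rep Q P n : ℝ) = (Q.card : ℝ) * P.card := by
    exact_mod_cast sum_rep Q P X hQP
  -- second moment
  have hpair : ∀ d : ℕ, 1 ≤ d → (pairCount P d : ℝ)
      ≤ CA * ((d : ℝ) / (Nat.totient d : ℝ)) * (X : ℝ) / L ^ 2 := by
    intro d hd
    refine le_trans ?_ (hA X d (by omega) hd)
    have : pairCount P d ≤ ((Finset.Icc 1 X).filter (fun p => p.Prime ∧ (p + d).Prime)).card := by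
      unfold pairCount
      apply Finset.card_le_card
      intro p hp
      have hp := Finset.mem_filter.mp hp
      have hp1 := hPmem p hp.1
      have hp2 := hPmem _ hp.2
      simp only [Finset.mem_filter, Finset.mem_Icc]
      exact ⟨⟨hp1.2.2.one_lt.le, hp1.2.1⟩, hp1.2.2, hp2.2.2⟩
    exact_mod_cast this
  have hS2 : ∑ n ∈ Finset.Icc 1 X, (rep Q P n : ℝ) ^ 2
      ≤ D * K * (Q.card : ℝ) ^ 2 * X / L ^ 2 := by
    have h1 : ∑ n ∈ Finset.Icc 1 X, (rep Q P n : ℝ) ^ 2 ≤ (Q.card : ℝ) * P.card +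
      2 * ∑ q ∈ Q, ∑ q' ∈ Q.filter (fun q' => q < q'), (pairCount P (q' - q) : ℝ) := by
      exact_mod_cast sum_rep_sq Q P X hQP
    have h2 : ∑ q ∈ Q, ∑ q' ∈ Q.filter (fun q' => q < q'), (pairCount P (q' - q) : ℝ)
        ≤ CA * X / L ^ 2 * diffSum Q := by
      unfold diffSum
      rw [Finset.mul_sum]
      refine Finset.sum_le_sum fun q _ => ?_
      rw [Finset.mul_sum]
      refine Finset.sum_le_sum fun q' hq' => ?_
      have := (Finset.mem_filter.mp hq').2
      have h3 := hpair (q' - q) (by omega)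
      calc (pairCount P (q' - q) : ℝ) ≤ _ := h3
        _ = _ := by ring
    have h4 : (Q.card : ℝ) * P.card ≤ 5 * K * (Q.card : ℝ) ^ 2 * X / L ^ 2 := by
      calc (Q.card : ℝ) * P.card ≤ (Q.card : ℝ) * (5 * X / L) := by gcongr
        _ = 5 * L * (Q.card : ℝ) * X / L ^ 2 := by field_simp
        _ ≤ 5 * (K * (Q.card : ℝ)) * (Q.card : ℝ) * X / L ^ 2 := by
            gcongr
        _ = 5 * K * (Q.card : ℝ) ^ 2 * X / L ^ 2 := by ring
    calc ∑ n ∈ Finset.Icc 1 X, (rep Q P n : ℝ) ^ 2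
        ≤ 5 * K * (Q.card : ℝ) ^ 2 * X / L ^ 2
          + 2 * (CA * X / L ^ 2 * (K * (Q.card : ℝ) ^ 2)) := by
          refine h1.trans (add_le_add h4 ?_)
          refine mul_le_mul_of_nonneg_left (h2.trans ?_) (by norm_num)
          refine mul_le_mul_of_nonneg_left hdiff (by positivity)
      _ = D * K * (Q.card : ℝ) ^ 2 * X / L ^ 2 := by rw [hD]; ring
  -- Paley-Zygmund
  set θ : ℝ := c * (Q.card : ℝ) / L with hθ
  have hθ2 : 2 * (θ * ((Finset.Icc 1 X).card : ℝ)) ≤ ∑ n ∈ Finset.Icc 1 X, (rep Q P n : ℝ) := by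
    rw [hS1, Nat.card_Icc]
    have hX' : ((X + 1 - 1 : ℕ) : ℝ) = X := by simp
    rw [hX', hθ]
    have hc4 : c ≤ 1 / 40 := min_le_right _ _
    calc 2 * (c * (Q.card : ℝ) / L * X)
        = (2 * c) * (Q.card : ℝ) * (X / L) := by field_simp
      _ ≤ (1 / 20) * (Q.card : ℝ) * (X / L) := by
          gcongr
          linarith
      _ = (Q.card : ℝ) * ((1 / 20 : ℝ) * X / L) := by ring
      _ ≤ (Q.card : ℝ) * P.card := by gcongr
  have hPZ := paley_zygmund (Finset.Icc 1 X) (fun n => (rep Q P n : ℝ))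
    (fun n _ => Nat.cast_nonneg _) θ hθ2
  rw [hS1] at hPZ
  have hrep : ∀ n, rep Q P n ≤ (Q.filter (fun q => q < n ∧ (2 * n - q).Prime)).card := by
    intro n
    unfold rep
    refine Finset.card_le_card_of_injOn (fun x => x.1) ?_ ?_
    · intro x hx
      have hx := Finset.mem_filter.mp (Finset.mem_coe.mp hx)
      have h1 := (Finset.mem_product.mp hx.1).1
      have h2 := hPmem _ (Finset.mem_product.mp hx.1).2
      have h3 := hQ _ h1
      have h4 := hx.2
      have h5 : x.1 < n := by omega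
      rw [Finset.mem_coe, Finset.mem_filter]
      refine ⟨h1, h5, ?_⟩
      have : 2 * n - x.1 = x.2 := by omega
      rw [this]
      exact h2.2.2
    · intro x hx y hy hxy
      have hx := (Finset.mem_filter.mp (Finset.mem_coe.mp hx)).2
      have hy := (Finset.mem_filter.mp (Finset.mem_coe.mp hy)).2
      have hxy : x.1 = y.1 := hxy
      ext
      · exact hxy
      · omega
  have hmono : (((Finset.Icc 1 X).filter (fun n => θ ≤ (rep Q P n : ℝ))).card : ℝ)
      ≤ (((Finset.Icc 1 X).filter (fun n => θ ≤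
        ((Q.filter (fun q => q < n ∧ (2 * n - q).Prime)).card : ℝ))).card : ℝ) := by
    have : ((Finset.Icc 1 X).filter (fun n => θ ≤ (rep Q P n : ℝ))).card
        ≤ ((Finset.Icc 1 X).filter (fun n => θ ≤
          ((Q.filter (fun q => q < n ∧ (2 * n - q).Prime)).card : ℝ))).card := by
      apply Finset.card_le_card
      intro n hn
      have hn := Finset.mem_filter.mp hn
      refine Finset.mem_filter.mpr ⟨hn.1, hn.2.trans ?_⟩
      exact_mod_cast hrep n
    exact_mod_cast this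
  refine le_trans ?_ hmono
  set N := (((Finset.Icc 1 X).filter (fun n => θ ≤ (rep Q P n : ℝ))).card : ℝ) with hN
  have hN0 : 0 ≤ N := Nat.cast_nonneg _
  -- combine
  have h5 : ((Q.card : ℝ) * ((1 / 20 : ℝ) * X / L)) ^ 2
      ≤ 4 * N * (D * K * (Q.card : ℝ) ^ 2 * X / L ^ 2) := by
    calc ((Q.card : ℝ) * ((1 / 20 : ℝ) * X / L)) ^ 2 ≤ ((Q.card : ℝ) * P.card) ^ 2 := by gcongr
      _ ≤ _ := hPZ
      _ ≤ _ := by gcongr
  have h6 : (X : ℝ) ≤ 4 * 20 ^ 2 * D * (N * K) := by
    have e1 : ((Q.card : ℝ) * ((1 / 20 : ℝ) * X / L)) ^ 2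
        = ((Q.card : ℝ) ^ 2 * X / L ^ 2) * ((1 / 20 ^ 2) * X) := by field_simp
    have e2 : 4 * N * (D * K * (Q.card : ℝ) ^ 2 * X / L ^ 2)
        = ((Q.card : ℝ) ^ 2 * X / L ^ 2) * (4 * D * (N * K)) := by ring
    rw [e1, e2] at h5
    have hpos : 0 < (Q.card : ℝ) ^ 2 * X / L ^ 2 := by positivity
    have := le_of_mul_le_mul_left h5 hpos
    linarith
  have hK0 : 0 < K := by linarith
  rw [div_le_iff₀ hK0]
  have hc4 : c ≤ 1 / (4 * 20 ^ 2 * D) := min_le_left _ _
  calc c * X ≤ 1 / (4 * 20 ^ 2 * D) * X := by gcongr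
    _ ≤ 1 / (4 * 20 ^ 2 * D) * (4 * 20 ^ 2 * D * (N * K)) := by gcongr
    _ = N * K := by field_simp



/-- Maximal order of `h / φ(h)`. -/
theorem exists_div_totient_le : ∃ C : ℝ, 1 ≤ C ∧ ∃ X0 : ℕ, ∀ X : ℕ, X0 ≤ X → ∀ h : ℕ, 1 ≤ h → h ≤ X →
    (h : ℝ) / (Nat.totient h : ℝ) ≤ C * Real.log (Real.log X) := by
  obtain ⟨CM, hCM, hM⟩ := Pool.Agent.Lib.Sieve.mertens_product_upper
  refine ⟨max 1 (CM * Real.exp 6), le_max_left _ _, 100, fun X hX h h1 hhX => ?_⟩
  have hXr : (100 : ℝ) ≤ X := by exact_mod_cast hX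
  set L := Real.log (X : ℝ) with hL
  have hL2 : 4 ≤ L := by
    rw [hL, Real.le_log_iff_exp_le (by linarith)]
    have := Real.exp_one_lt_d9
    calc Real.exp 4 = (Real.exp 1) ^ 4 := by rw [← Real.exp_nat_mul]; norm_num
      _ ≤ 2.7182818286 ^ 4 := by gcongr
      _ ≤ 100 := by norm_num
      _ ≤ X := hXr
  set z : ℕ := ⌊L⌋₊ with hz
  have hz2 : 2 ≤ z := Nat.le_floor (by push_cast; linarith)
  have hzL : (z : ℝ) ≤ L := Nat.floor_le (by linarith)
  have hLz : L < z + 1 := Nat.lt_floor_add_one L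
  rw [Pool.Agent.Lib.Sieve.div_totient_eq_prod_inv h (by omega)]
  rw [← Finset.prod_filter_mul_prod_filter_not h.primeFactors (fun p => p ≤ z)]
  have hA : ∏ p ∈ h.primeFactors.filter (fun p => p ≤ z), (1 - (1 : ℝ) / p)⁻¹ ≤ CM * Real.log z := by
    refine le_trans ?_ (hM z hz2)
    refine Finset.prod_le_prod_of_subset_of_one_le ?_ ?_ ?_
    · intro p hp
      have hp := Finset.mem_filter.mp hp
      have hpp := Nat.prime_of_mem_primeFactors hp.1
      exact Finset.mem_filter.mpr ⟨Finset.mem_Icc.mpr ⟨hpp.one_lt.le, hp.2⟩, hpp⟩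
    · intro p hp
      exact zero_le_one.trans
        (Pool.Agent.Lib.Sieve.one_le_fac (Nat.prime_of_mem_primeFactors (Finset.mem_filter.mp hp).1))
    · intro p hp _
      exact Pool.Agent.Lib.Sieve.one_le_fac (Finset.mem_filter.mp hp).2
  have hB : ∏ p ∈ h.primeFactors.filter (fun p => ¬ p ≤ z), (1 - (1 : ℝ) / p)⁻¹ ≤ Real.exp 6 := by
    have hz1 : (0 : ℝ) < z + 1 := by positivity
    refine (Pool.Agent.Lib.Sieve.prod_fac_le_exp _
      (fun p hp => Nat.prime_of_mem_primeFactors (Finset.mem_filter.mp hp).1) (z + 1) hz1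
      (fun p hp => ?_)).trans ?_
    · have := (Finset.mem_filter.mp hp).2
      have h2 : z + 1 ≤ p := by omega
      exact_mod_cast h2
    · apply Real.exp_le_exp.mpr
      rw [div_le_iff₀ hz1]
      have hc1 : ((h.primeFactors.filter (fun p => ¬ p ≤ z)).card : ℝ) ≤ h.primeFactors.card := by
        exact_mod_cast Finset.card_filter_le _ _
      have hc2 : ((h.primeFactors.card : ℕ) : ℝ) * Real.log 2 ≤ L := by
        have h3 := Pool.Agent.Lib.Sieve.two_pow_card_primeFactors_le h (by omega)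
        have h4 : (2 : ℝ) ^ h.primeFactors.card ≤ X := by
          exact_mod_cast h3.trans hhX
        have h5 := Real.log_le_log (by positivity) h4
        rwa [Real.log_pow] at h5
      have hl2 : (0.6931471803 : ℝ) < Real.log 2 := Real.log_two_gt_d9
      have h6 : (0 : ℝ) ≤ (h.primeFactors.card : ℝ) := by positivity
      nlinarith
  have hlogz : Real.log z ≤ Real.log L := Real.log_le_log (by positivity) hzL
  have hlogL : 0 < Real.log L := Real.log_pos (by linarith)
  have hB0 : 0 ≤ ∏ p ∈ h.primeFactors.filter (fun p => ¬ p ≤ z), (1 - (1 : ℝ) / p)⁻¹ :=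
    Finset.prod_nonneg fun p hp => zero_le_one.trans
        (Pool.Agent.Lib.Sieve.one_le_fac (Nat.prime_of_mem_primeFactors (Finset.mem_filter.mp hp).1))
  calc _ ≤ (CM * Real.log z) * Real.exp 6 := by
        refine mul_le_mul hA hB hB0 ?_
        have : 0 ≤ Real.log (z : ℝ) := Real.log_nonneg (by exact_mod_cast (by omega : 1 ≤ z))
        positivity
    _ ≤ (CM * Real.log L) * Real.exp 6 := by gcongr
    _ = CM * Real.exp 6 * Real.log L := by ring
    _ ≤ _ := by
        refine mul_le_mul_of_nonneg_right (le_max_right _ _) hlogL.le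

/-- The number of `n ≤ X` with `2 n = q + p`, `q ∈ Q`, `p` prime, `q < p`. -/
theorem lower_bound : ∃ c : ℝ, 0 < c ∧ ∃ X0 : ℕ, ∀ X : ℕ, X0 ≤ X → ∀ Q : Finset ℕ,
    1 ≤ Q.card → (∀ q ∈ Q, q.Prime ∧ q ≠ 2 ∧ q ≤ X / 400) →
    c * min ((Q.card : ℝ) * X / Real.log X) (X / Real.log (Real.log X)) ≤
      ({n : ℕ | n ≤ X ∧ ∃ q ∈ Q, ∃ p : ℕ, p.Prime ∧ q < p ∧ q + p = 2 * n}.ncard : ℝ) := by
  obtain ⟨c, hc, X1, hR⟩ := romanoff_general
  obtain ⟨C, hC, X2, hphi⟩ := exists_div_totient_le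
  refine ⟨c / C, by positivity, max (max X1 X2) 100, fun X hX Q hQ1 hQ => ?_⟩
  have hXX1 : X1 ≤ X := ((le_max_left _ _).trans (le_max_left _ _)).trans hX
  have hXX2 : X2 ≤ X := ((le_max_right _ _).trans (le_max_left _ _)).trans hX
  have hX100 : 100 ≤ X := (le_max_right _ _).trans hX
  have hXr : (100 : ℝ) ≤ X := by exact_mod_cast hX100
  have hX0 : (0 : ℝ) < X := by linarith
  set L := Real.log (X : ℝ) with hL
  have hL2 : 4 ≤ L := by
    rw [hL, Real.le_log_iff_exp_le (by linarith)]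
    have := Real.exp_one_lt_d9
    calc Real.exp 4 = (Real.exp 1) ^ 4 := by rw [← Real.exp_nat_mul]; norm_num
      _ ≤ 2.7182818286 ^ 4 := by gcongr
      _ ≤ 100 := by norm_num
      _ ≤ X := hXr
  have hL0 : 0 < L := by linarith
  have hLL : 1 ≤ Real.log L := by
    rw [Real.le_log_iff_exp_le hL0]
    have := Real.exp_one_lt_d9
    linarith
  set t : ℝ := (Q.card : ℝ) with ht
  have ht1 : 1 ≤ t := by rw [ht]; exact_mod_cast hQ1
  have ht0 : 0 < t := by linarith
  set K : ℝ := C * max (L / t) (Real.log L) with hK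
  have hmax1 : 1 ≤ max (L / t) (Real.log L) := hLL.trans (le_max_right _ _)
  have hK1 : 1 ≤ K := by
    rw [hK]
    calc (1 : ℝ) = 1 * 1 := by ring
      _ ≤ C * max (L / t) (Real.log L) := by gcongr
  have hLK : L ≤ K * t := by
    rw [hK]
    calc L = 1 * (L / t) * t := by field_simp
      _ ≤ C * max (L / t) (Real.log L) * t := by
          gcongr
          exact le_max_left _ _
  have hdiff : diffSum Q ≤ K * t ^ 2 := by
    unfold diffSum
    have h1 : ∀ q ∈ Q, ∀ q' ∈ Q.filter (fun q' => q < q'),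
        ((q' - q : ℕ) : ℝ) / (Nat.totient (q' - q) : ℝ) ≤ K := by
      intro q hq q' hq'
      have hq' := Finset.mem_filter.mp hq'
      have h2 := (hQ q' hq'.1).2.2
      have h3 : X / 400 ≤ X := Nat.div_le_self _ _
      refine (hphi X hXX2 (q' - q) (by omega) (by omega)).trans ?_
      rw [hK]
      gcongr
      exact le_max_right _ _
    calc ∑ q ∈ Q, ∑ q' ∈ Q.filter (fun q' => q < q'),
          ((q' - q : ℕ) : ℝ) / (Nat.totient (q' - q) : ℝ)
        ≤ ∑ q ∈ Q, ∑ q' ∈ Q.filter (fun q' => q < q'), K :=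
          Finset.sum_le_sum fun q hq => Finset.sum_le_sum fun q' hq' => h1 q hq q' hq'
      _ ≤ ∑ q ∈ Q, t * K := by
          refine Finset.sum_le_sum fun q hq => ?_
          rw [Finset.sum_const, nsmul_eq_mul]
          have : ((Q.filter (fun q' => q < q')).card : ℝ) ≤ t := by
            rw [ht]; exact_mod_cast Finset.card_filter_le _ _
          gcongr
      _ = K * t ^ 2 := by
          rw [Finset.sum_const, nsmul_eq_mul, ← ht]; ring
  have hmain := hR X hXX1 Q hQ K hK1 hLK hdiff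
  have hmono : (((Finset.Icc 1 X).filter (fun n => c * (Q.card : ℝ) / Real.log X ≤
      ((Q.filter (fun q => q < n ∧ (2 * n - q).Prime)).card : ℝ))).card : ℝ) ≤
      ({n : ℕ | n ≤ X ∧ ∃ q ∈ Q, ∃ p : ℕ, p.Prime ∧ q < p ∧ q + p = 2 * n}.ncard : ℝ) := by
    have : ((Finset.Icc 1 X).filter (fun n => c * (Q.card : ℝ) / Real.log X ≤
      ((Q.filter (fun q => q < n ∧ (2 * n - q).Prime)).card : ℝ))).card ≤
      {n : ℕ | n ≤ X ∧ ∃ q ∈ Q, ∃ p : ℕ, p.Prime ∧ q < p ∧ q + p = 2 * n}.ncard := by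
      rw [← Set.ncard_coe_finset]
      apply Set.ncard_le_ncard _ ((Set.finite_Iic X).subset fun n hn => hn.1)
      intro n hn
      have hn := Finset.mem_filter.mp (Finset.mem_coe.mp hn)
      refine ⟨(Finset.mem_Icc.mp hn.1).2, ?_⟩
      have hpos : 0 < c * (Q.card : ℝ) / Real.log X := by
        rw [← ht, ← hL]; positivity
      have h3 : (0 : ℝ) < ((Q.filter (fun q => q < n ∧ (2 * n - q).Prime)).card : ℝ) :=
        hpos.trans_le hn.2
      have h4 : 0 < (Q.filter (fun q => q < n ∧ (2 * n - q).Prime)).card := by exact_mod_cast h3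
      obtain ⟨q, hq⟩ := Finset.card_pos.mp h4
      have hq := Finset.mem_filter.mp hq
      exact ⟨q, hq.1, 2 * n - q, hq.2.2, by omega, by omega⟩
    exact_mod_cast this
  refine le_trans ?_ (hmain.trans hmono)
  -- c / C * min (t X / L) (X / log L) ≤ c X / K
  have hmaxpos : 0 < max (L / t) (Real.log L) := by linarith
  have hmin : min (t * X / L) (X / Real.log L) ≤ X / max (L / t) (Real.log L) := by
    rcases le_total (L / t) (Real.log L) with h | h
    · rw [max_eq_right h]; exact min_le_right _ _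
    · rw [max_eq_left h]
      refine (min_le_left _ _).trans ?_
      rw [div_div_eq_mul_div, mul_comm t (X : ℝ)]
  calc c / C * min (t * X / L) (X / Real.log L) ≤ c / C * (X / max (L / t) (Real.log L)) := by
        gcongr
    _ = c * X / K := by rw [hK]; field_simp

end Pool.Agent.Lib.MP_7b7e48_nt
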