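import Mathlib
import Pool.Agent.Lib.MP_5d7b92_nt.Count
import Pool.Agent.Lib.Sieve.Pair

/-!
# Sets of small primes all in one residue class modulo a primorial
-/

open Finset Filter

namespace Pool.Agent.Lib.MP_7b7e48_nt

open Pool.Agent.Lib.MP_5d7b92_nt (primeCounting_ge primeCounting_le)

/-- the product of the odd primes up to `W` -/
noncomputable def oddPrimorial (W : ℕ) : ℕ := ∏ p ∈ (Finset.Icc 3 W).filter Nat.Prime, p

theorem oddPrimorial_pos (W : ℕ) : 0 < oddPrimorial W := by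
  unfold oddPrimorial
  exact Finset.prod_pos fun p hp => (Finset.mem_filter.mp hp).2.pos

theorem two_mul_oddPrimorial (W : ℕ) (hW : 2 ≤ W) : 2 * oddPrimorial W = primorial W := by
  unfold oddPrimorial primorial
  have : (Finset.range (W + 1)).filter Nat.Prime
      = insert 2 ((Finset.Icc 3 W).filter Nat.Prime) := by
    ext p
    simp only [Finset.mem_filter, Finset.mem_range, Finset.mem_insert, Finset.mem_Icc]
    constructor
    · rintro ⟨h1, h2⟩
      have := h2.two_le
      by_cases h : p = 2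
      · exact Or.inl h
      · exact Or.inr ⟨⟨by omega, by omega⟩, h2⟩
    · rintro (h | h)
      · subst h; exact ⟨by omega, Nat.prime_two⟩
      · exact ⟨by omega, h.2⟩
  rw [this, Finset.prod_insert]
  simp

theorem coprime_two_oddPrimorial (W : ℕ) : Nat.Coprime 2 (oddPrimorial W) := by
  unfold oddPrimorial
  apply Nat.Coprime.prod_right
  intro p hp
  have hp := Finset.mem_filter.mp hp
  have := Finset.mem_Icc.mp hp.1
  exact (Nat.coprime_primes Nat.prime_two hp.2).mpr (by omega)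

theorem coprime_oddPrimorial_of_prime (W p : ℕ) (hp : p.Prime) (hpW : W < p) :
    Nat.Coprime (oddPrimorial W) p := by
  unfold oddPrimorial
  apply Nat.Coprime.prod_left
  intro q hq
  have hq := Finset.mem_filter.mp hq
  have := Finset.mem_Icc.mp hq.1
  exact (Nat.coprime_primes hq.2 hp).mpr (by omega)

theorem oddPrimorial_le (W : ℕ) (hW : 2 ≤ W) : oddPrimorial W ≤ 4 ^ W := by
  have h1 := two_mul_oddPrimorial W hW
  have h2 := primorial_le_four_pow W
  omega

theorem totient_oddPrimorial (W : ℕ) (hW : 2 ≤ W) :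
    (Nat.totient (oddPrimorial W) : ℝ) / (oddPrimorial W : ℝ) ≤ 2 / Real.log W := by
  set M := primorial W with hM
  have hM0 : 0 < M := primorial_pos W
  have hodd := oddPrimorial_pos W
  have hMr : (0 : ℝ) < M := by exact_mod_cast hM0
  have hor : (0 : ℝ) < oddPrimorial W := by exact_mod_cast hodd
  have h1 := Pool.Agent.Lib.Sieve.harmonic_le_coprime M W hM0.ne'
  have h2 : (Finset.Icc 1 W).filter (fun v => v.Coprime M) = {1} := by
    ext v
    simp only [Finset.mem_filter, Finset.mem_Icc, Finset.mem_singleton]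
    constructor
    · rintro ⟨⟨h1, h2⟩, h3⟩
      by_contra hne
      have hp := Nat.minFac_prime hne
      have hle : v.minFac ≤ W := (Nat.minFac_le h1).trans h2
      have hdvd : v.minFac ∣ M := by
        rw [hM]
        unfold primorial
        exact Finset.dvd_prod_of_mem _ (Finset.mem_filter.mpr ⟨Finset.mem_range.mpr (by omega), hp⟩)
      exact Nat.not_coprime_of_dvd_of_dvd hp.one_lt (Nat.minFac_dvd v) hdvd h3
    · rintro rfl
      exact ⟨⟨le_rfl, by omega⟩, Nat.coprime_one_left M⟩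
  rw [h2] at h1
  simp only [Finset.sum_singleton, Nat.cast_one, div_one, mul_one] at h1
  have h3 : Real.log W ≤ ∑ w ∈ Finset.Icc 1 W, (1 : ℝ) / w := by
    have h4 := log_add_one_le_harmonic W
    have h5 : ((harmonic W : ℚ) : ℝ) = ∑ w ∈ Finset.Icc 1 W, (1 : ℝ) / w := by
      rw [harmonic_eq_sum_Icc]
      push_cast
      refine Finset.sum_congr rfl fun w _ => by rw [one_div]
    rw [← h5]
    refine le_trans ?_ h4
    apply Real.log_le_log
    · exact_mod_cast (by omega : 0 < W)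
    · push_cast; linarith
  have hlogW : 0 < Real.log W := Real.log_pos (by exact_mod_cast (by omega : 1 < W))
  have hphi : Nat.totient M = Nat.totient (oddPrimorial W) := by
    rw [hM, ← two_mul_oddPrimorial W hW, Nat.totient_mul (coprime_two_oddPrimorial W)]
    simp
  have hphi0 : (0 : ℝ) < Nat.totient M := by exact_mod_cast Nat.totient_pos.mpr hM0
  have h6 : Real.log W * Nat.totient M ≤ M := by
    have := h3.trans h1
    rwa [le_div_iff₀ hphi0] at this
  have h7 : (M : ℝ) = 2 * oddPrimorial W := by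
    rw [hM, ← two_mul_oddPrimorial W hW]; push_cast; ring
  rw [← hphi, div_le_div_iff₀ hor hlogW]
  rw [← h7]
  linarith

/-- All `q ∈ Q` in one residue class modulo the odd primorial: few sums `q + p`. -/
theorem card_class_le (W X a : ℕ) (hW : 2 ≤ W) (hMX : oddPrimorial W ≤ X) (Q : Finset ℕ)
    (hQ : ∀ q ∈ Q, W < q ∧ q % oddPrimorial W = a) :
    ({n : ℕ | n ≤ X ∧ ∃ q ∈ Q, ∃ p : ℕ, p.Prime ∧ q < p ∧ q + p = 2 * n}.ncard : ℝ)
      ≤ 4 * X / Real.log W := by
  set M := oddPrimorial W with hM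
  have hM0 : 0 < M := oddPrimorial_pos W
  have hMr : (0 : ℝ) < M := by exact_mod_cast hM0
  have hodd : M % 2 = 1 := by
    have := coprime_two_oddPrimorial W
    rw [← hM] at this
    rcases Nat.mod_two_eq_zero_or_one M with h | h
    · exfalso
      have h2 : 2 ∣ M := Nat.dvd_of_mod_eq_zero h
      exact Nat.not_coprime_of_dvd_of_dvd one_lt_two (dvd_refl 2) h2 this
    · exact h
  set s := a * ((M - 1) / 2) with hs
  have h2s : 2 * s + a = a * M := by
    have h1 : 2 * ((M - 1) / 2) + 1 = M := by omega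
    calc 2 * s + a = a * (2 * ((M - 1) / 2) + 1) := by rw [hs]; ring
      _ = a * M := by rw [h1]
  have hsub : {n : ℕ | n ≤ X ∧ ∃ q ∈ Q, ∃ p : ℕ, p.Prime ∧ q < p ∧ q + p = 2 * n}.ncard ≤
      ((Finset.Ico (1 + s) (1 + s + X)).filter (fun x => M.Coprime x)).card := by
    rw [← Set.ncard_coe_finset]
    refine Set.ncard_le_ncard_of_injOn (fun n => n + s) ?_ ?_ (Finset.finite_toSet _)
    · rintro n ⟨hn, q, hq, p, hp, hqp, hsum⟩
      obtain ⟨hqW, hqa⟩ := hQ q hq
      have hn1 : 1 ≤ n := by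
        have := hp.two_le
        omega
      rw [Finset.mem_coe, Finset.mem_filter, Finset.mem_Ico]
      refine ⟨⟨by omega, by omega⟩, ?_⟩
      have hcop : M.Coprime p := coprime_oddPrimorial_of_prime W p hp (by omega)
      have hmod : 2 * (n + s) ≡ p [MOD M] := by
        have h1 : 2 * (n + s) + a = q + p + a * M := by
          calc 2 * (n + s) + a = 2 * n + (2 * s + a) := by ring
            _ = q + p + a * M := by rw [h2s, hsum]
        have h2 : q ≡ a [MOD M] := by
          have : q % M = a := hqa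
          unfold Nat.ModEq
          rw [this, ← this, Nat.mod_mod]
        have h3 : 2 * (n + s) + a ≡ p + a [MOD M] := by
          rw [h1]
          calc q + p + a * M ≡ a + p + 0 [MOD M] := by
                apply Nat.ModEq.add (Nat.ModEq.add_right _ h2)
                exact (Nat.modEq_zero_iff_dvd).mpr (Dvd.intro_left a rfl)
            _ = p + a := by ring
        exact Nat.ModEq.add_right_cancel' a h3
      have h4 : M.Coprime (2 * (n + s)) := by
        rw [Nat.coprime_comm]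
        have : Nat.gcd (2 * (n + s)) M = Nat.gcd p M := hmod.gcd_eq
        rw [Nat.Coprime, this]
        exact hcop.symm
      exact Nat.Coprime.coprime_mul_left_right h4
    · intro x _ y _ hxy
      have : x + s = y + s := hxy
      omega
  have hcount := Nat.Ico_filter_coprime_le (1 + s) X hM0.ne'
  have h5 : ({n : ℕ | n ≤ X ∧ ∃ q ∈ Q, ∃ p : ℕ, p.Prime ∧ q < p ∧ q + p = 2 * n}.ncard : ℝ)
      ≤ (Nat.totient M : ℝ) * ((X / M : ℕ) + 1) := by
    exact_mod_cast hsub.trans hcount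
  have h6 : (((X / M : ℕ) : ℝ) + 1) ≤ 2 * X / M := by
    have h7 : ((X / M : ℕ) : ℝ) ≤ X / M := Nat.cast_div_le
    have h8 : (1 : ℝ) ≤ X / M := by
      rw [le_div_iff₀ hMr, one_mul]; exact_mod_cast hMX
    calc (((X / M : ℕ) : ℝ) + 1) ≤ X / M + X / M := by linarith
      _ = 2 * X / M := by ring
  have h9 := totient_oddPrimorial W hW
  rw [← hM] at h9
  calc _ ≤ (Nat.totient M : ℝ) * ((X / M : ℕ) + 1) := h5
    _ ≤ (Nat.totient M : ℝ) * (2 * X / M) := by gcongr
    _ = 2 * X * ((Nat.totient M : ℝ) / M) := by ring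
    _ ≤ 2 * X * (2 / Real.log W) := by gcongr
    _ = 4 * X / Real.log W := by ring

/-- trivial bound -/
theorem card_trivial_le (X : ℕ) (hX : 2 ≤ X) (Q : Finset ℕ) :
    ({n : ℕ | n ≤ X ∧ ∃ q ∈ Q, ∃ p : ℕ, p.Prime ∧ q < p ∧ q + p = 2 * n}.ncard : ℝ)
      ≤ 10 * ((Q.card : ℝ) * X / Real.log X) := by
  have hsub : {n : ℕ | n ≤ X ∧ ∃ q ∈ Q, ∃ p : ℕ, p.Prime ∧ q < p ∧ q + p = 2 * n}.ncard ≤
      Q.card * Nat.primeCounting (2 * X) := by
    rw [← Nat.primesLE_card_eq_primeCounting, ← Finset.card_product, ← Set.ncard_coe_finset]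
    have hfin : ((Q ×ˢ Nat.primesLE (2 * X) : Finset (ℕ × ℕ)) : Set (ℕ × ℕ)).Finite :=
      Finset.finite_toSet _
    have hss : {n : ℕ | n ≤ X ∧ ∃ q ∈ Q, ∃ p : ℕ, p.Prime ∧ q < p ∧ q + p = 2 * n} ⊆
        (fun x : ℕ × ℕ => (x.1 + x.2) / 2) '' ((Q ×ˢ Nat.primesLE (2 * X) : Finset (ℕ × ℕ)) :
          Set (ℕ × ℕ)) := by
      rintro n ⟨hn, q, hq, p, hp, hqp, hsum⟩
      refine ⟨(q, p), ?_, ?_⟩
      · rw [Finset.mem_coe, Finset.mem_product, Nat.mem_primesLE]
        exact ⟨hq, by omega, hp⟩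
      · change (q + p) / 2 = n
        omega
    exact (Set.ncard_le_ncard hss (hfin.image _)).trans (Set.ncard_image_le hfin)
  have h2 := primeCounting_le (2 * X) (by omega)
  have hXr : (2 : ℝ) ≤ X := by exact_mod_cast hX
  have hL : 0 < Real.log X := Real.log_pos (by linarith)
  have hL2 : Real.log X ≤ Real.log ((2 * X : ℕ) : ℝ) := by
    apply Real.log_le_log (by linarith)
    push_cast; linarith
  calc _ ≤ ((Q.card * Nat.primeCounting (2 * X) : ℕ) : ℝ) := by exact_mod_cast hsub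
    _ = (Q.card : ℝ) * Nat.primeCounting (2 * X) := by push_cast; ring
    _ ≤ (Q.card : ℝ) * (5 * ((2 * X : ℕ) : ℝ) / Real.log ((2 * X : ℕ) : ℝ)) := by gcongr
    _ ≤ (Q.card : ℝ) * (5 * ((2 * X : ℕ) : ℝ) / Real.log X) := by gcongr
    _ = 10 * ((Q.card : ℝ) * X / Real.log X) := by push_cast; ring

/-- For every `δ > 0` there are bad sets of every size up to `X ^ (1 - δ)`. -/
theorem upper_bound (δ : ℝ) (hδ : 0 < δ) (hδ1 : δ < 1) : ∃ X0 : ℕ, ∀ X : ℕ, X0 ≤ X → ∀ t : ℕ,
    (t : ℝ) ≤ (X : ℝ) ^ (1 - δ) → ∃ Q : Finset ℕ, Q.card = t ∧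
      (∀ q ∈ Q, q.Prime ∧ q ≠ 2 ∧ q ≤ X / 400) ∧
      ({n : ℕ | n ≤ X ∧ ∃ q ∈ Q, ∃ p : ℕ, p.Prime ∧ q < p ∧ q + p = 2 * n}.ncard : ℝ)
        ≤ 10 * min ((t : ℝ) * X / Real.log X) (X / Real.log (Real.log X)) := by
  -- eventual inequalities
  have hlogtop : Tendsto (fun X : ℕ => Real.log (X : ℝ)) atTop atTop :=
    Real.tendsto_log_atTop.comp tendsto_natCast_atTop_atTop
  have hloglogtop : Tendsto (fun X : ℕ => Real.log (Real.log (X : ℝ))) atTop atTop :=
    Real.tendsto_log_atTop.comp hlogtop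
  have e1 : ∀ᶠ X : ℕ in atTop, 16000 * Real.log (X : ℝ) ≤ (X : ℝ) ^ (0.3 * δ) := by
    have h := (isLittleO_log_rpow_atTop (show 0 < 0.3 * δ by positivity)).bound
      (show (0 : ℝ) < 1 / 16000 by norm_num)
    have h' := tendsto_natCast_atTop_atTop (R := ℝ) |>.eventually h
    filter_upwards [h', eventually_ge_atTop 2] with X hX hX2
    have hXr : (2 : ℝ) ≤ X := by exact_mod_cast hX2
    rw [Real.norm_of_nonneg (Real.log_nonneg (by linarith)),
      Real.norm_of_nonneg (by positivity)] at hX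
    linarith
  have e2 : ∀ᶠ X : ℕ in atTop, 100 / δ ^ 2 ≤ Real.log (X : ℝ) :=
    hlogtop.eventually_ge_atTop _
  have e3 : ∀ᶠ X : ℕ in atTop, 1 ≤ Real.log (Real.log (X : ℝ)) :=
    hloglogtop.eventually_ge_atTop _
  obtain ⟨X0, hX0⟩ := eventually_atTop.mp (e1.and (e2.and e3))
  refine ⟨max X0 1000000, fun X hX t ht => ?_⟩
  obtain ⟨f1, f2, f3⟩ := hX0 X ((le_max_left _ _).trans hX)
  have hXbig : 1000000 ≤ X := (le_max_right _ _).trans hX
  have hXr : (1000000 : ℝ) ≤ X := by exact_mod_cast hXbig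
  have hXpos : (0 : ℝ) < X := by linarith
  set L := Real.log (X : ℝ) with hL
  have hδ2 : 100 ≤ 100 / δ ^ 2 := by
    rw [le_div_iff₀ (by positivity)]
    nlinarith
  have hL100 : 100 ≤ L := hδ2.trans f2
  have hL0 : 0 < L := by linarith
  set W : ℕ := ⌊δ / 2 * L⌋₊ with hW
  have hWle : (W : ℝ) ≤ δ / 2 * L := Nat.floor_le (by positivity)
  have hWlt : δ / 2 * L < W + 1 := Nat.lt_floor_add_one _
  -- sqrt L ≤ W
  have hsq : √L ≤ W := by
    have h1 : √L * √L = L := Real.mul_self_sqrt hL0.le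
    have h2 : 10 / δ ≤ √L := by
      apply Real.le_sqrt_of_sq_le
      calc (10 / δ) ^ 2 = 100 / δ ^ 2 := by rw [div_pow]; norm_num
        _ ≤ L := f2
    have h3 : 10 ≤ δ * √L := by
      rw [div_le_iff₀ hδ] at h2
      linarith
    have h4 : 10 * √L ≤ δ * L := by
      calc 10 * √L ≤ δ * √L * √L := by gcongr
        _ = δ * L := by rw [mul_assoc, h1]
    have h5 : 10 ≤ √L := by
      apply Real.le_sqrt_of_sq_le
      linarith
    linarith
  have hsqrt10 : 10 ≤ √L := by
    apply Real.le_sqrt_of_sq_le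
    linarith
  have hW10 : (10 : ℝ) ≤ W := hsqrt10.trans hsq
  have hW2 : 2 ≤ W := by
    have : (2 : ℝ) ≤ W := by linarith
    exact_mod_cast this
  have hlogW : Real.log L / 2 ≤ Real.log W := by
    have h1 := Real.log_le_log (by linarith) hsq
    rw [Real.log_sqrt hL0.le] at h1
    exact h1
  -- size of the modulus
  have hlog4 : Real.log 4 ≤ 1.4 := by
    have h1 : (4 : ℝ) = 2 ^ 2 := by norm_num
    rw [h1, Real.log_pow]
    have := Real.log_two_lt_d9
    push_cast
    linarith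
  have hMle : (oddPrimorial W : ℝ) ≤ (X : ℝ) ^ (0.7 * δ) := by
    calc (oddPrimorial W : ℝ) ≤ (4 : ℝ) ^ W := by exact_mod_cast oddPrimorial_le W hW2
      _ = Real.exp (Real.log 4 * W) := by
          rw [← Real.rpow_natCast, Real.rpow_def_of_pos (by norm_num)]
      _ ≤ Real.exp (1.4 * (δ / 2 * L)) := by
          apply Real.exp_le_exp.mpr
          gcongr
      _ = (X : ℝ) ^ (0.7 * δ) := by
          rw [Real.rpow_def_of_pos hXpos]
          congr 1
          ring
  have hX1 : (1 : ℝ) ≤ X := by linarith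
  have hMX : oddPrimorial W ≤ X := by
    have : (oddPrimorial W : ℝ) ≤ X := by
      refine hMle.trans ?_
      calc (X : ℝ) ^ (0.7 * δ) ≤ (X : ℝ) ^ (1 : ℝ) := by
            apply Real.rpow_le_rpow_of_exponent_le hX1
            nlinarith
        _ = X := Real.rpow_one _
    exact_mod_cast this
  -- the primes in (W, X/400]
  set S : Finset ℕ := (Finset.Ioc W (X / 400)).filter Nat.Prime with hS
  have hScard : (Nat.primeCounting (X / 400) : ℝ) ≤ S.card + W := by
    have : Nat.primeCounting (X / 400) ≤ S.card + W := by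
      rw [← Nat.primesLE_card_eq_primeCounting]
      have hsub : Nat.primesLE (X / 400) ⊆ S ∪ Finset.Icc 1 W := by
        intro p hp
        rw [Nat.mem_primesLE] at hp
        rw [Finset.mem_union]
        rcases le_or_gt p W with h | h
        · right; exact Finset.mem_Icc.mpr ⟨hp.2.one_lt.le, h⟩
        · left; exact Finset.mem_filter.mpr ⟨Finset.mem_Ioc.mpr ⟨h, hp.1⟩, hp.2⟩
      calc _ ≤ (S ∪ Finset.Icc 1 W).card := Finset.card_le_card hsub
        _ ≤ S.card + (Finset.Icc 1 W).card := Finset.card_union_le _ _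
        _ = S.card + W := by rw [Nat.card_Icc]; simp
    exact_mod_cast this
  have hpi := primeCounting_ge (X / 400) (by omega)
  have hdiv2 : (X : ℝ) / 400 - 1 ≤ ((X / 400 : ℕ) : ℝ) := by
    have : (X : ℝ) < 400 * (((X / 400 : ℕ) : ℝ) + 1) := by
      exact_mod_cast Nat.lt_mul_div_succ X (by norm_num : 0 < 400)
    linarith
  have hdiv1 : ((X / 400 : ℕ) : ℝ) ≤ X / 400 := Nat.cast_div_le
  have hpi2 : (X : ℝ) / (8000 * L) ≤ Nat.primeCounting (X / 400) := by
    refine le_trans ?_ hpi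
    have hlogle : Real.log ((X / 400 : ℕ) : ℝ) ≤ L := by
      apply Real.log_le_log
      · linarith
      · linarith
    have hlogpos : 0 < Real.log ((X / 400 : ℕ) : ℝ) := Real.log_pos (by linarith)
    calc (X : ℝ) / (8000 * L) = (1 / 10) * (X / 800) / L := by field_simp; norm_num
      _ ≤ (1 / 10) * ((X / 400 : ℕ) : ℝ) / L := by gcongr; linarith
      _ ≤ (1 / 10) * ((X / 400 : ℕ) : ℝ) / Real.log ((X / 400 : ℕ) : ℝ) := by gcongr
  have hpow : (X : ℝ) ^ (0.7 * δ) * (X : ℝ) ^ (1 - δ) * (X : ℝ) ^ (0.3 * δ) = X := by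
    rw [← Real.rpow_add hXpos, ← Real.rpow_add hXpos]
    have : 0.7 * δ + (1 - δ) + 0.3 * δ = 1 := by ring
    rw [this, Real.rpow_one]
  have hLX : L * L ≤ X / 16000 := by
    have h1 : 16000 * L ≤ (X : ℝ) ^ (0.3 * δ) := f1
    have h2 : L ≤ (X : ℝ) ^ (1 - δ) * (X : ℝ) ^ (0.7 * δ) := by
      rw [← Real.rpow_add hXpos]
      calc L ≤ 16000 * L := by linarith
        _ ≤ (X : ℝ) ^ (0.3 * δ) := h1
        _ ≤ _ := by
          apply Real.rpow_le_rpow_of_exponent_le hX1
          nlinarith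
    have h3 : 16000 * L * L ≤ X := by
      calc 16000 * L * L ≤ (X : ℝ) ^ (0.3 * δ) * ((X : ℝ) ^ (1 - δ) * (X : ℝ) ^ (0.7 * δ)) := by
            gcongr
        _ = (X : ℝ) ^ (0.7 * δ) * (X : ℝ) ^ (1 - δ) * (X : ℝ) ^ (0.3 * δ) := by ring
        _ = X := hpow
    linarith
  have hcardineq : (oddPrimorial W : ℝ) * t ≤ S.card := by
    have h1 : (oddPrimorial W : ℝ) * t ≤ (X : ℝ) ^ (0.7 * δ) * (X : ℝ) ^ (1 - δ) := by gcongr
    have h2 : (X : ℝ) ^ (0.7 * δ) * (X : ℝ) ^ (1 - δ) * (16000 * L) ≤ X := by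
      calc _ ≤ (X : ℝ) ^ (0.7 * δ) * (X : ℝ) ^ (1 - δ) * (X : ℝ) ^ (0.3 * δ) := by gcongr
        _ = X := hpow
    have h3 : (X : ℝ) ^ (0.7 * δ) * (X : ℝ) ^ (1 - δ) ≤ X / (16000 * L) := by
      rw [le_div_iff₀ (by positivity)]
      exact h2
    have h4 : (W : ℝ) ≤ X / (16000 * L) := by
      rw [le_div_iff₀ (by positivity)]
      have : (W : ℝ) ≤ L := by nlinarith
      calc (W : ℝ) * (16000 * L) ≤ L * (16000 * L) := by gcongr
        _ = 16000 * (L * L) := by ring
        _ ≤ X := by linarith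
    have h5 : (X : ℝ) / (8000 * L) = X / (16000 * L) + X / (16000 * L) := by
      field_simp; norm_num
    linarith
  have hcardnat : (Finset.range (oddPrimorial W)).card * t ≤ S.card := by
    rw [Finset.card_range]
    exact_mod_cast hcardineq
  obtain ⟨a, -, ha⟩ := Finset.exists_le_card_fiber_of_mul_le_card_of_maps_to
    (f := fun q => q % oddPrimorial W) (s := S) (t := Finset.range (oddPrimorial W))
    (fun q _ => Finset.mem_range.mpr (Nat.mod_lt _ (oddPrimorial_pos W)))
    ⟨0, Finset.mem_range.mpr (oddPrimorial_pos W)⟩ hcardnat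
  obtain ⟨Q, hQsub, hQcard⟩ := Finset.exists_subset_card_eq ha
  have hQmem : ∀ q ∈ Q, W < q ∧ q ≤ X / 400 ∧ q.Prime ∧ q % oddPrimorial W = a := by
    intro q hq
    have h1 := Finset.mem_filter.mp (hQsub hq)
    have h2 := Finset.mem_filter.mp h1.1
    have h3 := Finset.mem_Ioc.mp h2.1
    exact ⟨h3.1, h3.2, h2.2, h1.2⟩
  refine ⟨Q, hQcard, fun q hq => ?_, ?_⟩
  · obtain ⟨h1, h2, h3, -⟩ := hQmem q hq
    exact ⟨h3, by omega, h2⟩
  · have hb1 := card_trivial_le X (by omega) Q
    rw [hQcard] at hb1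
    have hb2 := card_class_le W X a hW2 hMX Q (fun q hq => ⟨(hQmem q hq).1, (hQmem q hq).2.2.2⟩)
    have hb3 : 4 * (X : ℝ) / Real.log W ≤ 10 * (X / Real.log L) := by
      have hLLpos : 0 < Real.log L := by linarith
      calc 4 * (X : ℝ) / Real.log W ≤ 4 * X / (Real.log L / 2) := by gcongr
        _ = 8 * (X / Real.log L) := by field_simp; norm_num
        _ ≤ 10 * (X / Real.log L) := by
          have : 0 < (X : ℝ) / Real.log L := by positivity
          linarith
    rw [mul_min_of_nonneg _ _ (by norm_num : (0 : ℝ) ≤ 10)]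
    exact le_min hb1 (hb2.trans hb3)

end Pool.Agent.Lib.MP_7b7e48_nt
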